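import Pool.Agent.H51.FA.Alg

/-!
# FA Aff: elements normalising a subgroup of prime order act on its fixed points by an affine map of the weights

`M : Core`, `c` of prime order `p`, `s c s⁻¹ = c ^ j`.  Take `ζ, u, v, a, b, e, f` from `M.loc c`, `q = (a b)⁻¹` (`Sums`, by `M.card_fx`, `ne` from
`a, b ≠ 0`).  For `t : M.LE.T` with `pr t = s` (`pr_surj`): `pr (t u t⁻¹) = s c s⁻¹ = pr (u ^ j)`, so `t u t⁻¹ = sc z * u ^ j` (`ker_sc`), and by
`wt_conj`, `wt_mul`, `wt_sc` for `x ∈ fx c`: `wt u x = wt (t u t⁻¹) (s • x) = z * wt u (s • x) ^ j`, i.e.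
`ζ ^ (e x).val = z * ζ ^ (j * (e (s • x)).val)`.  Comparing with a fixed point `x₀` of the four, `z` cancels and
`e x₀ + j * e (s • x) = e x + j * e (s • x₀)` in `ZMod p` (`pow_eq_pow_iff_modEq`), so `e (s • x) = j⁻¹ e x + const`
(`j ≠ 0` in `ZMod p`, since `c ^ j` has order `p`).  The same for `F` with the same `j`: `μ = j⁻¹`.  `s • x ∈ fx c` if `x ∈ fx c`: the
group generated by `c` is normalised by `s`: `c • s • x = s • (s⁻¹ c s) • x` and `s⁻¹ c s` is a power of `c` (finite group: `s⁻¹` normalises too).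
-/

set_option autoImplicit false

open Finset

namespace Pool.Agent.H51.FA

theorem smul_mem_fx (M : Core) (c s : M.H) (hc : c ≠ 1) (hs : s * c * s⁻¹ ∈ Subgroup.zpowers c) (x : M.X) (hx : x ∈ M.fx c) :
    s • x ∈ M.fx c := by
  rw [M.mem_fx c hc] at hx ⊢
  have hord : orderOf (s * c * s⁻¹) = orderOf c :=
    orderOf_injective (MulAut.conj s).toMonoidHom (MulAut.conj s).injective c
  have hle : Subgroup.zpowers (s * c * s⁻¹) ≤ Subgroup.zpowers c := by
    rw [Subgroup.zpowers_le]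
    exact hs
  have heq : Subgroup.zpowers (s * c * s⁻¹) = Subgroup.zpowers c := by
    refine Subgroup.eq_of_le_of_card_ge hle ?_
    rw [Nat.card_zpowers, Nat.card_zpowers, hord]
  have hmem : c ∈ Subgroup.zpowers (s * c * s⁻¹) := by
    rw [heq]
    exact Subgroup.mem_zpowers c
  obtain ⟨k, hk⟩ := Subgroup.mem_zpowers_iff.1 hmem
  have hk' : c * s = s * c ^ k := by
    have h1 : (s * c * s⁻¹) ^ k = s * c ^ k * s⁻¹ := conj_zpow
    rw [h1] at hk
    calc c * s = (s * c ^ k * s⁻¹) * s := by rw [hk]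
      _ = s * c ^ k := by group
  have hst : c ∈ MulAction.stabilizer M.H x := hx
  have hst' : c ^ k • x = x := (MulAction.stabilizer M.H x).zpow_mem hst k
  rw [← mul_smul, hk', mul_smul, hst']

private theorem LiftGroup.wt_one {H X : Type} [Group H] [MulAction H X] (L : LiftGroup H X) (x : X) :
    L.wt 1 x = 1 := by
  have h := L.wt_sc 1 x
  rwa [map_one] at h

private theorem LiftGroup.wt_pow {H X : Type} [Group H] [MulAction H X] (L : LiftGroup H X) (u : L.T) (x : X)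
    (hx : L.pr u • x = x) (j : ℕ) : L.wt (u ^ j) x = L.wt u x ^ j := by
  have hst : L.pr u ∈ MulAction.stabilizer H x := hx
  induction j with
  | zero => rw [pow_zero, pow_zero, L.wt_one]
  | succ j ih =>
    have h1 : L.pr (u ^ j) • x = x := by
      rw [map_pow]
      exact (MulAction.stabilizer H x).pow_mem hst j
    rw [pow_succ, L.wt_mul _ _ _ h1 hx, ih, pow_succ]

private theorem LiftGroup.wt_sc_mul {H X : Type} [Group H] [MulAction H X] (L : LiftGroup H X) (z : ℂˣ) (u : L.T)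
    (x : X) (hx : L.pr u • x = x) : L.wt (L.sc z * u) x = z * L.wt u x := by
  have h1 : L.pr (L.sc z) • x = x := by rw [L.pr_sc, one_smul]
  rw [L.wt_mul _ _ _ h1 hx, L.wt_sc]

private theorem LiftGroup.eq_sc_mul {H X : Type} [Group H] [MulAction H X] (L : LiftGroup H X) (u' u : L.T)
    (h : L.pr u' = L.pr u) : ∃ z, u' = L.sc z * u := by
  obtain ⟨z, hz⟩ := L.ker_sc (u' * u⁻¹) (by rw [map_mul, map_inv, h, mul_inv_cancel])
  exact ⟨z, by rw [← hz]; group⟩

private theorem LiftGroup.wt_iff {H X : Type} [Group H] [MulAction H X] (L : LiftGroup H X) {p : ℕ} [Fact p.Prime]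
    {ζ : ℂˣ} (hζ : IsPrimitiveRoot ζ p) (u : L.T) (e : X → ZMod p) (x y : X)
    (hx : L.pr u • x = x) (hy : L.pr u • y = y) (hex : L.wt u x = ζ ^ (e x).val) (hey : L.wt u y = ζ ^ (e y).val)
    (u' : L.T) (h : L.pr u' = L.pr u) : L.wt u' x = L.wt u' y ↔ e x = e y := by
  obtain ⟨z, rfl⟩ := L.eq_sc_mul u' u h
  rw [L.wt_sc_mul z u x hx, L.wt_sc_mul z u y hy, hex, hey, mul_right_inj]
  constructor
  · intro h1
    exact ZMod.val_injective p (hζ.pow_inj (ZMod.val_lt _) (ZMod.val_lt _) h1)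
  · intro h1
    rw [h1]

private theorem LiftGroup.lift_affine {H X : Type} [Group H] [MulAction H X] (L : LiftGroup H X) {p : ℕ}
    [Fact p.Prime] {ζ : ℂˣ} (hζ : IsPrimitiveRoot ζ p) (A : Finset X) (hA : A.Nonempty) (u : L.T) (e : X → ZMod p)
    (he : ∀ x ∈ A, L.wt u x = ζ ^ (e x).val) (hfix : ∀ x ∈ A, L.pr u • x = x) (s : H)
    (hsA : ∀ x ∈ A, s • x ∈ A) (j : ℕ) (hj : (j : ZMod p) ≠ 0) (hs : s * L.pr u * s⁻¹ = L.pr u ^ j) :
    ∃ c₁ : ZMod p, ∀ x ∈ A, e (s • x) = (j : ZMod p)⁻¹ * e x + c₁ := by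
  obtain ⟨t, ht⟩ := L.pr_surj s
  obtain ⟨z, hz⟩ := L.eq_sc_mul (t * u * t⁻¹) (u ^ j) (by
    rw [map_mul, map_mul, map_inv, map_pow, ht, hs])
  have key : ∀ x ∈ A, ζ ^ (e x).val = z * ζ ^ (j * (e (s • x)).val) := by
    intro x hx
    have h1 := L.wt_conj t u x (hfix x hx)
    have hsx := hsA x hx
    have hpow : L.pr (u ^ j) • (s • x) = s • x := by
      rw [map_pow]
      have hst : L.pr u ∈ MulAction.stabilizer H (s • x) := hfix _ hsx
      exact (MulAction.stabilizer H (s • x)).pow_mem hst j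
    rw [ht, hz, L.wt_sc_mul z _ _ hpow, L.wt_pow u _ (hfix _ hsx), he x hx, he _ hsx, ← pow_mul,
      mul_comm _ j] at h1
    exact h1.symm
  obtain ⟨x₀, hx₀⟩ := hA
  refine ⟨e (s • x₀) - (j : ZMod p)⁻¹ * e x₀, fun x hx => ?_⟩
  have h0 := key x₀ hx₀
  have h1 := key x hx
  have h2 : ζ ^ ((e x₀).val + j * (e (s • x)).val) = ζ ^ ((e x).val + j * (e (s • x₀)).val) := by
    rw [pow_add, pow_add, h0, h1]
    exact mul_right_comm z _ _
  have h3 : ((e x₀).val + j * (e (s • x)).val) ≡ ((e x).val + j * (e (s • x₀)).val) [MOD p] := by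
    rw [pow_eq_pow_iff_modEq, ← hζ.eq_orderOf] at h2
    exact h2
  have h4 := (ZMod.natCast_eq_natCast_iff _ _ _).2 h3
  push_cast at h4
  rw [ZMod.natCast_zmod_val, ZMod.natCast_zmod_val, ZMod.natCast_zmod_val, ZMod.natCast_zmod_val] at h4
  have h5 : (j : ZMod p)⁻¹ * j = 1 := inv_mul_cancel₀ hj
  have h6 : (j : ZMod p)⁻¹ * (e x₀ + j * e (s • x)) = (j : ZMod p)⁻¹ * (e x + j * e (s • x₀)) := by rw [h4]
  rw [mul_add, mul_add, ← mul_assoc, ← mul_assoc, h5, one_mul, one_mul] at h6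
  linear_combination h6

theorem affine (M : Core) (c : M.H) (hp : (orderOf c).Prime) :
    ∃ (q e f : M.X → ZMod (orderOf c)), letI : Fact (orderOf c).Prime := ⟨hp⟩; Sums (M.fx c) q e f ∧
      (∀ x ∈ M.fx c, ∀ y ∈ M.fx c, ∀ (u : M.LE.T), M.LE.pr u = c → (M.LE.wt u x = M.LE.wt u y ↔ e x = e y)) ∧
      (∀ x ∈ M.fx c, ∀ y ∈ M.fx c, ∀ (v : M.LF.T), M.LF.pr v = c → (M.LF.wt v x = M.LF.wt v y ↔ f x = f y)) ∧
      ∀ (s : M.H) (j : ℕ), s * c * s⁻¹ = c ^ j → ∃ c₁ d₁ : ZMod (orderOf c), ∀ x ∈ M.fx c,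
        e (s • x) = (j : ZMod (orderOf c))⁻¹ * e x + c₁ ∧ f (s • x) = (j : ZMod (orderOf c))⁻¹ * f x + d₁ := by
  have : Fact (orderOf c).Prime := ⟨hp⟩
  have hc1 : c ≠ 1 := by
    intro h
    rw [h, orderOf_one] at hp
    exact Nat.not_prime_one hp
  obtain ⟨ζ, u, v, a, b, e, f, hζ, hu, hv, hab, h0, he, hf, hee, hff, hef⟩ := M.loc c hp
  have hcard := M.card_fx c hc1
  have hne : (M.fx c).Nonempty := by
    rw [← Finset.card_pos, hcard]
    norm_num
  have hfixc : ∀ x ∈ M.fx c, c • x = x := fun x hx => (M.mem_fx c hc1 x).1 hx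
  have hfu : ∀ x ∈ M.fx c, M.LE.pr u • x = x := fun x hx => by rw [hu]; exact hfixc x hx
  have hfv : ∀ x ∈ M.fx c, M.LF.pr v • x = x := fun x hx => by rw [hv]; exact hfixc x hx
  refine ⟨fun x => (a x * b x)⁻¹, e, f, ⟨hcard, fun x hx => ?_, h0, he, hf, hee, hff, hef⟩, ?_, ?_, ?_⟩
  · exact inv_ne_zero (mul_ne_zero (hab x hx).1 (hab x hx).2.1)
  · intro x hx y hy u' hu'
    exact M.LE.wt_iff hζ u e x y (hfu x hx) (hfu y hy) (hab x hx).2.2.1 (hab y hy).2.2.1 u' (by rw [hu', hu])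
  · intro x hx y hy v' hv'
    exact M.LF.wt_iff hζ v f x y (hfv x hx) (hfv y hy) (hab x hx).2.2.2 (hab y hy).2.2.2 v' (by rw [hv', hv])
  · intro s j hs
    have hj : (j : ZMod (orderOf c)) ≠ 0 := by
      rw [Ne, ZMod.natCast_eq_zero_iff]
      intro hdvd
      rw [orderOf_dvd_iff_pow_eq_one.1 hdvd] at hs
      apply hc1
      have h1 : s * c = s := by rw [← mul_inv_eq_one]; exact hs
      simpa using h1
    have hsA : ∀ x ∈ M.fx c, s • x ∈ M.fx c := by
      intro x hx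
      refine smul_mem_fx M c s hc1 ?_ x hx
      rw [hs]
      exact Subgroup.npow_mem_zpowers c j
    obtain ⟨c₁, hc₁⟩ := M.LE.lift_affine hζ (M.fx c) hne u e (fun x hx => (hab x hx).2.2.1) hfu s hsA j hj
      (by rw [hu, hs])
    obtain ⟨d₁, hd₁⟩ := M.LF.lift_affine hζ (M.fx c) hne v f (fun x hx => (hab x hx).2.2.2) hfv s hsA j hj
      (by rw [hv, hs])
    exact ⟨c₁, d₁, fun x hx => ⟨hc₁ x hx, hd₁ x hx⟩⟩

end Pool.Agent.H51.FA
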