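import Pool.Agent.H51.FA.CoreDef

/-!
# FA Alg: algebra of the localisation sums over four points

`q x = 1/ab ≠ 0`.  All statements are elementary; write `A = {1,2,3,4}`.  The sums are invariant under `e ↦ e + const`, `f ↦ f + const`
(for `e f`, `e²`: use the three sums `∑ q = ∑ e q = ∑ f q = 0`).

`inj_of_sums`: if `x ≠ y` have the same `(e, f)`, shift it to `(0, 0)`.  The other two points `3, 4`: `e₃q₃ + e₄q₄ = 0` and `e₃²q₃ + e₄²q₄ = 0`,
so `e₄ q₄ (e₄ - e₃) = 0`, `e₃ q₃ (e₃ - e₄) = 0`, so `e₃ = e₄` (if `e₄ = 0` then `e₃ q₃ = 0`); similarly `f₃ = f₄`; then either `e₃ = 0`, or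
`q₃ + q₄ = 0`; in both cases `∑ e f q = 0 ≠ 1`.

`two_cycles`: `σ` permutes the four points with `(e, f)(σ x) = μ (e, f)(x) + (c, d)`, `μ ≠ 1`.  Shift so that `c = d = 0` (replace `e` by
`e - c/(1-μ)`).  By `inj_of_sums` at most one point is at the origin.  If `σ x = x` then `(e, f)(x) = 0`.  If `σ` has an orbit containing all
points off the origin (a 4-cycle, or a fixed point and a 3-cycle) with `(e, f) = μ^j (e₀, f₀)` on it, then (`∑ e f q = 1`) `e₀ f₀ ≠ 0`, and
`∑ e² q = e₀² Q = 0`, `∑ e f q = e₀ f₀ Q = 1`, `Q = ∑ μ^(2j) q_j`: contradiction.  A fixed point, a second one: both at the origin: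
contradiction.  So `σ` is a product of two 2-cycles, and `μ² = 1` (a point off the origin), `μ = -1`.

`translation`: `μ = 1` and `(e, f)(σ x) = (e, f)(x) + (c, d)` in `ZMod p`: if `p ≠ 2` then `σ x = x` on `A` (otherwise `(c, d) ≠ 0`, and the orbits of
`σ` on `A` have size divisible by `p` or: iterate `σ` up to 4 times: `σ^k x = x` for some `k ∈ {1,2,3,4}` with `(kc, kd) = 0`, so `p ∣ k`, `p = k = 3`,
all orbits have 3 elements, `3 ∣ 4`); if `p = 2` then `σ (σ x) = x` by `inj_of_sums`; and if `σ x = x` for one `x ∈ A` then for all.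
-/

set_option autoImplicit false

open Finset

namespace Pool.Agent.H51.FA

/-- The localisation sums. -/
structure Sums {X K : Type} [Field K] (A : Finset X) (q e f : X → K) : Prop where
  card : A.card = 4
  ne : ∀ x ∈ A, q x ≠ 0
  s0 : ∑ x ∈ A, q x = 0
  se : ∑ x ∈ A, e x * q x = 0
  sf : ∑ x ∈ A, f x * q x = 0
  see : ∑ x ∈ A, e x ^ 2 * q x = 0
  sff : ∑ x ∈ A, f x ^ 2 * q x = 0
  sef : ∑ x ∈ A, e x * f x * q x = 1

theorem Sums.inj {X K : Type} [Field K] {A : Finset X} {q e f : X → K} (S : Sums A q e f) :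
    ∀ x ∈ A, ∀ y ∈ A, e x = e y → f x = f y → x = y := by
  classical
  intro x hx y hy hexy hfxy
  by_contra hxy
  have hy' : y ∈ A.erase x := Finset.mem_erase.2 ⟨fun h => hxy h.symm, hy⟩
  have hc : ((A.erase x).erase y).card = 2 := by
    rw [Finset.card_erase_of_mem hy', Finset.card_erase_of_mem hx, S.card]
  obtain ⟨z, w, hzw, hB⟩ := Finset.card_eq_two.1 hc
  have hsum : ∀ g : X → K, ∑ t ∈ A, g t = g x + (g y + (g z + g w)) := by
    intro g
    rw [← Finset.add_sum_erase A g hx, ← Finset.add_sum_erase (A.erase x) g hy', hB, Finset.sum_pair hzw]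
  have hz : z ∈ A := by
    have : z ∈ (A.erase x).erase y := by rw [hB]; simp
    exact Finset.mem_of_mem_erase (Finset.mem_of_mem_erase this)
  have hw : w ∈ A := by
    have : w ∈ (A.erase x).erase y := by rw [hB]; simp
    exact Finset.mem_of_mem_erase (Finset.mem_of_mem_erase this)
  have hqz := S.ne z hz
  have hqw := S.ne w hw
  have h0 := S.s0
  have he := S.se
  have hf := S.sf
  have hee := S.see
  have hff := S.sff
  have hef := S.sef
  rw [hsum] at h0 he hf hee hff hef
  rw [← hexy] at he hee hef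
  rw [← hfxy] at hf hff hef
  have key : ∀ (a b r s : K), r ≠ 0 → s ≠ 0 → a * r + b * s = 0 → a ^ 2 * r + b ^ 2 * s = 0 → a = b := by
    intro a b r s hr hs h1 h2
    have h3 : b * s * (b - a) = 0 := by linear_combination h2 - a * h1
    rcases mul_eq_zero.1 h3 with h4 | h4
    · rcases mul_eq_zero.1 h4 with h5 | h5
      · rw [h5, zero_mul, add_zero] at h1
        rcases mul_eq_zero.1 h1 with h6 | h6
        · rw [h5, h6]
        · exact absurd h6 hr
      · exact absurd h5 hs
    · exact (sub_eq_zero.1 h4).symm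
  have hE1 : (e z - e x) * q z + (e w - e x) * q w = 0 := by linear_combination he - e x * h0
  have hE2 : (e z - e x) ^ 2 * q z + (e w - e x) ^ 2 * q w = 0 := by
    linear_combination hee - 2 * e x * he + e x ^ 2 * h0
  have hF1 : (f z - f x) * q z + (f w - f x) * q w = 0 := by linear_combination hf - f x * h0
  have hF2 : (f z - f x) ^ 2 * q z + (f w - f x) ^ 2 * q w = 0 := by
    linear_combination hff - 2 * f x * hf + f x ^ 2 * h0
  have hEF : (e z - e x) * (f z - f x) * q z + (e w - e x) * (f w - f x) * q w = 1 := by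
    linear_combination hef - e x * hf - f x * he + e x * f x * h0
  have hE := key _ _ _ _ hqz hqw hE1 hE2
  have hF := key _ _ _ _ hqz hqw hF1 hF2
  rw [← hE] at hE1 hEF
  rw [← hF] at hEF
  have : (1 : K) = 0 := by linear_combination (f z - f x) * hE1 - hEF
  exact one_ne_zero this

end Pool.Agent.H51.FA
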