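import Pool.Agent.H51.FA.Stab

/-!
# FA Axis: the axes

`ax h` is the pointwise stabilizer of the four fixed points of `h`.

`stabilizer_eq`: let `h ≠ 1`, `x ∈ fx h`.  `S = stabilizer x` is cyclic (`stabilizer_isCyclic`), `c` = a power of `h` of prime order; `S` commutes with
`c` and fixes `x ∈ fx c`, so it fixes `fx c` pointwise (`fix_all`).  `fx h ⊆ fx c` (a power), both have 4 elements, so `fx h = fx c`, and `S ≤ ax h`.
The other inclusion is clear.
`fx_eq`: for `g ∈ ax h`, `g ≠ 1`: `fx h ⊆ fx g`, both have four elements.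
-/

set_option autoImplicit false

namespace Pool.Agent.H51.FA

/-- the pointwise stabilizer of the fixed points of `h` -/
def ax (M : Core) (h : M.H) : Subgroup M.H where
  carrier := {s | ∀ x ∈ M.fx h, s • x = x}
  one_mem' := fun x _ => one_smul _ x
  mul_mem' := fun {a b} ha hb x hx => by rw [mul_smul, hb x hx, ha x hx]
  inv_mem' := fun {a} ha x hx => by rw [inv_smul_eq_iff, ha x hx]

theorem self_mem_ax (M : Core) (h : M.H) (h1 : h ≠ 1) : h ∈ ax M h := fun x hx => (M.mem_fx h h1 x).1 hx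

private theorem fx_eq_of_subset (M : Core) (h g : M.H) (h1 : h ≠ 1) (g1 : g ≠ 1) (hs : ∀ x ∈ M.fx h, g • x = x) : M.fx h = M.fx g :=
  Finset.eq_of_subset_of_card_le (fun x hx => (M.mem_fx g g1 x).2 (hs x hx)) (by rw [M.card_fx h h1, M.card_fx g g1])

private theorem exists_prime_pow (M : Core) (h : M.H) (h1 : h ≠ 1) : ∃ k : ℕ, (orderOf (h ^ k)).Prime := by
  have h0 : orderOf h ≠ 1 := fun hh => h1 (orderOf_eq_one_iff.1 hh)
  obtain ⟨p, hp, hpd⟩ := Nat.exists_prime_and_dvd h0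
  refine ⟨orderOf h / p, ?_⟩
  rw [orderOf_pow_orderOf_div (isOfFinOrder_of_finite h).orderOf_pos.ne' hpd]
  exact hp

private theorem pow_smul_eq (M : Core) (h : M.H) (x : M.X) (hx : h • x = x) (k : ℕ) : h ^ k • x = x := by
  have : h ^ k ∈ MulAction.stabilizer M.H x := Subgroup.pow_mem _ (MulAction.mem_stabilizer_iff.2 hx) k
  exact MulAction.mem_stabilizer_iff.1 this

theorem stabilizer_eq (M : Core) (h : M.H) (h1 : h ≠ 1) (x : M.X) (hx : x ∈ M.fx h) : MulAction.stabilizer M.H x = ax M h := by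
  ext s
  refine ⟨fun hs => ?_, fun hs => MulAction.mem_stabilizer_iff.2 (hs x hx)⟩
  have hsx : s • x = x := MulAction.mem_stabilizer_iff.1 hs
  obtain ⟨k, hk⟩ := exists_prime_pow M h h1
  have c1 : h ^ k ≠ 1 := fun hh => by
    rw [hh, orderOf_one] at hk
    exact Nat.not_prime_one hk
  have hfx : ∀ y ∈ M.fx h, (h ^ k) • y = y := fun y hy => pow_smul_eq M h y ((M.mem_fx h h1 y).1 hy) k
  have he : M.fx h = M.fx (h ^ k) := fx_eq_of_subset M h (h ^ k) h1 c1 hfx
  have : IsCyclic (MulAction.stabilizer M.H x) := stabilizer_isCyclic M x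
  have hcs : (h ^ k) ∈ MulAction.stabilizer M.H x := MulAction.mem_stabilizer_iff.2 (hfx x hx)
  have hcomm : s * h ^ k = h ^ k * s := by
    have := (isMulCommutative_iff.1 IsCyclic.isMulCommutative) (⟨s, hs⟩ : MulAction.stabilizer M.H x) ⟨h ^ k, hcs⟩
    exact congrArg Subtype.val this
  have hconj : s * h ^ k * s⁻¹ = h ^ k := by rw [hcomm, mul_assoc, mul_inv_cancel, mul_one]
  have hall := (fix_all M (h ^ k) s hk (by rw [hconj]; exact Subgroup.mem_zpowers _) ⟨x, he ▸ hx, hsx⟩).1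
  intro y hy
  exact hall y (he ▸ hy)

theorem ax_isCyclic (M : Core) (h : M.H) (h1 : h ≠ 1) : IsCyclic (ax M h) := by
  obtain ⟨x, hx⟩ : (M.fx h).Nonempty := by
    rw [← Finset.card_pos, M.card_fx h h1]
    norm_num
  rw [← stabilizer_eq M h h1 x hx]
  exact stabilizer_isCyclic M x

theorem fx_eq (M : Core) (h g : M.H) (h1 : h ≠ 1) (g1 : g ≠ 1) (hg : g ∈ ax M h) : M.fx g = M.fx h :=
  (fx_eq_of_subset M h g h1 g1 hg).symm

theorem ax_eq (M : Core) (h g : M.H) (h1 : h ≠ 1) (g1 : g ≠ 1) (hg : g ∈ ax M h) : ax M g = ax M h := by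
  have he := fx_eq M h g h1 g1 hg
  ext s
  show (∀ x ∈ M.fx g, s • x = x) ↔ ∀ x ∈ M.fx h, s • x = x
  rw [he]

/-- conjugation: `fx (s h s⁻¹) = s • fx h` -/
theorem mem_ax_conj (M : Core) (h s g : M.H) (h1 : h ≠ 1) : g ∈ ax M (s * h * s⁻¹) ↔ s⁻¹ * g * s ∈ ax M h := by
  have c1 : s * h * s⁻¹ ≠ 1 := fun hh => h1 (conj_eq_one_iff.1 hh)
  have hm : ∀ y : M.X, s • y ∈ M.fx (s * h * s⁻¹) ↔ y ∈ M.fx h := fun y => by
    rw [M.mem_fx _ c1, M.mem_fx _ h1, mul_smul, inv_smul_smul, mul_smul]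
    exact smul_left_cancel_iff s
  show (∀ x ∈ M.fx (s * h * s⁻¹), g • x = x) ↔ ∀ x ∈ M.fx h, (s⁻¹ * g * s) • x = x
  constructor
  · intro H y hy
    rw [mul_smul, mul_smul, H _ ((hm y).2 hy), inv_smul_smul]
  · intro H x hx
    have hx' : s⁻¹ • x ∈ M.fx h := (hm _).1 (by rwa [smul_inv_smul])
    have := H _ hx'
    rwa [mul_smul, mul_smul, smul_inv_smul, smul_left_cancel_iff] at this

end Pool.Agent.H51.FA
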