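import Pool.Agent.H51.FA.Tor

/-!
# FA Chr: a subgroup acting trivially on the fixed points of `c` does not have `c` in its commutator subgroup

`S` acts trivially on `fx c`.  For `x, y ∈ fx c` the map `S → ℂˣ`, `s ↦ wt t x / wt t y` with any `t : M.LE.T`, `pr t = s`, is well defined
(`ker_sc`, `wt_mul`, `wt_sc`) and a homomorphism (`wt_mul`) to a commutative group, so it is 1 on the commutator subgroup
(`Abelianization.commutator_subset_ker` / `Subgroup.commutator_le`); the same for `F`.  If `c` were in it, `exists_ne_wt` would be contradicted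
for two different points of `fx c` (`card_fx`).
-/

set_option autoImplicit false

open Finset
open scoped commutatorElement

namespace Pool.Agent.H51.FA

private theorem chr_wt_one {H X : Type} [Group H] [MulAction H X] (L : LiftGroup H X) (x : X) : L.wt 1 x = 1 := by
  have h := L.wt_sc 1 x
  rwa [map_one] at h

private theorem chr_wt_inv {H X : Type} [Group H] [MulAction H X] (L : LiftGroup H X) (u : L.T) (x : X) (h : L.pr u • x = x) :
    L.wt u⁻¹ x = (L.wt u x)⁻¹ := by
  have h1 : L.pr u⁻¹ • x = x := by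
    rw [map_inv, inv_smul_eq_iff, h]
  have h2 := L.wt_mul u u⁻¹ x h h1
  rw [mul_inv_cancel, chr_wt_one] at h2
  exact (inv_eq_of_mul_eq_one_right h2.symm).symm

/-- the elements which fix `x` and `y` and whose lifts have the same weight at `x` and at `y` -/
private def chrSub {H X : Type} [Group H] [MulAction H X] (L : LiftGroup H X) (x y : X) : Subgroup H where
  carrier := {c | c • x = x ∧ c • y = y ∧ ∀ u, L.pr u = c → L.wt u x = L.wt u y}
  mul_mem' := by
    rintro c d ⟨h1, h2, h3⟩ ⟨k1, k2, k3⟩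
    refine ⟨by rw [mul_smul, k1, h1], by rw [mul_smul, k2, h2], fun u hu => ?_⟩
    obtain ⟨v, hv⟩ := L.pr_surj c
    have hw : L.pr (v⁻¹ * u) = d := by rw [map_mul, map_inv, hv, hu, inv_mul_cancel_left]
    have hvw : u = v * (v⁻¹ * u) := by rw [mul_inv_cancel_left]
    rw [hvw, L.wt_mul v _ x (by rw [hv, h1]) (by rw [hw, k1]), L.wt_mul v _ y (by rw [hv, h2]) (by rw [hw, k2]), h3 v hv, k3 _ hw]
  one_mem' := by
    refine ⟨one_smul _ _, one_smul _ _, fun u hu => ?_⟩
    obtain ⟨z, rfl⟩ := L.ker_sc u hu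
    rw [L.wt_sc, L.wt_sc]
  inv_mem' := by
    rintro c ⟨h1, h2, h3⟩
    have h1' : c⁻¹ • x = x := by rw [inv_smul_eq_iff, h1]
    have h2' : c⁻¹ • y = y := by rw [inv_smul_eq_iff, h2]
    refine ⟨h1', h2', fun u hu => ?_⟩
    have h4 := h3 u⁻¹ (by rw [map_inv, hu, inv_inv])
    rw [chr_wt_inv L u x (by rw [hu, h1']), chr_wt_inv L u y (by rw [hu, h2'])] at h4
    exact inv_injective h4

private theorem chr_comm {H X : Type} [Group H] [MulAction H X] (L : LiftGroup H X) (S : Subgroup H) (x y : X)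
    (hx : ∀ s ∈ S, s • x = x) (hy : ∀ s ∈ S, s • y = y) : ⁅S, S⁆ ≤ chrSub L x y := by
  rw [Subgroup.commutator_le]
  intro g hg h hh
  have key : ∀ w : X, (∀ s ∈ S, s • w = w) → ∀ a b : L.T, L.pr a = g → L.pr b = h → ∀ z : ℂˣ,
      L.wt (L.sc z * (a * b * a⁻¹ * b⁻¹)) w = z := by
    intro w hw a b ha hb z
    have e1 : L.pr a • w = w := by rw [ha]; exact hw g hg
    have e2 : L.pr b • w = w := by rw [hb]; exact hw h hh
    have e3 : L.pr a⁻¹ • w = w := by rw [map_inv, inv_smul_eq_iff, e1]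
    have e4 : L.pr b⁻¹ • w = w := by rw [map_inv, inv_smul_eq_iff, e2]
    have e5 : L.pr (a * b) • w = w := by rw [map_mul, mul_smul, e2, e1]
    have e6 : L.pr (a * b * a⁻¹) • w = w := by rw [map_mul, mul_smul, e3, e5]
    have e7 : L.pr (a * b * a⁻¹ * b⁻¹) • w = w := by rw [map_mul, mul_smul, e4, e6]
    have e8 : L.pr (L.sc z) • w = w := by rw [L.pr_sc, one_smul]
    rw [L.wt_mul _ _ w e8 e7, L.wt_sc, L.wt_mul _ _ w e6 e4, L.wt_mul _ _ w e5 e3, L.wt_mul _ _ w e1 e2, chr_wt_inv L a w e1,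
      chr_wt_inv L b w e2]
    rw [mul_comm (L.wt a w) (L.wt b w), mul_inv_cancel_right, mul_inv_cancel, mul_one]
  have hgh : ⁅g, h⁆ ∈ S := by
    rw [commutatorElement_def]
    exact S.mul_mem (S.mul_mem (S.mul_mem hg hh) (S.inv_mem hg)) (S.inv_mem hh)
  refine ⟨hx _ hgh, hy _ hgh, fun u hu => ?_⟩
  obtain ⟨a, ha⟩ := L.pr_surj g
  obtain ⟨b, hb⟩ := L.pr_surj h
  have h1 : L.pr (u * (a * b * a⁻¹ * b⁻¹)⁻¹) = 1 := by
    rw [map_mul, hu, map_inv, map_mul, map_mul, map_mul, map_inv, map_inv, ha, hb, commutatorElement_def, mul_inv_cancel]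
  obtain ⟨z, hz⟩ := L.ker_sc _ h1
  have h2 : u = L.sc z * (a * b * a⁻¹ * b⁻¹) := by rw [← hz, inv_mul_cancel_right]
  rw [h2, key x hx a b ha hb z, key y hy a b ha hb z]

theorem notMem_commutator (M : Core) (c : M.H) (hp : (orderOf c).Prime) (S : Subgroup M.H)
    (hS : ∀ s ∈ S, ∀ x ∈ M.fx c, s • x = x) : c ∉ ⁅S, S⁆ := by
  intro hc
  have hc1 : c ≠ 1 := by
    rintro rfl
    rw [orderOf_one] at hp
    exact Nat.not_prime_one hp
  have hcard := M.card_fx c hc1
  obtain ⟨x, hx, y, hy, hxy⟩ := Finset.one_lt_card.1 (by rw [hcard]; norm_num : 1 < (M.fx c).card)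
  have h1 := chr_comm M.LE S x y (fun s hs => hS s hs x hx) (fun s hs => hS s hs y hy) hc
  have h2 := chr_comm M.LF S x y (fun s hs => hS s hs x hx) (fun s hs => hS s hs y hy) hc
  rcases exists_ne_wt M c hp x y hx hy hxy with h | h
  · obtain ⟨u, hu⟩ := M.LE.pr_surj c
    exact h u hu (h1.2.2 u hu)
  · obtain ⟨u, hu⟩ := M.LF.pr_surj c
    exact h u hu (h2.2.2 u hu)

end Pool.Agent.H51.FA
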