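import Pool.Agent.H51.FA.Klein2

/-!
# FA Cnt: groups partitioned by subgroups of index at most 2 in their normalizers

Let `𝒜` be the finite set of the subgroups `A h`, `h ≠ 1`.  The sets `S \ {1}`, `S ∈ 𝒜`, are disjoint with union `H \ {1}`, so
`N - 1 = ∑_{S ∈ 𝒜} (|S| - 1)`.  `H` acts on `𝒜` by conjugation (`hconj`), the stabilizer of `S` is its normalizer, of order `w |S|`, `w ∈ {1, 2}` (`hnorm`: any two
elements of the normalizer outside `S` differ by an element of `S`).  Group `𝒜` into classes: `N - 1 = ∑_classes (N / (w n)) (n - 1)`; divide by `N`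
and apply `klein`.
-/

set_option autoImplicit false

namespace Pool.Agent.H51.FA

open Finset in
private theorem cnt_fiber {H : Type} [Group H] [Fintype H] [DecidableEq H] (P N : Subgroup H)
    (hN : ∀ u, u ∈ N ↔ ∀ x, x ∈ P ↔ u * x * u⁻¹ ∈ P) (Q : H → Prop)
    (hQ1 : ∀ s a, a ∈ P → a ≠ 1 → Q (s * a * s⁻¹))
    (hQ2 : ∀ g, Q g → g ≠ 1 ∧ ∃ s0 : H, (s0⁻¹ * g * s0 ∈ P) ∧
      ∀ s a, a ∈ P → a ≠ 1 → s * a * s⁻¹ = g → ∀ x, x ∈ P ↔ (s0⁻¹ * s) * x * (s0⁻¹ * s)⁻¹ ∈ P)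
    [DecidablePred Q] [DecidablePred (· ∈ P)] :
    Fintype.card H * (Nat.card P - 1) = (univ.filter Q).card * Nat.card N := by
  classical
  set S : Finset H := (univ.filter (· ∈ P)).erase 1 with hS
  have hSc : S.card = Nat.card P - 1 := by
    rw [hS, card_erase_of_mem (by simp [P.one_mem])]
    congr 1
    rw [Nat.card_eq_fintype_card, Fintype.card_subtype]
  have hmS : ∀ a, a ∈ S ↔ a ≠ 1 ∧ a ∈ P := by
    intro a
    rw [hS, mem_erase, mem_filter]
    simp
  have h1 : ((univ : Finset H) ×ˢ S).card = Fintype.card H * (Nat.card P - 1) := by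
    rw [card_product, hSc, card_univ]
  rw [← h1]
  have hmaps : ∀ t ∈ (univ : Finset H) ×ˢ S, t.1 * t.2 * t.1⁻¹ ∈ univ.filter Q := by
    intro t ht
    rw [mem_product, hmS] at ht
    rw [mem_filter]
    exact ⟨mem_univ _, hQ1 t.1 t.2 ht.2.2 ht.2.1⟩
  rw [card_eq_sum_card_fiberwise hmaps, sum_const_nat (m := Nat.card N)]
  intro g hg
  rw [mem_filter] at hg
  obtain ⟨hg1, s0, hs0, hs⟩ := hQ2 g hg.2
  have hNc : Nat.card N = (univ.filter (· ∈ N)).card := by
    rw [Nat.card_eq_fintype_card, Fintype.card_subtype]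
  rw [hNc]
  refine card_bij' (fun t _ => s0⁻¹ * t.1) (fun u _ => (s0 * u, (s0 * u)⁻¹ * g * (s0 * u))) ?_ ?_ ?_ ?_
  · intro t ht
    rw [mem_filter, mem_product, hmS] at ht
    rw [mem_filter]
    exact ⟨mem_univ _, (hN _).2 (hs t.1 t.2 ht.1.2.2 ht.1.2.1 ht.2)⟩
  · intro u hu
    rw [mem_filter] at hu
    rw [mem_filter, mem_product, hmS]
    refine ⟨⟨mem_univ _, ?_, ?_⟩, ?_⟩
    · intro h2
      apply hg1
      have h3 : g = (s0 * u) * ((s0 * u)⁻¹ * g * (s0 * u)) * (s0 * u)⁻¹ := by group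
      change (s0 * u)⁻¹ * g * (s0 * u) = 1 at h2
      rw [h3, h2]
      group
    · have h2 := ((hN u).1 hu.2 ((s0 * u)⁻¹ * g * (s0 * u))).2
      apply h2
      have h3 : u * ((s0 * u)⁻¹ * g * (s0 * u)) * u⁻¹ = s0⁻¹ * g * s0 := by group
      rw [h3]
      exact hs0
    · change (s0 * u) * ((s0 * u)⁻¹ * g * (s0 * u)) * (s0 * u)⁻¹ = g
      group
  · intro t ht
    rw [mem_filter] at ht
    have h2 : s0 * (s0⁻¹ * t.1) = t.1 := by group
    change (s0 * (s0⁻¹ * t.1), (s0 * (s0⁻¹ * t.1))⁻¹ * g * (s0 * (s0⁻¹ * t.1))) = t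
    rw [h2]
    refine Prod.ext rfl ?_
    change t.1⁻¹ * g * t.1 = t.2
    rw [← ht.2]
    group
  · intro u _
    change s0⁻¹ * (s0 * u) = u
    group

private theorem cnt_index {H : Type} [Group H] [Finite H] (P N : Subgroup H) (hPN : P ≤ N)
    (h : ∀ s ∈ N, ∀ s' ∈ N, s ∉ P → s' ∉ P → s⁻¹ * s' ∈ P) :
    ∃ w : ℕ, (w = 1 ∨ w = 2) ∧ Nat.card N = w * Nat.card P := by
  have h1 : Nat.card N = Nat.card P * P.relIndex N := by
    rw [Subgroup.relIndex, ← Subgroup.card_mul_index (P.subgroupOf N)]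
    congr 1
    exact Nat.card_congr (Subgroup.subgroupOfEquivOfLe hPN).toEquiv
  by_cases hN : N ≤ P
  · refine ⟨1, Or.inl rfl, ?_⟩
    rw [h1, Subgroup.relIndex_eq_one.2 hN]
    ring
  · obtain ⟨s, hs, hsP⟩ := Set.not_subset.1 hN
    refine ⟨2, Or.inr rfl, ?_⟩
    have h2 : P.relIndex N = 2 := by
      rw [Subgroup.relIndex_eq_two_iff_exists_notMem_and']
      refine ⟨s⁻¹, N.inv_mem hs, fun h3 => hsP ?_, fun b hb => ?_⟩
      · have := P.inv_mem h3
        rwa [inv_inv] at this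
      · by_cases hbP : b ∈ P
        · exact Or.inr hbP
        · exact Or.inl (h s hs b hb hsP hbP)
    rw [h1, h2]
    ring

private def cnt_setoid {H : Type} [Group H] (A : H → Subgroup H) : Setoid {h : H // h ≠ 1} where
  r h g := ∃ s : H, ∀ x, x ∈ A g.1 ↔ s⁻¹ * x * s ∈ A h.1
  iseqv :=
    { refl := fun h => ⟨1, fun x => by simp⟩
      symm := by
        rintro h g ⟨s, hs⟩
        refine ⟨s⁻¹, fun x => ?_⟩
        have h1 := hs (s * x * s⁻¹)
        have h2 : s⁻¹ * (s * x * s⁻¹) * s = x := by group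
        rw [h2] at h1
        rw [inv_inv]
        exact h1.symm
      trans := by
        rintro h g k ⟨s, hs⟩ ⟨t, ht⟩
        refine ⟨t * s, fun x => ?_⟩
        rw [ht x, hs]
        have h2 : s⁻¹ * (t⁻¹ * x * t) * s = (t * s)⁻¹ * x * (t * s) := by group
        rw [h2] }

/-- The class equation. -/
theorem class_equation {H : Type} [Group H] [Finite H] (A : H → Subgroup H) (hself : ∀ h, h ≠ 1 → h ∈ A h)
    (hA : ∀ h g, h ≠ 1 → g ≠ 1 → g ∈ A h → A g = A h)
    (hconj : ∀ h s g, h ≠ 1 → (g ∈ A (s * h * s⁻¹) ↔ s⁻¹ * g * s ∈ A h))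
    (hnorm : ∀ h, h ≠ 1 → ∀ s ∈ Subgroup.normalizer (A h : Set H), ∀ s' ∈ Subgroup.normalizer (A h : Set H), s ∉ A h → s' ∉ A h →
      s⁻¹ * s' ∈ A h) :
    ∃ (I : Type) (_ : Fintype I) (a : I → {h : H // h ≠ 1}) (w : I → ℕ), (∀ i, 2 ≤ Nat.card (A (a i).1)) ∧
      (∀ i, w i = 1 ∨ w i = 2) ∧ (∀ i, w i * Nat.card (A (a i).1) ∣ Nat.card H) ∧
      ∑ i, (1 / (w i : ℚ)) * (1 - 1 / (Nat.card (A (a i).1) : ℚ)) = 1 - 1 / (Nat.card H : ℚ) := by
  classical
  haveI : Fintype H := Fintype.ofFinite H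
  have hNc : Nat.card H = Fintype.card H := Nat.card_eq_fintype_card
  letI st : Setoid {h : H // h ≠ 1} := cnt_setoid A
  haveI : Fintype (Quotient st) := Fintype.ofFinite _
  -- the normalizers
  have hw : ∀ i : Quotient st, ∃ w : ℕ, (w = 1 ∨ w = 2) ∧
      Nat.card (Subgroup.normalizer (A i.out.1 : Set H)) = w * Nat.card (A i.out.1) := fun i =>
    cnt_index _ _ Subgroup.le_normalizer fun s hs s' hs' hn hn' =>
      hnorm i.out.1 i.out.2 s hs s' hs' hn hn'
  choose w hw1 hw2 using hw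
  -- conjugation
  have hcj : ∀ h s a, h ≠ 1 → a ∈ A h → a ≠ 1 → ∀ x, x ∈ A (s * a * s⁻¹) ↔ s⁻¹ * x * s ∈ A h := by
    intro h s a hh ha ha1 x
    rw [hconj a s x ha1, hA h a hh ha1 ha]
  have hne : ∀ s a : H, a ≠ 1 → s * a * s⁻¹ ≠ 1 := by
    intro s a ha h1
    apply ha
    have h2 : a = s⁻¹ * (s * a * s⁻¹) * s := by group
    rw [h2, h1]
    group
  -- the count of a class
  have hcnt : ∀ i : Quotient st, Fintype.card H * (Nat.card (A i.out.1) - 1) =
      (Finset.univ.filter fun g : {h : H // h ≠ 1} => (⟦g⟧ : Quotient st) = i).card *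
        (w i * Nat.card (A i.out.1)) := by
    intro i
    rw [← hw2]
    have h1 := cnt_fiber (A i.out.1) (Subgroup.normalizer (A i.out.1 : Set H))
      (fun u => Subgroup.mem_normalizer_iff)
      (fun g => ∃ hg : g ≠ 1, (⟦⟨g, hg⟩⟧ : Quotient st) = i)
      (fun s a ha ha1 => by
        refine ⟨hne s a ha1, ?_⟩
        rw [← Quotient.out_eq i]
        refine Quotient.sound (Setoid.symm ?_)
        exact ⟨s, fun x => hcj i.out.1 s a i.out.2 ha ha1 x⟩)
      (fun g hg => by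
        obtain ⟨hg1, hgi⟩ := hg
        refine ⟨hg1, ?_⟩
        rw [← Quotient.out_eq i] at hgi
        obtain ⟨s0, hs0⟩ := Setoid.symm (Quotient.exact hgi)
        refine ⟨s0, (hs0 g).1 (hself g hg1), fun s a ha ha1 hsa x => ?_⟩
        have h2 := hcj i.out.1 s a i.out.2 ha ha1 (s * x * s⁻¹)
        rw [hsa, hs0] at h2
        have e1 : s⁻¹ * (s * x * s⁻¹) * s = x := by group
        have e2 : s0⁻¹ * (s * x * s⁻¹) * s0 = (s0⁻¹ * s) * x * (s0⁻¹ * s)⁻¹ := by group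
        rw [e1, e2] at h2
        exact h2.symm)
    rw [h1]
    congr 1
    refine Finset.card_bij' (fun g hg => ⟨g, (Finset.mem_filter.1 hg).2.1⟩) (fun g _ => g.1) ?_ ?_ ?_ ?_
    · intro g hg
      rw [Finset.mem_filter]
      exact ⟨Finset.mem_univ _, (Finset.mem_filter.1 hg).2.2⟩
    · intro g hg
      rw [Finset.mem_filter]
      exact ⟨Finset.mem_univ _, g.2, (Finset.mem_filter.1 hg).2⟩
    · intro g hg
      rfl
    · intro g hg
      rfl
  have htot : ∑ i : Quotient st, (Finset.univ.filter fun g : {h : H // h ≠ 1} =>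
      (⟦g⟧ : Quotient st) = i).card = Fintype.card H - 1 := by
    rw [← Finset.card_eq_sum_card_fiberwise (fun x _ => Finset.mem_coe.2 (Finset.mem_univ _)), Finset.card_univ]
    have h1 : Fintype.card {h : H // h ≠ 1} = Fintype.card H - Fintype.card {h : H // h = 1} :=
      Fintype.card_subtype_compl _
    rw [h1, Fintype.card_subtype_eq]
  refine ⟨Quotient st, inferInstance, fun i => i.out, w, fun i => ?_, hw1, fun i => ?_, ?_⟩
  · have h1 : A i.out.1 ≠ ⊥ := by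
      intro h2
      have h3 := hself i.out.1 i.out.2
      rw [h2, Subgroup.mem_bot] at h3
      exact i.out.2 h3
    exact (A i.out.1).one_lt_card_iff_ne_bot.2 h1
  · show w i * Nat.card (A i.out.1) ∣ Nat.card H
    rw [← hw2]
    exact Subgroup.card_subgroup_dvd_card _
  · have hNq : (0 : ℚ) < (Fintype.card H : ℚ) := by
      exact_mod_cast Fintype.card_pos
    have hterm : ∀ i : Quotient st, (1 / (w i : ℚ)) * (1 - 1 / (Nat.card (A i.out.1) : ℚ)) =
        ((Finset.univ.filter fun g : {h : H // h ≠ 1} => (⟦g⟧ : Quotient st) = i).card : ℚ) /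
          (Fintype.card H : ℚ) := by
      intro i
      have h1 := hcnt i
      have hn1 : 1 ≤ Nat.card (A i.out.1) := Nat.card_pos
      have hwp : 0 < w i := by
        rcases hw1 i with h2 | h2 <;> omega
      have h2 : (Fintype.card H : ℚ) * ((Nat.card (A i.out.1) : ℚ) - 1) =
          ((Finset.univ.filter fun g : {h : H // h ≠ 1} => (⟦g⟧ : Quotient st) = i).card : ℚ) *
            ((w i : ℚ) * (Nat.card (A i.out.1) : ℚ)) := by
        have h3 := congrArg (fun k : ℕ => (k : ℚ)) h1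
        simp only [Nat.cast_mul, Nat.cast_sub hn1, Nat.cast_one] at h3
        exact h3
      have hwq : (w i : ℚ) ≠ 0 := by exact_mod_cast hwp.ne'
      have hnq : (Nat.card (A i.out.1) : ℚ) ≠ 0 := by exact_mod_cast (by omega : Nat.card (A i.out.1) ≠ 0)
      rw [eq_div_iff hNq.ne']
      field_simp
      linear_combination h2
    rw [Finset.sum_congr rfl (fun i _ => hterm i), ← Finset.sum_div, ← Nat.cast_sum, htot, hNc,
      Nat.cast_sub Fintype.card_pos]
    field_simp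
    push_cast
    ring


theorem card_le_sixty {H : Type} [Group H] [Finite H] (A : H → Subgroup H) (hself : ∀ h, h ≠ 1 → h ∈ A h)
    (hA : ∀ h g, h ≠ 1 → g ≠ 1 → g ∈ A h → A g = A h)
    (hconj : ∀ h s g, h ≠ 1 → (g ∈ A (s * h * s⁻¹) ↔ s⁻¹ * g * s ∈ A h))
    (hnorm : ∀ h, h ≠ 1 → ∀ s ∈ Subgroup.normalizer (A h : Set H), ∀ s' ∈ Subgroup.normalizer (A h : Set H), s ∉ A h → s' ∉ A h →
      s⁻¹ * s' ∈ A h)
    (hcard : ∀ h, h ≠ 1 → Nat.card (A h) ≤ 30) : Nat.card H ≤ 60 := by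
  by_cases hN1 : Nat.card H < 2
  · omega
  obtain ⟨I, _, a, w, h1, h2, h3, h4⟩ := class_equation A hself hA hconj hnorm
  exact klein (fun i => Nat.card (A (a i).1)) w (Nat.card H) (by omega) h1 (fun i => hcard _ (a i).2) h2 h3 h4

theorem card_list {H : Type} [Group H] [Finite H] (A : H → Subgroup H) (hself : ∀ h, h ≠ 1 → h ∈ A h)
    (hA : ∀ h g, h ≠ 1 → g ≠ 1 → g ∈ A h → A g = A h)
    (hconj : ∀ h s g, h ≠ 1 → (g ∈ A (s * h * s⁻¹) ↔ s⁻¹ * g * s ∈ A h))
    (hnorm : ∀ h, h ≠ 1 → ∀ s ∈ Subgroup.normalizer (A h : Set H), ∀ s' ∈ Subgroup.normalizer (A h : Set H), s ∉ A h → s' ∉ A h →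
      s⁻¹ * s' ∈ A h)
    (h2 : 2 ≤ Nat.card H) :
    (∃ h, h ≠ 1 ∧ (Nat.card H = Nat.card (A h) ∨ Nat.card H = 2 * Nat.card (A h))) ∨ Nat.card H = 12 ∨
      Nat.card H = 24 ∨ Nat.card H = 60 := by
  obtain ⟨I, _, a, w, h3, h4, h5, h6⟩ := class_equation A hself hA hconj hnorm
  rcases klein_list (fun i => Nat.card (A (a i).1)) w (Nat.card H) h2 h3 h4 h5 h6 with ⟨i, hi⟩ | h7
  · exact Or.inl ⟨_, (a i).2, hi⟩
  · exact Or.inr h7

end Pool.Agent.H51.FA
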