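import Pool.Agent.H51.FA.Defs

/-!
# FA CoreDef: the data used in the group theory
-/

set_option autoImplicit false

namespace Pool.Agent.H51.FA

/-- The part of the data which is used in the group theory: a finite group `H` acting on `X`, trivially on `H²(X)`. -/
structure Core where
  X : Type
  H : Type
  [grp : Group H]
  [fin : Finite H]
  [act : MulAction H X]
  /-- the fixed points of `h ≠ 1` -/
  fx : H → Finset X
  mem_fx : ∀ h, h ≠ 1 → ∀ x, x ∈ fx h ↔ h • x = x
  card_fx : ∀ h, h ≠ 1 → (fx h).card = 4
  /-- lifts to `E` -/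
  LE : LiftGroup H X
  /-- lifts to `F` -/
  LF : LiftGroup H X
  loc : ∀ h, (orderOf h).Prime → Localised LE LF fx h (orderOf h)
  /-- the representation of the stabilizer on the tangent plane -/
  tan : ∀ x : X, MulAction.stabilizer H x →* GL (Fin 2) ℂ
  tan_one : ∀ (x : X) (g : MulAction.stabilizer H x), g ≠ 1 → ∀ v : Fin 2 → ℂ, (tan x g).val.mulVec v = v → v = 0

attribute [instance] Core.grp Core.fin Core.act

end Pool.Agent.H51.FA
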