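import Pool.Agent.H51.FA.Defs

/-!
# FA Cur: the classes of curves are non-negative and there are no rational curves

`nonneg`: class `(r, s)`, `r + s ≥ 0` (`nef`), `(r+1)(s+1) = genus + delta ≥ 0` (`adjunction`).  If `r < 0` then `s ≥ -r > 0`, so `r = -1` and `genus = delta = 0`,
`C² = -2s`: `miyaoka84` with `m = 2s ≥ 2`: `(m-1)² ≤ 0`: contradiction.
`genus_pos`: `genus = 0`, `C² = 2rs ≥ 0`; in `miyaoka08` put `t = (2(r+s)+3)/(rs+3(r+s)+3) ∈ [0,1]`: `A t² - B t + 4 ≥ 0` with `A = rs+3(r+s)+3`, `B = 4(r+s)+6`,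
`t = B/2A`, so `B² ≤ 16 A`, i.e. `4(r²+rs+s²) ≤ 3`, `r = s = 0`, excluded by `cls_ne`.
-/

set_option autoImplicit false

namespace Pool.Agent.H51.FA

/-- the numerical form of `nef` and `adjunction` -/
theorem cur_num (S : Surface) (c : S.C) :
    0 ≤ (S.cls c).1 + (S.cls c).2 ∧ ((S.cls c).1 + 1) * ((S.cls c).2 + 1) = (S.genus c + S.delta c : ℤ) := by
  have h1 := S.nef c
  have h2 := S.adjunction c
  simp only [ip, KX] at h1 h2
  constructor
  · linarith
  · nlinarith

theorem nonneg (S : Surface) (c : S.C) : 0 ≤ (S.cls c).1 ∧ 0 ≤ (S.cls c).2 := by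
  obtain ⟨h1, h2⟩ := cur_num S c
  have hm := S.miyaoka84 c
  have hg : (0 : ℤ) ≤ (S.genus c + S.delta c : ℤ) := by positivity
  simp only [ip] at hm
  generalize (S.cls c).1 = r at *
  generalize (S.cls c).2 = s at *
  constructor
  · by_contra hr
    push Not at hr
    have hs : 1 ≤ s := by linarith
    have hr1 : r = -1 := by nlinarith
    subst hr1
    have h0 : (S.genus c + S.delta c : ℤ) = 0 := by linarith
    have := hm (2 * s) (by omega) (by omega) (by ring) (by linarith)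
    nlinarith
  · by_contra hs
    push Not at hs
    have hr : 1 ≤ r := by linarith
    have hs1 : s = -1 := by nlinarith
    subst hs1
    have h0 : (S.genus c + S.delta c : ℤ) = 0 := by linarith
    have := hm (2 * r) (by omega) (by omega) (by ring) (by linarith)
    nlinarith

theorem genus_pos (S : Surface) (c : S.C) : 1 ≤ S.genus c := by
  by_contra hg
  have hg0 : S.genus c = 0 := by omega
  obtain ⟨hr, hs⟩ := nonneg S c
  have hne := S.cls_ne c
  have hm := S.miyaoka08 c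
  rw [hg0] at hm
  simp only [Miyaoka, ip, KX] at hm
  have hne' : ¬ ((S.cls c).1 = 0 ∧ (S.cls c).2 = 0) := fun h => hne (Prod.ext h.1 h.2)
  have hd : S.delta c ≠ 0 := by
    intro h0
    have h1 := (cur_num S c).2
    rw [hg0, h0] at h1
    push_cast at h1
    nlinarith
  generalize (S.cls c).1 = r at *
  generalize (S.cls c).2 = s at *
  have hrs : 0 ≤ r * s := mul_nonneg hr hs
  have hrQ : (0 : ℚ) ≤ (r : ℚ) := by exact_mod_cast hr
  have hsQ : (0 : ℚ) ≤ (s : ℚ) := by exact_mod_cast hs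
  have hrsQ : (0 : ℚ) ≤ (r : ℚ) * s := mul_nonneg hrQ hsQ
  have hA : (0 : ℚ) < (r : ℚ) * s + 3 * (r + s) + 3 := by positivity
  have h := hm (by linarith) (fun _ => hd) ((2 * ((r : ℚ) + s) + 3) / ((r : ℚ) * s + 3 * (r + s) + 3)) (by positivity)
    (by rw [div_le_one hA]; linarith)
  push_cast at h
  set A : ℚ := (r : ℚ) * s + 3 * (r + s) + 3 with hAdef
  set σ : ℚ := 2 * ((r : ℚ) + s) + 3 with hσ
  have e : (σ / A) ^ 2 / 2 * ((r : ℚ) * s + s * r + 3 * (2 * s + 2 * r) + 6 - 6 * 0) -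
      2 * (σ / A) * (2 * s + 2 * r + 3 - 3 * 0) + (3 * 4 - 8) = 4 - σ ^ 2 / A := by
    have e1 : ((r : ℚ) * s + s * r + 3 * (2 * s + 2 * r) + 6 - 6 * 0) = 2 * A := by rw [hAdef]; ring
    have e2 : (2 * (s : ℚ) + 2 * r + 3 - 3 * 0) = σ := by rw [hσ]; ring
    rw [e1, e2]
    field_simp
    ring
  have h4 : 0 ≤ 4 - σ ^ 2 / A := by
    rw [← e]
    convert h using 3
  have h5 : σ ^ 2 ≤ 4 * A := by
    have := (div_le_iff₀ hA).mp (by linarith : σ ^ 2 / A ≤ 4)
    linarith
  have h6 : (4 : ℚ) * (r ^ 2 + r * s + s ^ 2) ≤ 3 := by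
    rw [hσ, hAdef] at h5
    nlinarith
  have h7 : 4 * (r ^ 2 + r * s + s ^ 2) ≤ 3 := by exact_mod_cast h6
  apply hne'
  constructor
  · by_contra h0
    have : 1 ≤ r := by omega
    nlinarith [sq_nonneg s]
  · by_contra h0
    have : 1 ≤ s := by omega
    nlinarith [sq_nonneg r]

end Pool.Agent.H51.FA
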