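import Mathlib

/-!
# PROJECT FA (MP_0ddc02_gt, automorphisms of complex surfaces homeomorphic to S² × S²): definitions

`X` is a compact complex surface homeomorphic to `S² × S²` which is not a Hirzebruch surface.  It is minimal of general type, `p_g = q = 0`,
`K² = 8`, `c₂ = 4`, and `Pic X = H²(X, ℤ) = ℤE ⊕ ℤF` with `E² = F² = 0`, `E·F = 1`, `K = 2E + 2F`.  `(r, s)` stands for `rE + sF`.
-/

set_option autoImplicit false

namespace Pool.Agent.H51.FA

/-- the classes `rE + sF` in `Pic X = H²(X, ℤ)` -/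
abbrev Cl := ℤ × ℤ

/-- the intersection number: `E² = F² = 0`, `E·F = 1` -/
def ip (a b : Cl) : ℤ := a.1 * b.2 + a.2 * b.1

/-- the canonical class `K = 2E + 2F` -/
def KX : Cl := (2, 2)

/-- The group `T` of automorphisms of a line bundle `L` on `X` which cover elements of a group `Γ` of automorphisms of `X`: it is an extension
of `Γ` by the scalars, and for a point `x` fixed by `pr u` the automorphism `u` acts on the line `L_x` as multiplication by `wt u x`. -/
structure LiftGroup (Γ X : Type) [Group Γ] [MulAction Γ X] where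
  T : Type
  [grp : Group T]
  /-- the automorphism of `X` covered by an automorphism of `L` -/
  pr : T →* Γ
  pr_surj : Function.Surjective pr
  /-- the scalars -/
  sc : ℂˣ →* T
  pr_sc : ∀ z, pr (sc z) = 1
  ker_sc : ∀ u, pr u = 1 → ∃ z, u = sc z
  sc_comm : ∀ z u, sc z * u = u * sc z
  /-- the eigenvalue on the line over a fixed point -/
  wt : T → X → ℂˣ
  wt_sc : ∀ z x, wt (sc z) x = z
  wt_mul : ∀ u v x, pr u • x = x → pr v • x = x → wt (u * v) x = wt u x * wt v x
  wt_conj : ∀ u v x, pr v • x = x → wt (u * v * u⁻¹) (pr u • x) = wt v x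

attribute [instance] LiftGroup.grp

/-- Localisation in equivariant cohomology with coefficients `ℤ/p` for an automorphism `h` of prime order `p` with isolated fixed points:
at `x` its weights on the tangent plane are `a x, b x`, on the lines over `x` of (suitable lifts to) `E`, `F` they are `e x, f x`; the sums over
the fixed points of `1/ab, e/ab, f/ab, e²/ab, f²/ab, ef/ab` are the integrals `0, 0, 0, E² = 0, F² = 0, E·F = 1`. -/
def Localised {Γ X : Type} [Group Γ] [MulAction Γ X] (LE LF : LiftGroup Γ X) (fx : Γ → Finset X) (h : Γ) (p : ℕ) : Prop :=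
  ∃ (ζ : ℂˣ) (u : LE.T) (v : LF.T) (a b e f : X → ZMod p), IsPrimitiveRoot ζ p ∧ LE.pr u = h ∧ LF.pr v = h ∧
    (∀ x ∈ fx h, a x ≠ 0 ∧ b x ≠ 0 ∧ LE.wt u x = ζ ^ (e x).val ∧ LF.wt v x = ζ ^ (f x).val) ∧
    ∑ x ∈ fx h, (a x * b x)⁻¹ = 0 ∧
    ∑ x ∈ fx h, e x * (a x * b x)⁻¹ = 0 ∧ ∑ x ∈ fx h, f x * (a x * b x)⁻¹ = 0 ∧
    ∑ x ∈ fx h, e x ^ 2 * (a x * b x)⁻¹ = 0 ∧ ∑ x ∈ fx h, f x ^ 2 * (a x * b x)⁻¹ = 0 ∧
    ∑ x ∈ fx h, e x * f x * (a x * b x)⁻¹ = 1

/-- The inequality of Miyaoka 2008 (Theorem 1.3 of the paper on the orbibundle Miyaoka–Yau–Sakai inequality, Publ. RIMS 44) for a curve of the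
class `c` and the geometric genus `g`: `0 ≤ t²/2 (C² + 3 K·C + 6 - 6g) - 2t (K·C + 3 - 3g) + 3c₂ - K²` for `0 ≤ t ≤ 1`. -/
def Miyaoka (c : Cl) (g : ℕ) : Prop := ∀ t : ℚ, 0 ≤ t → t ≤ 1 →
  0 ≤ t ^ 2 / 2 * (ip c c + 3 * ip KX c + 6 - 6 * g) - 2 * t * (ip KX c + 3 - 3 * g) + (3 * 4 - 8)

/-- The irreducible curves on `X`. -/
structure Curves where
  C : Type
  /-- the class of a curve -/
  cls : C → Cl
  cls_ne : ∀ c, cls c ≠ 0
  /-- the geometric genus -/
  genus : C → ℕ
  /-- the sum of the `δ`-invariants of the singular points -/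
  delta : C → ℕ
  adjunction : ∀ c, ip (cls c) (cls c) + ip KX (cls c) = 2 * (genus c + delta c : ℤ) - 2
  /-- `K` is nef (`X` is minimal of general type) -/
  nef : ∀ c, 0 ≤ ip KX (cls c)
  /-- Miyaoka 1984 (the orbifold Bogomolov–Miyaoka–Yau inequality) for a smooth rational curve with `C² = -m`:
  `K² + (m-2)²/m ≤ 3 (c₂ - 2 + 1/m)`, multiplied by `m` -/
  miyaoka84 : ∀ c (m : ℤ), genus c = 0 → delta c = 0 → ip (cls c) (cls c) = -m → 2 ≤ m →
    8 * m + (m - 2) ^ 2 ≤ 3 * (2 * m + 1)
  /-- Miyaoka 2008, for a curve with `C² ≥ 0` which is not a smooth rational curve -/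
  miyaoka08 : ∀ c, 0 ≤ ip (cls c) (cls c) → (genus c = 0 → delta c ≠ 0) → Miyaoka (cls c) (genus c)

/-- The finite group `G` of automorphisms of `X` and its action on the points, the curves and the classes. -/
structure Acted extends Curves where
  /-- the points of `X` -/
  X : Type
  /-- the group of automorphisms of `X`, finite since `X` is of general type -/
  G : Type
  [grp : Group G]
  [fin : Finite G]
  [actX : MulAction G X]
  [actC : MulAction G C]
  /-- the action on `H²(X)` -/
  rho : G →* Equiv.Perm Cl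
  rho_add : ∀ g a b, rho g (a + b) = rho g a + rho g b
  rho_ip : ∀ g a b, ip (rho g a) (rho g b) = ip a b
  rho_KX : ∀ g, rho g KX = KX
  cls_smul : ∀ (g : G) c, cls (g • c) = rho g (cls c)
  /-- the isolated fixed points of `g ≠ 1` -/
  isoFix : G → Finset X
  /-- the curves of fixed points of `g ≠ 1` -/
  fixCurve : G → Finset C
  isoFix_mem : ∀ g, g ≠ 1 → ∀ x ∈ isoFix g, g • x = x
  /-- a fixed point is isolated or lies on a curve of fixed points -/
  mem_isoFix : ∀ g, g ≠ 1 → fixCurve g = ∅ → ∀ x, g • x = x → x ∈ isoFix g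
  fixCurve_pow : ∀ (g : G) (k : ℕ), g ^ k ≠ 1 → fixCurve g ⊆ fixCurve (g ^ k)
  /-- Lefschetz for the topological Euler number, `g` trivial on `H²` -/
  lefschetz : ∀ g, g ≠ 1 → rho g = 1 → ((isoFix g).card : ℤ) + ∑ c ∈ fixCurve g, (2 - 2 * (genus c : ℤ)) = 4
  /-- Smith: the sum of the Betti numbers (coefficients `ℤ/p`) of the fixed locus is at most that of `X` -/
  smith : ∀ g, (orderOf g).Prime → ((isoFix g).card : ℤ) + ∑ c ∈ fixCurve g, (2 + 2 * (genus c : ℤ)) ≤ 4

attribute [instance] Acted.grp Acted.fin Acted.actX Acted.actC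

/-- the group of the automorphisms which act trivially on `H²(X)` -/
def Acted.H (S : Acted) : Type := S.rho.ker

instance (S : Acted) : Group S.H := Subgroup.toGroup S.rho.ker

instance (S : Acted) : MulAction S.H S.X := Subgroup.instMulAction (S := S.rho.ker)

/-- the inclusion of `H` in `G` -/
def Acted.incl (S : Acted) : S.H →* S.G := S.rho.ker.subtype

/-- the lifts of `H` to a line bundle -/
abbrev Acted.Lifts (S : Acted) : Type 1 := LiftGroup S.H S.X

/-- localisation for the elements of prime order of `H` without curves of fixed points -/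
def Acted.Loc (S : Acted) (LE LF : S.Lifts) : Prop := ∀ h : S.H, (orderOf h).Prime → S.fixCurve (S.incl h) = ∅ →
  Localised LE LF (fun u => S.isoFix (S.incl u)) h (orderOf h)

/-- The action of `⟨h⟩` on the normalisation of an `h`-invariant curve of geometric genus `g`, with sum of the `δ`-invariants `δ` and class `c`:
`B` is the finite set of points with a non-trivial stabilizer, `π b` the image of `b` in `X`, `g₀` the genus of the quotient; the
Riemann–Hurwitz formula, `δ ≥` the number of pairs of branches through the same point, and if the action is free then the degrees of `E`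
and `F` on the curve are divisible by the order of `h`. -/
def Ramified (X : Type) {G : Type} [Group G] [MulAction G X] (h : G) (g δ : ℕ) (c : Cl) : Prop :=
  ∃ (B : Type) (_ : Fintype B) (_ : MulAction (Subgroup.zpowers h) B) (π : B → X) (g₀ : ℕ),
    (∀ (u : Subgroup.zpowers h) b, π (u • b) = (u : G) • π b) ∧
    (∀ b : B, MulAction.stabilizer (Subgroup.zpowers h) b ≠ ⊥) ∧
    2 * (g : ℤ) - 2 = orderOf h * (2 * (g₀ : ℤ) - 2) +
      ∑ b : B, ((Nat.card (MulAction.stabilizer (Subgroup.zpowers h) b) : ℤ) - 1) ∧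
    Nat.card {b : B × B // b.1 ≠ b.2 ∧ π b.1 = π b.2} ≤ 2 * δ ∧
    (IsEmpty B → (orderOf h : ℤ) ∣ c.1 ∧ (orderOf h : ℤ) ∣ c.2)

/-- The linear map `A` fixes a vector `v ≠ 0`. -/
def HasFixedVector (A : GL (Fin 2) ℂ) : Prop := ∃ v : Fin 2 → ℂ, A.val.mulVec v = v ∧ v ≠ 0

/-- The surface `X`, its curves and the group `G` of its automorphisms. -/
structure Surface extends Acted where
  /-- lifts to `E` -/
  LE : toActed.Lifts
  /-- lifts to `F` -/
  LF : toActed.Lifts
  loc : toActed.Loc LE LF
  /-- the representation of the stabilizer on the tangent plane -/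
  tan : ∀ x : X, MulAction.stabilizer G x →* GL (Fin 2) ℂ
  /-- if the differential at a fixed point has the eigenvalue 1, there is a curve of fixed points -/
  tan_one : ∀ (x : X) (g : MulAction.stabilizer G x), g ≠ 1 → HasFixedVector (tan x g) → (fixCurve (g : G)).Nonempty
  /-- Riemann–Roch: `h⁰(2E + 3F) ≥ 2`, and an automorphism `h` trivial on `H²` lifts to the line bundle `2E + 3F`, so it has an eigensection:
  an `h`-invariant effective divisor `D` in `|2E + 3F|` -/
  divisor : ∀ h : G, rho h = 1 → ∃ D : C →₀ ℕ, (∀ c, D (h • c) = D c) ∧ D.sum (fun c m => m • cls c) = ((2, 3) : Cl)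
  /-- Riemann–Hurwitz for `h` on an `h`-invariant curve no power of `h` different from 1 fixes pointwise -/
  ram : ∀ (h : G) (c : C), rho h = 1 → h • c = c → (∀ k : ℕ, h ^ k ≠ 1 → c ∉ fixCurve (h ^ k)) →
    Ramified X h (genus c) (delta c) (cls c)

end Pool.Agent.H51.FA
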