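import Pool.Agent.H51.FA.Defs

/-!
# FA Diag: a finite commutative group acting on `ℂ²` without eigenvalue 1 is cyclic

There is a common eigenvector `v ≠ 0`: if all `ρ g` are scalar take any `v`; otherwise take `g₀` with `ρ g₀` not scalar and an eigenvalue `λ`;
its eigenspace is a line (`ρ g₀ ≠ λ`), preserved by all `ρ g` (they commute with `ρ g₀`).  `ρ g v = χ g v` defines a homomorphism
`χ : S → ℂˣ`, injective by `h1`, so `S` is cyclic (`isCyclic_of_subgroup_isDomain` or `IsCyclic` of a finite subgroup of the units of a field,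
`isCyclic_of_injective_ringHom`).  helper67's `/team-store/h67_sq.tgz`, file Free.lean, contains most of this.
-/

set_option autoImplicit false

namespace Pool.Agent.H51.FA

open Matrix in
private lemma eig_line {N : Matrix (Fin 2) (Fin 2) ℂ} (hN : N ≠ 0) {v w : Fin 2 → ℂ} (hv : v ≠ 0)
    (h1 : N *ᵥ v = 0) (h2 : N *ᵥ w = 0) : ∃ μ : ℂ, w = μ • v := by
  have hdet : v 0 * w 1 - v 1 * w 0 = 0 := by
    by_contra hne
    apply hN
    have a0 := congrFun h1 0
    have a1 := congrFun h1 1
    have b0 := congrFun h2 0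
    have b1 := congrFun h2 1
    simp only [Matrix.mulVec, dotProduct, Fin.sum_univ_two, Pi.zero_apply] at a0 a1 b0 b1
    have e00 : N 0 0 * (v 0 * w 1 - v 1 * w 0) = 0 := by linear_combination w 1 * a0 - v 1 * b0
    have e01 : N 0 1 * (v 0 * w 1 - v 1 * w 0) = 0 := by linear_combination v 0 * b0 - w 0 * a0
    have e10 : N 1 0 * (v 0 * w 1 - v 1 * w 0) = 0 := by linear_combination w 1 * a1 - v 1 * b1
    have e11 : N 1 1 * (v 0 * w 1 - v 1 * w 0) = 0 := by linear_combination v 0 * b1 - w 0 * a1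
    ext i j
    fin_cases i <;> fin_cases j
    · exact (mul_eq_zero.mp e00).resolve_right hne
    · exact (mul_eq_zero.mp e01).resolve_right hne
    · exact (mul_eq_zero.mp e10).resolve_right hne
    · exact (mul_eq_zero.mp e11).resolve_right hne
  by_cases h0 : v 0 = 0
  · have hv1 : v 1 ≠ 0 := by
      intro h
      apply hv
      ext i
      fin_cases i
      · exact h0
      · exact h
    have hw0 : w 0 = 0 := by
      rw [h0, zero_mul, zero_sub, neg_eq_zero] at hdet
      exact (mul_eq_zero.mp hdet).resolve_left hv1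
    refine ⟨w 1 / v 1, ?_⟩
    ext i
    fin_cases i
    · simp [hw0, h0]
    · simp [div_mul_cancel₀ _ hv1]
  · refine ⟨w 0 / v 0, ?_⟩
    ext i
    fin_cases i
    · simp [div_mul_cancel₀ _ h0]
    · simp only [Fin.mk_one, Fin.isValue, Pi.smul_apply, smul_eq_mul]
      rw [div_mul_eq_mul_div, eq_div_iff h0]
      linear_combination hdet

open Matrix in
private lemma exists_eigenvector (A : Matrix (Fin 2) (Fin 2) ℂ) :
    ∃ (c : ℂ) (v : Fin 2 → ℂ), v ≠ 0 ∧ A *ᵥ v = c • v := by
  obtain ⟨s, hs⟩ := IsAlgClosed.exists_pow_nat_eq (A.trace ^ 2 - 4 * A.det) (n := 2) (by norm_num)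
  have hc : ((A.trace + s) / 2) ^ 2 - A.trace * ((A.trace + s) / 2) + A.det = 0 := by
    linear_combination (1 / 4 : ℂ) * hs
  set c := (A.trace + s) / 2
  have h1 : (c • (1 : Matrix (Fin 2) (Fin 2) ℂ) - A).det = 0 := by
    rw [← hc, Matrix.det_fin_two, Matrix.det_fin_two, Matrix.trace_fin_two]
    simp
    ring
  obtain ⟨v, hv0, hv⟩ := Matrix.exists_mulVec_eq_zero_iff.mpr h1
  rw [Matrix.sub_mulVec, Matrix.smul_mulVec, Matrix.one_mulVec, sub_eq_zero] at hv
  exact ⟨c, v, hv0, hv.symm⟩

theorem isCyclic_of_comm {S : Type} [Group S] [Finite S] (hcomm : ∀ a b : S, a * b = b * a) (ρ : S →* GL (Fin 2) ℂ)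
    (h1 : ∀ g : S, g ≠ 1 → ∀ v : Fin 2 → ℂ, (ρ g).val.mulVec v = v → v = 0) : IsCyclic S := by
  classical
  have hev : ∃ v : Fin 2 → ℂ, v ≠ 0 ∧ ∀ y, ∃ μ : ℂ, (ρ y).val.mulVec v = μ • v := by
    by_cases hs : ∃ a : S, ∀ c : ℂ, (ρ a).val ≠ c • (1 : Matrix (Fin 2) (Fin 2) ℂ)
    · obtain ⟨a, ha⟩ := hs
      obtain ⟨c, v, hv, hc⟩ := exists_eigenvector (ρ a).val
      refine ⟨v, hv, fun y => ?_⟩
      have hN : (ρ a).val - c • (1 : Matrix (Fin 2) (Fin 2) ℂ) ≠ 0 := fun h => ha c (sub_eq_zero.mp h)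
      have hay : (ρ a).val * (ρ y).val = (ρ y).val * (ρ a).val := by
        have := congrArg (fun x => (ρ x).val) (hcomm a y)
        simpa [map_mul] using this
      refine eig_line hN hv ?_ ?_
      · rw [Matrix.sub_mulVec, hc, Matrix.smul_mulVec, Matrix.one_mulVec, sub_self]
      · rw [Matrix.sub_mulVec, Matrix.smul_mulVec, Matrix.one_mulVec, Matrix.mulVec_mulVec,
          hay, ← Matrix.mulVec_mulVec, hc, Matrix.mulVec_smul, sub_self]
    · push Not at hs
      refine ⟨![1, 0], ?_, fun y => ?_⟩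
      · intro h
        have := congrFun h 0
        simp at this
      · obtain ⟨c, hc⟩ := hs y
        exact ⟨c, by rw [hc, Matrix.smul_mulVec, Matrix.one_mulVec]⟩
  obtain ⟨v, hv, h⟩ := hev
  choose μ hμ using h
  have huniq : ∀ a b : ℂ, a • v = b • v → a = b := by
    intro a b hab
    have h1 : (a - b) • v = 0 := by rw [sub_smul, hab, sub_self]
    rcases smul_eq_zero.mp h1 with h | h
    · exact sub_eq_zero.mp h
    · exact absurd h hv
  let χ : S →* ℂ :=
    { toFun := μ
      map_one' := by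
        apply huniq
        rw [← hμ 1, map_one, Units.val_one, Matrix.one_mulVec, one_smul]
      map_mul' := by
        intro x y
        apply huniq
        rw [← hμ, map_mul, Units.val_mul, ← Matrix.mulVec_mulVec, hμ y, Matrix.mulVec_smul, hμ x, smul_smul,
          mul_comm] }
  refine isCyclic_of_injective_ringHom χ ((injective_iff_map_eq_one χ).mpr fun y hy => ?_)
  by_contra hne
  refine hv (h1 y hne v ?_)
  have hy' : μ y = 1 := hy
  rw [hμ y, hy', one_smul]

end Pool.Agent.H51.FA
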