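import Pool.Agent.H51.FA.Defs

/-!
# FA Ex: the structure is not empty, with a non-trivial group

`G = ℤˣ`, `X = ZMod 2 × ZMod 2` (four points, all fixed), one curve of class `(2, 3)`, genus 12, `δ = 0`, fixed;
`rho = 1`; `isoFix g = univ`, `fixCurve g = ∅`; `LE.T = ℂˣ × G`, `pr = snd`, `sc z = (z, 1)`, `wt (z, g) x = z * g^(x.1)`; the same with `x.2` for
`LF`; localisation modulo 2: `a = b = 1`, `e x = x.1`, `f x = x.2`, `ζ = -1`; `tan x g = ±1`.  `miyaoka08`: `-12 t² + 46 t + 4 ≥ 0`.  `divisor`: `D = 1 · c`.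
`ram` for `h ≠ 1`: `B` = two points with trivial action (`π` injective), `g₀ = 6`: `22 = 2 · 10 + 2 · (2 - 1)`; for `h = 1`: `B` empty, `g₀ = 12`, `orderOf 1 = 1`.
-/

set_option autoImplicit false

namespace Pool.Agent.H51.FA

namespace Ex

/-- the sign as a unit of `ℂ` -/
noncomputable def toC : ℤˣ →* ℂˣ := Units.map (Int.castRingHom ℂ).toMonoidHom

theorem toC_neg_one : toC (-1) = -1 := by
  ext
  simp [toC]

/-- the trivial action -/
abbrev trivAct (G X : Type) [Group G] : MulAction G X where
  smul _ x := x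
  one_smul _ := rfl
  mul_smul _ _ _ := rfl

/-- a lift group for a trivial action -/
noncomputable def lift (H X : Type) [Group H] [MulAction H X] (ht : ∀ (h : H) (x : X), h • x = x) (σ : H →* ℤˣ) (χ : X → ℕ) :
    LiftGroup H X where
  T := ℂˣ × H
  pr := MonoidHom.snd _ _
  pr_surj := fun h => ⟨(1, h), rfl⟩
  sc := MonoidHom.inl _ _
  pr_sc := fun _ => rfl
  ker_sc := fun u hu => ⟨u.1, Prod.ext rfl hu⟩
  sc_comm := fun z u => by
    refine Prod.ext ?_ ?_
    · exact mul_comm _ _
    · simp
  wt := fun u x => u.1 * (toC (σ u.2)) ^ (χ x)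
  wt_sc := fun z x => by simp
  wt_mul := fun u v x _ _ => by
    simp only [Prod.fst_mul, Prod.snd_mul, map_mul, mul_pow]
    exact mul_mul_mul_comm _ _ _ _
  wt_conj := fun u v x _ => by
    have h1 : σ (u * v * u⁻¹).2 = σ v.2 := by
      simp only [Prod.snd_mul, Prod.snd_inv, map_mul, map_inv]
      rw [mul_comm (σ u.2), mul_assoc, mul_inv_cancel, mul_one]
    have h2 : (u * v * u⁻¹).1 = v.1 := by
      simp only [Prod.fst_mul, Prod.fst_inv]
      rw [mul_comm u.1, mul_assoc, mul_inv_cancel, mul_one]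
    rw [h1, h2, ht]

/-- the four points -/
structure Pt where
  /-- first coordinate -/
  a : ZMod 2
  /-- second coordinate -/
  b : ZMod 2
  deriving DecidableEq

/-- pairs -/
def ptEquiv : ZMod 2 × ZMod 2 ≃ Pt where
  toFun x := ⟨x.1, x.2⟩
  invFun x := (x.a, x.b)
  left_inv _ := rfl
  right_inv _ := rfl

instance : Fintype Pt := Fintype.ofEquiv _ ptEquiv

theorem units_eq {g : ℤˣ} (h : g ≠ 1) : g = -1 := by
  rcases Int.units_eq_one_or g with h1 | h1
  · exact absurd h1 h
  · exact h1

theorem order_neg_one : orderOf (-1 : ℤˣ) = 2 := by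
  apply orderOf_eq_prime
  · decide
  · decide

/-- the action on the four points -/
abbrev a1 : MulAction ℤˣ Pt := trivAct _ _

/-- the action on the curve -/
abbrev a2 : MulAction ℤˣ Unit := trivAct _ _

/-- the group of order two acts on four points and one curve -/
def acted : Acted where
  X := Pt
  C := Unit
  G := ℤˣ
  actX := a1
  actC := a2
  cls := fun _ => (2, 3)
  cls_ne := fun _ => by decide
  genus := fun _ => 12
  delta := fun _ => 0
  adjunction := fun _ => by simp [ip, KX]
  nef := fun _ => by simp [ip, KX]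
  miyaoka84 := fun _ m h => by simp at h
  miyaoka08 := fun _ _ _ => by
    intro t h0 h1
    simp only [ip, KX]
    push_cast
    nlinarith [mul_nonneg h0 (sub_nonneg.2 h1)]
  rho := 1
  rho_add := fun g a b => rfl
  rho_ip := fun g a b => rfl
  rho_KX := fun g => rfl
  cls_smul := fun g c => rfl
  isoFix := fun _ => Finset.univ
  fixCurve := fun _ => ∅
  isoFix_mem := fun g _ x _ => rfl
  mem_isoFix := fun g _ _ x _ => Finset.mem_univ _
  fixCurve_pow := fun g k _ => Finset.Subset.refl _
  lefschetz := fun g _ _ => by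
    rw [Finset.sum_empty, Finset.card_univ]
    rfl
  smith := fun g _ => by
    rw [Finset.sum_empty, Finset.card_univ]
    exact le_of_eq rfl

theorem smul_eq (h : acted.H) (x : acted.X) : h • x = x := rfl

/-- the lifts to `E` -/
noncomputable def lE : acted.Lifts := lift acted.H acted.X smul_eq acted.incl (fun x : Pt => x.a.val)

/-- the lifts to `F` -/
noncomputable def lF : acted.Lifts := lift acted.H acted.X smul_eq acted.incl (fun x : Pt => x.b.val)

theorem loc : acted.Loc lE lF := by
  intro h hp _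
  have hne : acted.incl h ≠ 1 := by
    intro he
    have h1 : h = 1 := Subtype.ext he
    rw [h1, orderOf_one] at hp
    exact Nat.not_prime_one hp
  have hm : acted.incl h = (-1 : ℤˣ) := units_eq hne
  have ho : orderOf h = 2 := by
    have h1 : orderOf (acted.incl h) = orderOf h := orderOf_injective acted.incl Subtype.val_injective h
    rw [← h1, hm]
    exact order_neg_one
  rw [ho]
  refine ⟨-1, ((1 : ℂˣ), h), ((1 : ℂˣ), h), fun _ => 1, fun _ => 1, fun x : Pt => x.a, fun x : Pt => x.b, ?_, rfl, rfl, ?_, ?_, ?_, ?_, ?_,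
    ?_, ?_⟩
  · rw [← IsPrimitiveRoot.coe_units_iff]
    simpa using IsPrimitiveRoot.neg_one (R := ℂ) 0 (by decide)
  · intro x _
    refine ⟨one_ne_zero, one_ne_zero, ?_, ?_⟩
    · show (1 : ℂˣ) * (toC (acted.incl h)) ^ ((x : Pt).a.val) = (-1) ^ ((x : Pt).a.val)
      rw [hm, toC_neg_one, one_mul]
    · show (1 : ℂˣ) * (toC (acted.incl h)) ^ ((x : Pt).b.val) = (-1) ^ ((x : Pt).b.val)
      rw [hm, toC_neg_one, one_mul]
  all_goals
    simp only [mul_one, inv_one]
    show ∑ x : Pt, _ = _
    decide

attribute [local instance] a1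

/-- the tangent representation -/
noncomputable def tanRep (x : Pt) : MulAction.stabilizer ℤˣ x →* GL (Fin 2) ℂ :=
  (Units.map (Matrix.scalar (Fin 2)).toMonoidHom).comp (toC.comp (MulAction.stabilizer ℤˣ x).subtype)

theorem not_fixed (x : Pt) (g : MulAction.stabilizer ℤˣ x) (hg : g ≠ 1) : ¬ HasFixedVector (tanRep x g) := by
  rintro ⟨v, hv, hv0⟩
  have hne : (g : ℤˣ) ≠ 1 := fun he => hg (Subtype.ext he)
  have hm : (g : ℤˣ) = -1 := units_eq hne
  have h1 : ∀ i, (-1 : ℂ) * v i = v i := by
    intro i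
    have h2 := congrFun hv i
    have h3 : ((Units.map (Matrix.scalar (Fin 2)).toMonoidHom (toC (g : ℤˣ)) : GL (Fin 2) ℂ).val.mulVec v) i = v i := h2
    rw [hm, toC_neg_one] at h3
    have h4 : (-v) i = v i := by
      rw [← h3]
      fin_cases i <;> simp [Matrix.mulVec, dotProduct]
    rw [neg_one_mul]
    exact h4
  apply hv0
  funext i
  have h4 := h1 i
  have h5 : (2 : ℂ) * v i = 0 := by linear_combination -h4
  rcases mul_eq_zero.1 h5 with h6 | h6
  · norm_num at h6
  · exact h6

theorem ramified (h : ℤˣ) : Ramified Pt h 12 0 (2, 3) := by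
  unfold Ramified
  by_cases hh : h = 1
  · subst hh
    refine ⟨Empty, inferInstance, trivAct _ _, fun b => b.elim, 12, fun _ b => b.elim, fun b => b.elim, ?_, ?_, ?_⟩
    · rw [orderOf_one]
      simp
    · have : IsEmpty {b : Empty × Empty // b.1 ≠ b.2 ∧ (fun b : Empty => (b.elim : Pt)) b.1 = (fun b : Empty => (b.elim : Pt)) b.2} :=
        ⟨fun b => b.1.1.elim⟩
      simp
    · intro _
      rw [orderOf_one]
      simp
  · have hm : h = -1 := units_eq hh
    subst hm
    let a3 : MulAction (Subgroup.zpowers (-1 : ℤˣ)) Bool := trivAct _ _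
    have hst : ∀ b : Bool, MulAction.stabilizer (Subgroup.zpowers (-1 : ℤˣ)) b = ⊤ := by
      intro b
      rw [eq_top_iff]
      intro g _
      rfl
    refine ⟨Bool, inferInstance, a3, fun b => ⟨if b then 1 else 0, 0⟩, 6, fun _ _ => rfl, ?_, ?_, ?_, ?_⟩
    · intro b hb
      rw [hst b] at hb
      have h1 : (⟨-1, Subgroup.mem_zpowers _⟩ : Subgroup.zpowers (-1 : ℤˣ)) ∈ (⊤ : Subgroup (Subgroup.zpowers (-1 : ℤˣ))) := Subgroup.mem_top _
      rw [hb, Subgroup.mem_bot] at h1
      have h2 := congrArg Subtype.val h1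
      revert h2
      decide
    · have hc : ∀ b : Bool, Nat.card (MulAction.stabilizer (Subgroup.zpowers (-1 : ℤˣ)) b) = 2 := by
        intro b
        rw [hst b, Subgroup.card_top, Nat.card_zpowers, order_neg_one]
      simp only [hc, order_neg_one]
      norm_num
    · have : IsEmpty {b : Bool × Bool // b.1 ≠ b.2 ∧ (fun b : Bool => (⟨if b then 1 else 0, 0⟩ : Pt)) b.1 = (fun b : Bool => (⟨if b then 1 else 0, 0⟩ : Pt)) b.2} := by
        refine ⟨fun b => ?_⟩
        obtain ⟨⟨b1, b2⟩, h1, h2⟩ := b
        revert h1 h2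
        revert b1 b2
        decide
      exact (Nat.card_eq_zero.2 (Or.inl this)).le
    · intro he
      exact (he.false true).elim

/-- the data with a group of order two -/
noncomputable def surface : Surface where
  toActed := acted
  LE := lE
  LF := lF
  loc := loc
  tan := tanRep
  tan_one := fun x g hg hv => absurd hv (not_fixed x g hg)
  divisor := fun h _ => ⟨Finsupp.single () 1, fun c => rfl, by
    rw [Finsupp.sum_single_index (by simp)]
    rfl⟩
  ram := fun h c _ _ _ => ramified h

end Ex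

theorem exists_surface : ∃ S : Surface, Nat.card S.G = 2 := by
  refine ⟨Ex.surface, ?_⟩
  show Nat.card ℤˣ = 2
  simp [Nat.card_eq_fintype_card]

end Pool.Agent.H51.FA
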