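import Pool.Agent.H51.FA.Cur
import Pool.Agent.H51.FA.CoreDef

/-!
# FA Fix: no curves of fixed points, exactly four fixed points, the `Core` of a surface

`h ≠ 1` trivial on `H²`.  If the order of `h` is prime: `lefschetz - smith` gives `∑ (-4 genus) ≥ 0`, so all genera of curves of fixed points are `0`, but they
are `≥ 1` (`genus_pos`): `fixCurve h = ∅`.  In general `h ^ k` has prime order for some `k` (`k = orderOf h / p`), and `fixCurve h ⊆ fixCurve (h ^ k) = ∅`.
Then `card (isoFix h) = 4`.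
`core`: `H = rho.ker`, `fx h = isoFix h`; `tan x` is the restriction to the stabilizer in `rho.ker` (map it to the stabilizer in `G`), `tan_one` from
`Surface.tan_one` and `fixCurve = ∅`.
-/

set_option autoImplicit false

namespace Pool.Agent.H51.FA

private theorem fixCurve_prime (S : Surface) (h : S.G) (hp : (orderOf h).Prime) (hr : S.rho h = 1) : S.fixCurve h = ∅ := by
  have h1 : h ≠ 1 := by
    rintro rfl
    rw [orderOf_one] at hp
    exact Nat.not_prime_one hp
  have hL := S.lefschetz h h1 hr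
  have hS := S.smith h hp
  have h2 : ∑ c ∈ S.fixCurve h, (2 + 2 * (S.genus c : ℤ)) = ∑ c ∈ S.fixCurve h, (2 - 2 * (S.genus c : ℤ)) +
      ∑ c ∈ S.fixCurve h, 4 * (S.genus c : ℤ) := by
    rw [← Finset.sum_add_distrib]
    apply Finset.sum_congr rfl
    intro c _
    ring
  have h3 : ∑ c ∈ S.fixCurve h, (1 : ℤ) ≤ ∑ c ∈ S.fixCurve h, 4 * (S.genus c : ℤ) := by
    apply Finset.sum_le_sum
    intro c _
    have h4 : (1 : ℤ) ≤ (S.genus c : ℤ) := by exact_mod_cast genus_pos S c
    linarith
  rw [Finset.sum_const, nsmul_eq_mul, mul_one] at h3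
  have h5 : ((S.fixCurve h).card : ℤ) ≤ 0 := by linarith
  have h6 : (S.fixCurve h).card = 0 := by
    have : (S.fixCurve h).card ≤ 0 := by exact_mod_cast h5
    omega
  exact Finset.card_eq_zero.1 h6

theorem fixCurve_eq (S : Surface) (h : S.G) (h1 : h ≠ 1) (hr : S.rho h = 1) : S.fixCurve h = ∅ := by
  have hn : orderOf h ≠ 1 := fun h2 => h1 (orderOf_eq_one_iff.1 h2)
  have hn0 : orderOf h ≠ 0 := (orderOf_pos h).ne'
  obtain ⟨p, hp, hdvd⟩ := Nat.exists_prime_and_dvd hn
  have ho : orderOf (h ^ (orderOf h / p)) = p := orderOf_pow_orderOf_div hn0 hdvd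
  have hk : h ^ (orderOf h / p) ≠ 1 := by
    intro h2
    rw [h2, orderOf_one] at ho
    rw [← ho] at hp
    exact Nat.not_prime_one hp
  have hr' : S.rho (h ^ (orderOf h / p)) = 1 := by rw [map_pow, hr, one_pow]
  have h3 := fixCurve_prime S (h ^ (orderOf h / p)) (by rw [ho]; exact hp) hr'
  have h4 := S.fixCurve_pow h (orderOf h / p) hk
  rw [h3] at h4
  exact Finset.subset_empty.1 h4

theorem card_isoFix (S : Surface) (h : S.G) (h1 : h ≠ 1) (hr : S.rho h = 1) : (S.isoFix h).card = 4 := by
  have hL := S.lefschetz h h1 hr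
  rw [fixCurve_eq S h h1 hr, Finset.sum_empty, add_zero] at hL
  exact_mod_cast hL

theorem mem_isoFix_iff (S : Surface) (h : S.G) (h1 : h ≠ 1) (hr : S.rho h = 1) (x : S.X) : x ∈ S.isoFix h ↔ h • x = x :=
  ⟨S.isoFix_mem h h1 x, S.mem_isoFix h h1 (fixCurve_eq S h h1 hr) x⟩

/-- a power `≠ 1` has the same fixed points -/
theorem isoFix_pow (S : Surface) (h : S.G) (hr : S.rho h = 1) (k : ℕ) (hk : h ^ k ≠ 1) : S.isoFix (h ^ k) = S.isoFix h := by
  have h1 : h ≠ 1 := by
    rintro rfl
    exact hk (one_pow k)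
  have hr' : S.rho (h ^ k) = 1 := by rw [map_pow, hr, one_pow]
  symm
  apply Finset.eq_of_subset_of_card_le
  · intro x hx
    rw [mem_isoFix_iff S h h1 hr] at hx
    rw [mem_isoFix_iff S (h ^ k) hk hr']
    have h2 : h ∈ MulAction.stabilizer S.G x := hx
    exact Subgroup.pow_mem _ h2 k
  · rw [card_isoFix S h h1 hr, card_isoFix S (h ^ k) hk hr']

private noncomputable def stabMap (S : Surface) (x : S.X) : MulAction.stabilizer S.rho.ker x →* MulAction.stabilizer S.G x where
  toFun g := ⟨((g : S.rho.ker) : S.G), g.2⟩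
  map_one' := rfl
  map_mul' _ _ := rfl

private theorem core_tan_one (S : Surface) (x : S.X) (g : MulAction.stabilizer S.rho.ker x) (hg : g ≠ 1) (v : Fin 2 → ℂ)
    (hv : (((S.tan x).comp (stabMap S x)) g).val.mulVec v = v) : v = 0 := by
  by_contra hv0
  have h1 : stabMap S x g ≠ 1 := by
    intro h2
    apply hg
    have h3 : (((g : S.rho.ker) : S.G)) = 1 := congrArg Subtype.val h2
    exact Subtype.ext (Subtype.ext h3)
  have h4 := S.tan_one x (stabMap S x g) h1 ⟨v, hv, hv0⟩
  have h5 : S.fixCurve ((stabMap S x g : MulAction.stabilizer S.G x) : S.G) = ∅ := by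
    apply fixCurve_eq S
    · intro h6
      exact h1 (Subtype.ext h6)
    · exact (g : S.rho.ker).2
  rw [h5] at h4
  exact Finset.not_nonempty_empty h4

private theorem coe_ne_one (S : Surface) (h : S.rho.ker) (hh : h ≠ 1) : (h : S.G) ≠ 1 :=
  fun h2 => hh (Subtype.ext h2)

/-- The group of automorphisms acting trivially on `H²`. -/
noncomputable def core (S : Surface) : Core where
  X := S.X
  H := S.rho.ker
  fx := fun h => S.isoFix (h : S.G)
  mem_fx := fun h hh x => mem_isoFix_iff S h (coe_ne_one S h hh) h.2 x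
  card_fx := fun h hh => card_isoFix S h (coe_ne_one S h hh) h.2
  LE := S.LE
  LF := S.LF
  loc := fun h hp => S.loc h hp (fixCurve_eq S h (coe_ne_one S h (by
      rintro rfl
      rw [orderOf_one] at hp
      exact Nat.not_prime_one hp)) h.2)
  tan := fun x => (S.tan x).comp (stabMap S x)
  tan_one := core_tan_one S

theorem exists_core (S : Surface) : ∃ M : Core, ∃ e : M.H ≃* S.rho.ker, True :=
  ⟨core S, MulEquiv.refl _, trivial⟩

end Pool.Agent.H51.FA
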