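import Pool.Agent.H51.FA.Pair

/-!
# FA V8: an axis of order 2

`S = ax z = {1, z}`, `s, s'` commute with `z`, `s, s', s s' ∉ S` (with `s⁻¹ s' ∉ S`): contradiction.
Every `g` commuting with `z` has `g² ∈ S` (`smul_smul_fx`: `g²` is trivial on `fx z`), and `g² = z` would give `fx g = fx z` (`fx g ⊆ fx (g²)`, both four
points), so `g ∈ ax z`, `g ∈ {1, z}`, `g² = 1 ≠ z`: contradiction.  So `g² = 1` for all `g` in the centralizer `V` of `z`; `V` is commutative of exponent
2, and `z, s, s'` are independent.  The pairings `α = om s s', β = om s z, γ = om s' z` (for `E` and `F`) are `±1` (`om_mul_left` and `g² = 1`).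
For all `a, b ∈ V` different from each other and from 1: `a ∉ ax b` (the axis `ax b` is cyclic, so it has at most one element of order 2, `b`), so
(`mem_ax_of_om`) `(om_E a b, om_F a b) ≠ (1, 1)`.  The three vectors `α, β, γ ∈ {±1}²` satisfy a non-trivial relation `α^i β^j γ^k = 1`, and
`α^i β^j γ^k = om a b` for suitable `a, b ∈ V`, `a ≠ b`, `a, b ≠ 1`:
`α = om s s'`, `β = om s z`, `γ = om s' z`, `αβ = om s (s' z)`, `αγ = om (s z) s'` , `βγ = om (s s') z`, `αβγ = om (s z) (s' z)`
(all signs are `±1`, `om` is symmetric on `V`).  Seven contradictions.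
-/

set_option autoImplicit false

namespace Pool.Agent.H51.FA

private theorem om_one_left {H X : Type} [Group H] [MulAction H X] [Nonempty X] (L : LiftGroup H X) (h : H) : om L 1 h = 1 := by
  have h1 := om_mul_left L 1 1 h (by rw [one_mul, mul_one]) (by rw [one_mul, mul_one])
  rw [mul_one] at h1
  exact mul_eq_left.mp h1.symm

private theorem sign_of_sq (u : ℂˣ) (h : u * u = 1) : u = 1 ∨ u = -1 := by
  have h1 : (u : ℂ) * (u : ℂ) = 1 := by
    rw [← Units.val_mul, h, Units.val_one]
  rcases mul_self_eq_one_iff.mp h1 with h2 | h2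
  · left
    ext
    rw [h2, Units.val_one]
  · right
    ext
    rw [h2, Units.val_neg, Units.val_one]

private theorem om_sign {H X : Type} [Group H] [MulAction H X] [Nonempty X] (L : LiftGroup H X) (s h : H) (hc : s * h = h * s)
    (hs : s * s = 1) : om L s h = 1 ∨ om L s h = -1 := by
  apply sign_of_sq
  rw [← om_mul_left L s s h hc hc, hs, om_one_left]

/-- a cyclic group has at most one element of order two -/
private theorem eq_of_sq {G : Type} [Group G] [Finite G] (S : Subgroup G) (hS : IsCyclic S) (a b : G) (ha : a ∈ S) (hb : b ∈ S)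
    (a1 : a ≠ 1) (b1 : b ≠ 1) (haa : a * a = 1) (hbb : b * b = 1) : a = b := by
  classical
  by_contra hab
  haveI : Fintype S := Fintype.ofFinite S
  have h1 := IsCyclic.card_pow_eq_one_le (α := S) (n := 2) (by norm_num)
  have h2 : ({1, ⟨a, ha⟩, ⟨b, hb⟩} : Finset S) ⊆ Finset.univ.filter (fun x : S => x ^ 2 = 1) := by
    intro x hx
    rw [Finset.mem_filter]
    refine ⟨Finset.mem_univ _, ?_⟩
    simp only [Finset.mem_insert, Finset.mem_singleton] at hx
    rcases hx with rfl | rfl | rfl
    · rw [one_pow]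
    · apply Subtype.ext
      rw [pow_two]
      exact haa
    · apply Subtype.ext
      rw [pow_two]
      exact hbb
  have h3 : ({1, ⟨a, ha⟩, ⟨b, hb⟩} : Finset S).card = 3 := by
    rw [Finset.card_eq_three]
    refine ⟨1, ⟨a, ha⟩, ⟨b, hb⟩, ?_, ?_, ?_, rfl⟩
    · intro h
      exact a1 (congrArg Subtype.val h).symm
    · intro h
      exact b1 (congrArg Subtype.val h).symm
    · intro h
      exact hab (congrArg Subtype.val h)
  have h4 := Finset.card_le_card h2
  rw [h3] at h4
  omega

theorem index_two (M : Core) (z : M.H) (hz : orderOf z = 2) (hS : Nat.card (ax M z) = 2) (s s' : M.H) (hs : s * z = z * s)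
    (hs' : s' * z = z * s') (hn : s ∉ ax M z) (hn' : s' ∉ ax M z) : s⁻¹ * s' ∈ ax M z := by
  by_contra hss
  have z1 : z ≠ 1 := by
    rintro rfl
    simp at hz
  have hzz : z * z = 1 := by
    rw [← pow_two, ← hz]
    exact pow_orderOf_eq_one z
  have hzS : z ∈ ax M z := self_mem_ax M z z1
  obtain ⟨x, hx⟩ : (M.fx z).Nonempty := by
    rw [← Finset.card_pos, M.card_fx z z1]
    norm_num
  have : Nonempty M.X := ⟨x⟩
  have hS2 : ∀ g ∈ ax M z, g = 1 ∨ g = z := by
    intro g hg
    by_cases g1 : g = 1
    · exact Or.inl g1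
    · right
      obtain ⟨y, -, hy⟩ := (Nat.card_eq_two_iff' (1 : ax M z)).mp hS
      have e1 := hy ⟨g, hg⟩ (fun h => g1 (congrArg Subtype.val h))
      have e2 := hy ⟨z, hzS⟩ (fun h => z1 (congrArg Subtype.val h))
      exact congrArg Subtype.val (e1.trans e2.symm)
  have hsq : ∀ g : M.H, g * z = z * g → g * g = 1 := by
    intro g hg
    have hmem : g * g ∈ ax M z := by
      intro y hy
      rw [mul_smul]
      refine smul_smul_fx M z g (by rw [hz]; exact Nat.prime_two) ?_ y hy
      rw [hg, mul_inv_cancel_right]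
      exact Subgroup.mem_zpowers _
    rcases hS2 _ hmem with h | h
    · exact h
    · exfalso
      have g1 : g ≠ 1 := by
        rintro rfl
        rw [mul_one] at h
        exact z1 h.symm
      have hfx : M.fx g = M.fx z := by
        apply Finset.eq_of_subset_of_card_le
        · intro y hy
          have hy' := (M.mem_fx g g1 y).1 hy
          apply (M.mem_fx z z1 y).2
          rw [← h, mul_smul, hy', hy']
        · rw [M.card_fx g g1, M.card_fx z z1]
      have hgS : g ∈ ax M z := by
        intro y hy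
        rw [← hfx] at hy
        exact (M.mem_fx g g1 y).1 hy
      rcases hS2 g hgS with h2 | h2
      · exact g1 h2
      · rw [h2, hzz] at h
        exact z1 h.symm
  have hmulc : ∀ a b : M.H, a * z = z * a → b * z = z * b → (a * b) * z = z * (a * b) := by
    intro a b ha hb
    rw [mul_assoc, hb, ← mul_assoc, ha, mul_assoc]
  have hcomm : ∀ a b : M.H, a * z = z * a → b * z = z * b → a * b = b * a := by
    intro a b ha hb
    have e1 := hsq a ha
    have e2 := hsq b hb
    have e3 := hsq (a * b) (hmulc a b ha hb)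
    have e4 : a⁻¹ = a := inv_eq_of_mul_eq_one_left e1
    have e5 : b⁻¹ = b := inv_eq_of_mul_eq_one_left e2
    have e6 : (a * b)⁻¹ = a * b := inv_eq_of_mul_eq_one_left e3
    rw [← e6, mul_inv_rev, e4, e5]
  have key : ∀ a b : M.H, a * z = z * a → b * z = z * b → a ≠ 1 → b ≠ 1 → a ≠ b → ¬ (om M.LE a b = 1 ∧ om M.LF a b = 1) := by
    rintro a b ha hb a1 b1 hab ⟨hE, hF⟩
    have hob : orderOf b = 2 := by
      apply orderOf_eq_prime
      · rw [pow_two]
        exact hsq b hb
      · exact b1
    have hmem : a ∈ ax M b := mem_ax_of_om M b a (by rw [hob]; exact Nat.prime_two) (hcomm a b ha hb) hE hF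
    exact hab (eq_of_sq (ax M b) (ax_isCyclic M b b1) a b hmem (self_mem_ax M b b1) a1 b1 (hsq a ha) (hsq b hb))
  -- the elements
  have hzc : z * z = z * z := rfl
  have s1 : s ≠ 1 := by
    rintro rfl
    exact hn (one_mem _)
  have s1' : s' ≠ 1 := by
    rintro rfl
    exact hn' (one_mem _)
  have hsz : s ≠ z := by
    rintro rfl
    exact hn hzS
  have hsz' : s' ≠ z := by
    rintro rfl
    exact hn' hzS
  have hss1 : s ≠ s' := by
    rintro rfl
    apply hss
    rw [inv_mul_cancel]
    exact one_mem _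
  have hzi : z⁻¹ = z := inv_eq_of_mul_eq_one_left hzz
  have hsi : s⁻¹ = s := inv_eq_of_mul_eq_one_left (hsq s hs)
  have a1 : s * z ≠ 1 := by
    intro h
    apply hsz
    rw [← hzi]
    exact eq_inv_of_mul_eq_one_left h
  have a2 : s' * z ≠ 1 := by
    intro h
    apply hsz'
    rw [← hzi]
    exact eq_inv_of_mul_eq_one_left h
  have a3 : s * s' ≠ 1 := by
    intro h
    apply hss
    rw [hsi, h]
    exact one_mem _
  have a4 : s * s' ≠ z := by
    intro h
    apply hss
    rw [hsi, h]
    exact hzS
  have a5 : s ≠ s' * z := by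
    intro h
    apply a4
    rw [h, mul_assoc, ← hs', ← mul_assoc, hsq s' hs', one_mul]
  have a6 : s * z ≠ s' := by
    intro h
    apply a4
    rw [← h, ← mul_assoc, hsq s hs, one_mul]
  have a7 : s * z ≠ s' * z := fun h => hss1 (mul_right_cancel h)
  have c1 : s * s' = s' * s := hcomm s s' hs hs'
  have c2 : z * s' = s' * z := hs'.symm
  -- the seven conditions
  have h1 := key s s' hs hs' s1 s1' hss1
  have h2 := key s z hs hzc s1 z1 hsz
  have h3 := key z s' hzc hs' z1 s1' (Ne.symm hsz')
  have h4 := key s (s' * z) hs (hmulc s' z hs' hzc) s1 a2 a5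
  have h5 := key (s * z) s' (hmulc s z hs hzc) hs' a1 s1' a6
  have h6 := key (s * s') z (hmulc s s' hs hs') hzc a3 z1 a4
  have h7 := key (s * z) (s' * z) (hmulc s z hs hzc) (hmulc s' z hs' hzc) a1 a2 a7
  have E4 : ∀ L : LiftGroup M.H M.X, om L s (s' * z) = om L s s' * om L s z := fun L => om_mul_right L s s' z c1 hs
  have E5 : ∀ L : LiftGroup M.H M.X, om L (s * z) s' = om L s s' * om L z s' := fun L => om_mul_left L s z s' c1 c2
  have E6 : ∀ L : LiftGroup M.H M.X, om L (s * s') z = om L s z * om L z s' := by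
    intro L
    rw [om_mul_left L s s' z hs hs', om_swap L z s' c2]
    rcases om_sign L z s' c2 hzz with h | h
    · rw [h, inv_one]
    · rw [h]
      simp
  have E7 : ∀ L : LiftGroup M.H M.X, om L (s * z) (s' * z) = om L s s' * om L z s' * om L s z := by
    intro L
    rw [om_mul_right L (s * z) s' z (by rw [mul_assoc, c2, ← mul_assoc, c1, mul_assoc]) (hmulc s z hs hzc), E5 L,
      om_mul_left L s z z hs hzc, om_self, mul_one]
  rw [E4, E4] at h4
  rw [E5, E5] at h5
  rw [E6, E6] at h6
  rw [E7, E7] at h7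
  have S1 := om_sign M.LE s s' c1 (hsq s hs)
  have S2 := om_sign M.LE s z hs (hsq s hs)
  have S3 := om_sign M.LE z s' c2 hzz
  have T1 := om_sign M.LF s s' c1 (hsq s hs)
  have T2 := om_sign M.LF s z hs (hsq s hs)
  have T3 := om_sign M.LF z s' c2 hzz
  generalize om M.LE s s' = aE at *
  generalize om M.LE s z = bE at *
  generalize om M.LE z s' = gE at *
  generalize om M.LF s s' = aF at *
  generalize om M.LF s z = bF at *
  generalize om M.LF z s' = gF at *
  clear E4 E5 E6 E7 key
  rcases S1 with rfl | rfl <;> rcases T1 with rfl | rfl <;> rcases S2 with rfl | rfl <;> rcases T2 with rfl | rfl <;>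
    rcases S3 with rfl | rfl <;> rcases T3 with rfl | rfl <;> simp at h1 h2 h3 h4 h5 h6 h7

end Pool.Agent.H51.FA
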