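import Pool.Agent.H51.FA.Norm
import Pool.Agent.H51.FA.V8
import Pool.Agent.H51.FA.Cnt

/-!
# FA Grp: `|H| ≤ 60` if all elements of `H` have order at most 30

`card_le_sixty` with `A = ax M`: `self_mem_ax`, `ax_eq`, `mem_ax_conj`; `hnorm`: if `|ax h| > 2` `index_big`, otherwise `|ax h| = 2` (it contains `1 ≠ h`),
`h = z` has order 2, the normalizer of `{1, z}` centralizes `z`, `index_two`; `hcard`: `ax h` is cyclic (`ax_isCyclic`), its order is the order of a
generator.
-/

set_option autoImplicit false

namespace Pool.Agent.H51.FA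

theorem norm_step (M : Core) (h : M.H) (h1 : h ≠ 1) (s s' : M.H) (hs : s ∈ Subgroup.normalizer (ax M h : Set M.H))
    (hs' : s' ∈ Subgroup.normalizer (ax M h : Set M.H)) (hn : s ∉ ax M h) (hn' : s' ∉ ax M h) : s⁻¹ * s' ∈ ax M h := by
  by_cases h2 : 2 < Nat.card (ax M h)
  · exact index_big M h h1 h2 s s' hs hs' hn hn'
  · have hmem := self_mem_ax M h h1
    have hne : ax M h ≠ ⊥ := by
      intro hb
      rw [hb, Subgroup.mem_bot] at hmem
      exact h1 hmem
    have h3 : 1 < Nat.card (ax M h) := (ax M h).one_lt_card_iff_ne_bot.2 hne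
    have hcard : Nat.card (ax M h) = 2 := by omega
    -- the only element of the axis different from 1 is `h`
    have honly : ∀ g ∈ ax M h, g ≠ 1 → g = h := by
      intro g hg hg1
      by_contra hgh
      obtain ⟨x, y, -, hxy⟩ := Nat.card_eq_two_iff.1 hcard
      have hall : ∀ a : ax M h, a = x ∨ a = y := by
        intro a
        have : a ∈ ({x, y} : Set (ax M h)) := by
          rw [hxy]
          exact Set.mem_univ a
        simpa using this
      have e1 := hall 1
      have e2 := hall ⟨h, hmem⟩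
      have e3 := hall ⟨g, hg⟩
      have n1 : (1 : ax M h) ≠ ⟨h, hmem⟩ := fun h5 => h1 (congrArg Subtype.val h5).symm
      have n2 : (1 : ax M h) ≠ ⟨g, hg⟩ := fun h5 => hg1 (congrArg Subtype.val h5).symm
      have n3 : (⟨g, hg⟩ : ax M h) ≠ ⟨h, hmem⟩ := fun h5 => hgh (congrArg Subtype.val h5)
      rcases e1 with e1 | e1 <;> rcases e2 with e2 | e2 <;> rcases e3 with e3 | e3
      · exact n1 (e1.trans e2.symm)
      · exact n1 (e1.trans e2.symm)
      · exact n2 (e1.trans e3.symm)
      · exact n3 (e3.trans e2.symm)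
      · exact n3 (e3.trans e2.symm)
      · exact n2 (e1.trans e3.symm)
      · exact n1 (e1.trans e2.symm)
      · exact n1 (e1.trans e2.symm)
    have hord : orderOf h = 2 := by
      have h4 : h ^ 2 = 1 := by
        have h5 := pow_card_eq_one' (x := (⟨h, hmem⟩ : ax M h))
        rw [hcard] at h5
        exact congrArg Subtype.val h5
      exact orderOf_eq_prime h4 h1
    have hcomm : ∀ t ∈ Subgroup.normalizer (ax M h : Set M.H), t * h = h * t := by
      intro t ht
      have h5 : t * h * t⁻¹ ∈ ax M h := (Subgroup.mem_normalizer_iff.1 ht h).1 hmem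
      have h6 : t * h * t⁻¹ ≠ 1 := by
        intro h7
        apply h1
        have h8 : h = t⁻¹ * (t * h * t⁻¹) * t := by group
        rw [h8, h7]
        group
      have h9 := honly _ h5 h6
      calc t * h = t * h * t⁻¹ * t := by group
        _ = h * t := by rw [h9]
    exact index_two M h hord hcard s s' (hcomm s hs) (hcomm s' hs') hn hn'

theorem card_ax (M : Core) (h : M.H) (h1 : h ≠ 1) : ∃ g : M.H, Nat.card (ax M h) = orderOf g := by
  obtain ⟨g, hg⟩ := (ax_isCyclic M h h1).exists_generator
  refine ⟨(g : M.H), ?_⟩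
  rw [Subgroup.orderOf_coe]
  exact (orderOf_eq_card_of_forall_mem_zpowers hg).symm

theorem Core.card_le (M : Core) (hord : ∀ h : M.H, orderOf h ≤ 30) : Nat.card M.H ≤ 60 := by
  refine card_le_sixty (ax M) (self_mem_ax M) (fun h g h1 g1 hg => ax_eq M h g h1 g1 hg)
    (fun h s g h1 => mem_ax_conj M h s g h1)
    (fun h h1 s hs s' hs' hn hn' => norm_step M h h1 s s' hs hs' hn hn') (fun h h1 => ?_)
  obtain ⟨g, hg⟩ := card_ax M h h1
  rw [hg]
  exact hord g

end Pool.Agent.H51.FA
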