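import Pool.Agent.H51.FA.Defs

/-!
# FA Iso: the kernel of the action on `H²(X)` has index at most 2

An isometry `A` with `A K = K`: `A E = (a, b)`, `2ab = 0`, `K · A E = 2a + 2b = K · E = 2`, so `A E = E` or `F`; the same for `F`, and `A E · A F = 1`: `A` is the identity
or the swap.  So two elements of `G` outside the kernel act in the same way: the range of `rho` has at most two elements, and
`|G| = |ker| |range|` (`Subgroup.card_eq_card_quotient_mul_card_subgroup`, `QuotientGroup.quotientKerEquivRange`).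
-/

set_option autoImplicit false

namespace Pool.Agent.H51.FA

private lemma unit_class (S : Surface) (g : S.G) (e : Cl) (h0 : ip e e = 0) (h2 : ip KX e = 2) :
    S.rho g e = (1, 0) ∨ S.rho g e = (0, 1) := by
  have h1 := S.rho_ip g e e
  have h3 := S.rho_ip g KX e
  rw [h0] at h1
  rw [h2, S.rho_KX] at h3
  generalize S.rho g e = w at *
  obtain ⟨a, b⟩ := w
  simp only [ip, KX] at h1 h3
  have h4 : a + b = 1 := by linarith
  have h5 : a * b = 0 := by linarith
  rcases mul_eq_zero.1 h5 with h | h
  · right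
    rw [h] at h4 ⊢
    rw [show b = 1 by linarith]
  · left
    rw [h] at h4 ⊢
    rw [show a = 1 by linarith]

private lemma rho_cases (S : Surface) (g : S.G) :
    (S.rho g (1, 0) = (1, 0) ∧ S.rho g (0, 1) = (0, 1)) ∨
      (S.rho g (1, 0) = (0, 1) ∧ S.rho g (0, 1) = (1, 0)) := by
  have h1 := unit_class S g (1, 0) (by norm_num [ip]) (by norm_num [ip, KX])
  have h2 := unit_class S g (0, 1) (by norm_num [ip]) (by norm_num [ip, KX])
  have h3 := S.rho_ip g (1, 0) (0, 1)
  rcases h1 with h1 | h1 <;> rcases h2 with h2 | h2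
  · rw [h1, h2] at h3
    norm_num [ip] at h3
  · exact Or.inl ⟨h1, h2⟩
  · exact Or.inr ⟨h1, h2⟩
  · rw [h1, h2] at h3
    norm_num [ip] at h3

private lemma ext_cl (S : Surface) (g g' : S.G) (h1 : S.rho g (1, 0) = S.rho g' (1, 0))
    (h2 : S.rho g (0, 1) = S.rho g' (0, 1)) : S.rho g = S.rho g' := by
  refine Equiv.ext fun v => ?_
  have hv : v = v.1 • ((1, 0) : Cl) + v.2 • ((0, 1) : Cl) := by
    refine Prod.ext ?_ ?_ <;> simp
  have hA := map_zsmul (AddMonoidHom.mk' (S.rho g) (S.rho_add g))
  have hB := map_zsmul (AddMonoidHom.mk' (S.rho g') (S.rho_add g'))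
  simp only [AddMonoidHom.mk'_apply] at hA hB
  rw [hv, S.rho_add, S.rho_add, hA, hA, hB, hB, h1, h2]

theorem card_le_two_mul (S : Surface) : Nat.card S.G ≤ 2 * Nat.card S.rho.ker := by
  classical
  have hcard : Nat.card S.rho.range ≤ 2 := by
    have hinj : Function.Injective
        (fun A : S.rho.range => decide ((A : Equiv.Perm Cl) (1, 0) = (1, 0))) := by
      rintro ⟨A, g, rfl⟩ ⟨B, g', rfl⟩ h
      simp only [decide_eq_decide] at h
      refine Subtype.ext ?_
      have n1 : ((0, 1) : Cl) ≠ (1, 0) := by decide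
      rcases rho_cases S g with ⟨a1, a2⟩ | ⟨a1, a2⟩ <;> rcases rho_cases S g' with ⟨b1, b2⟩ | ⟨b1, b2⟩
      · exact ext_cl S g g' (a1.trans b1.symm) (a2.trans b2.symm)
      · exact absurd (b1.symm.trans (h.1 a1)) n1
      · exact absurd (a1.symm.trans (h.2 b1)) n1
      · exact ext_cl S g g' (a1.trans b1.symm) (a2.trans b2.symm)
    have h1 := Nat.card_le_card_of_injective _ hinj
    rwa [Nat.card_eq_fintype_card (α := Bool), Fintype.card_bool] at h1
  have h2 := Subgroup.card_mul_index S.rho.ker
  rw [Subgroup.index_ker] at h2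
  rw [← h2, mul_comm]
  exact Nat.mul_le_mul_right _ hcard

end Pool.Agent.H51.FA
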