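import Pool.Agent.H51.FA.Defs

/-!
# FA Klein: the numerical equation

`1 - 1/N = ∑ (1/w i)(1 - 1/n i)`, `n i ≥ 2`, `w i ∈ {1, 2}`, `w i * n i ∣ N`, `n i ≤ 30`: then `N ≤ 60`.  Every term is `≥ 1/4` and the sum is `< 1`, so at most
three indices.  One index: `w = 1`: `N = n ≤ 30`; `w = 2`: `1/2 > 1 - 1/N`, `N = 1`, but `2 n ∣ N`.  Two indices, `w = 1` and `w = 2` (two `w = 1` give `≥ 1`):
`1/n₁ = 1/2 - 1/(2n₂) + 1/N`: `n₁ = 2`: `N = 2n₂ ≤ 60`; `n₁ = 3`: `1/(2 n₂) = 1/6 + 1/N`, `n₂ = 2`, `N = 12`; `n₁ ≥ 4`: impossible.  Two indices with `w = 2`: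
`1/n₁ + 1/n₂ = 2/N` but `n_i ≤ N/2`: impossible.  Three indices: all `w = 2` (otherwise the sum is `≥ 1/2 + 1/4 + 1/4 = 1`) and `∑ 1/n_i = 1 + 2/N`:
`(2,2,n)`: `N = 2n ≤ 60`; `(2,3,3)`: 12; `(2,3,4)`: 24; `(2,3,5)`: 60.
-/

set_option autoImplicit false

open Finset

namespace Pool.Agent.H51.FA

/-- The reciprocal of a natural number `≥ k` is at most `1/k`. -/
theorem klein_le {a : ℕ} (k : ℕ) (hk : 0 < k) (h : k ≤ a) : 1 / (a : ℚ) ≤ 1 / (k : ℚ) := by
  have h1 : (0 : ℚ) < (k : ℚ) := by exact_mod_cast hk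
  exact one_div_le_one_div_of_le h1 (by exact_mod_cast h)

/-- The reciprocal of a positive natural number `≤ 30` is at least `1/30`. -/
theorem klein_ge {a : ℕ} (ha : 2 ≤ a) (h : a ≤ 30) : 1 / (30 : ℚ) ≤ 1 / (a : ℚ) := by
  have h1 : (0 : ℚ) < (a : ℚ) := by exact_mod_cast (by omega : 0 < a)
  exact one_div_le_one_div_of_le h1 (by exact_mod_cast h)

/-- `1/b + 1/c = 1/2 + 2x` with `0 < x < 1/60` is impossible. -/
theorem klein_pair (b c : ℕ) (x : ℚ) (hb : 2 ≤ b) (hc : 2 ≤ c) (hb' : b ≤ 30) (hc' : c ≤ 30)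
    (hx : 0 < x) (hx' : x < 1 / 60) (h : 1 / (b : ℚ) + 1 / (c : ℚ) = 1 / 2 + 2 * x) : False := by
  have key : ∀ b c : ℕ, 2 ≤ b → 2 ≤ c → b ≤ 30 → c ≤ 30 → b ≤ c →
      1 / (b : ℚ) + 1 / (c : ℚ) = 1 / 2 + 2 * x → False := by
    intro b c hb hc hb' hc' hbc h
    have hcge := klein_ge hc hc'
    by_cases h4 : 4 ≤ b
    · have h1 := klein_le 4 (by norm_num) h4
      have h2 := klein_le 4 (by norm_num) (h4.trans hbc)
      norm_num at h1 h2 h
      linarith
    · have h23 : b = 2 ∨ b = 3 := by omega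
      rcases h23 with rfl | rfl
      · norm_num at h hcge
        linarith
      · by_cases h6 : 6 ≤ c
        · have h2 := klein_le 6 (by norm_num) h6
          norm_num at h2 h
          linarith
        · have h345 : c = 3 ∨ c = 4 ∨ c = 5 := by omega
          rcases h345 with rfl | rfl | rfl
          · norm_num at h
            linarith
          · norm_num at h
            linarith
          · norm_num at h
            linarith
  rcases le_total b c with hbc | hbc
  · exact key b c hb hc hb' hc' hbc h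
  · exact key c b hc hb hc' hb' hbc (by rw [add_comm]; exact h)

/-- `1/a + 1/b + 1/c = 1 + 2x` with `0 < x < 1/60` is impossible. -/
theorem klein_triple (a b c : ℕ) (x : ℚ) (ha : 2 ≤ a) (hb : 2 ≤ b) (hc : 2 ≤ c) (ha' : a ≤ 30) (hb' : b ≤ 30) (hc' : c ≤ 30)
    (hx : 0 < x) (hx' : x < 1 / 60) (h : 1 / (a : ℚ) + 1 / (b : ℚ) + 1 / (c : ℚ) = 1 + 2 * x) : False := by
  by_cases h2a : a = 2
  · subst h2a
    refine klein_pair b c x hb hc hb' hc' hx hx' ?_
    norm_num at h ⊢
    linarith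
  by_cases h2b : b = 2
  · subst h2b
    refine klein_pair a c x ha hc ha' hc' hx hx' ?_
    norm_num at h ⊢
    linarith
  by_cases h2c : c = 2
  · subst h2c
    refine klein_pair a b x ha hb ha' hb' hx hx' ?_
    norm_num at h ⊢
    linarith
  have h1 := klein_le 3 (by norm_num) (by omega : 3 ≤ a)
  have h2 := klein_le 3 (by norm_num) (by omega : 3 ≤ b)
  have h3 := klein_le 3 (by norm_num) (by omega : 3 ≤ c)
  norm_num at h h1 h2 h3
  linarith

/-- Two indices with `w = 1` and `w = 2`. -/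
theorem klein_mixed (a b : ℕ) (x : ℚ) (ha : 2 ≤ a) (hb : 2 ≤ b) (ha' : a ≤ 30) (hb' : b ≤ 30)
    (hx : 0 < x) (hx' : x < 1 / 60) (h : (1 - 1 / (a : ℚ)) + 1 / 2 * (1 - 1 / (b : ℚ)) = 1 - x) : False := by
  have h1 := klein_le 2 (by norm_num) hb
  have h3 := klein_ge hb hb'
  by_cases h4 : 4 ≤ a
  · have h2 := klein_le 4 (by norm_num) h4
    norm_num at h h1 h2
    linarith
  · have h23 : a = 2 ∨ a = 3 := by omega
    rcases h23 with rfl | rfl
    · norm_num at h h3
      linarith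
    · by_cases h3' : 3 ≤ b
      · have h2 := klein_le 3 (by norm_num) h3'
        norm_num at h h2
        linarith
      · have hb2 : b = 2 := by omega
        subst hb2
        norm_num at h
        linarith

theorem klein {I : Type} [Fintype I] (n w : I → ℕ) (N : ℕ) (hN : 2 ≤ N) (hn : ∀ i, 2 ≤ n i) (hn' : ∀ i, n i ≤ 30)
    (hw : ∀ i, w i = 1 ∨ w i = 2) (hdvd : ∀ i, w i * n i ∣ N)
    (hsum : ∑ i, (1 / (w i : ℚ)) * (1 - 1 / (n i : ℚ)) = 1 - 1 / (N : ℚ)) : N ≤ 60 := by
  by_contra hcon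
  push Not at hcon
  have hNq : (61 : ℚ) ≤ (N : ℚ) := by exact_mod_cast hcon
  have hx : (0 : ℚ) < 1 / (N : ℚ) := by positivity
  have hx' : 1 / (N : ℚ) < 1 / 60 := by
    apply one_div_lt_one_div_of_lt (by norm_num)
    linarith
  have hhalf : ∀ i, 1 / (n i : ℚ) ≤ 1 / 2 := fun i => by
    have h := klein_le 2 (by norm_num) (hn i)
    exact_mod_cast h
  have hthir : ∀ i, 1 / (30 : ℚ) ≤ 1 / (n i : ℚ) := fun i => klein_ge (hn i) (hn' i)
  have hterm : ∀ i, (1 / 4 : ℚ) ≤ (1 / (w i : ℚ)) * (1 - 1 / (n i : ℚ)) := by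
    intro i
    have h := hhalf i
    rcases hw i with h1 | h1
    · rw [h1]
      push_cast
      linarith
    · rw [h1]
      push_cast
      linarith
  have hcard : Fintype.card I ≤ 3 := by
    have h1 : (Fintype.card I : ℚ) * (1 / 4) ≤ ∑ i, (1 / (w i : ℚ)) * (1 - 1 / (n i : ℚ)) := by
      have h2 := Finset.card_nsmul_le_sum (Finset.univ : Finset I)
        (fun i => (1 / (w i : ℚ)) * (1 - 1 / (n i : ℚ))) (1 / 4) (fun i _ => hterm i)
      rw [nsmul_eq_mul, Finset.card_univ] at h2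
      exact h2
    rw [hsum] at h1
    by_contra h3
    push Not at h3
    have h4 : (4 : ℚ) ≤ (Fintype.card I : ℚ) := by exact_mod_cast h3
    linarith
  obtain ⟨k, hk⟩ : ∃ k, Fintype.card I = k := ⟨_, rfl⟩
  have e : I ≃ Fin k := Fintype.equivFinOfCardEq hk
  have hs : ∑ j : Fin k, (1 / (w (e.symm j) : ℚ)) * (1 - 1 / (n (e.symm j) : ℚ)) = 1 - 1 / (N : ℚ) := by
    rw [← hsum]
    exact Equiv.sum_comp e.symm (fun i => (1 / (w i : ℚ)) * (1 - 1 / (n i : ℚ)))
  have hk3 : k = 0 ∨ k = 1 ∨ k = 2 ∨ k = 3 := by omega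
  rcases hk3 with rfl | rfl | rfl | rfl
  · rw [Fin.sum_univ_zero] at hs
    linarith
  · rw [Fin.sum_univ_one] at hs
    have a1 := hhalf (e.symm 0)
    have a2 := hthir (e.symm 0)
    rcases hw (e.symm 0) with h0 | h0
    · rw [h0] at hs
      push_cast at hs
      linarith
    · rw [h0] at hs
      push_cast at hs
      linarith
  · rw [Fin.sum_univ_two] at hs
    have a1 := hhalf (e.symm 0)
    have a2 := hhalf (e.symm 1)
    rcases hw (e.symm 0) with h0 | h0
    · rcases hw (e.symm 1) with h1 | h1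
      · rw [h0, h1] at hs
        push_cast at hs
        linarith
      · rw [h0, h1] at hs
        refine klein_mixed (n (e.symm 0)) (n (e.symm 1)) (1 / (N : ℚ)) (hn _) (hn _) (hn' _) (hn' _) hx hx' ?_
        push_cast at hs
        linarith
    · rcases hw (e.symm 1) with h1 | h1
      · rw [h0, h1] at hs
        refine klein_mixed (n (e.symm 1)) (n (e.symm 0)) (1 / (N : ℚ)) (hn _) (hn _) (hn' _) (hn' _) hx hx' ?_
        push_cast at hs
        linarith
      · rw [h0, h1] at hs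
        push_cast at hs
        have a3 := hthir (e.symm 0)
        have a4 := hthir (e.symm 1)
        linarith
  · rw [Fin.sum_univ_three] at hs
    have a1 := hhalf (e.symm 0)
    have a2 := hhalf (e.symm 1)
    have a3 := hhalf (e.symm 2)
    have t1 := hterm (e.symm 0)
    have t2 := hterm (e.symm 1)
    have t3 := hterm (e.symm 2)
    rcases hw (e.symm 0) with h0 | h0
    · rw [h0] at hs t1
      push_cast at hs t1
      linarith
    · rcases hw (e.symm 1) with h1 | h1
      · rw [h1] at hs t2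
        push_cast at hs t2
        linarith
      · rcases hw (e.symm 2) with h2 | h2
        · rw [h2] at hs t3
          push_cast at hs t3
          linarith
        · rw [h0, h1, h2] at hs
          refine klein_triple (n (e.symm 0)) (n (e.symm 1)) (n (e.symm 2)) (1 / (N : ℚ)) (hn _) (hn _) (hn _) (hn' _) (hn' _) (hn' _)
            hx hx' ?_
          push_cast at hs
          linarith

end Pool.Agent.H51.FA
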