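import Pool.Agent.H51.FA.Klein

/-!
# FA Klein2: the list of the orders
-/

set_option autoImplicit false

open Finset

namespace Pool.Agent.H51.FA

/-- `1/b + 1/c = 1/2 + 2/N` -/
private theorem pair_list (b c N : ℕ) (hb : 2 ≤ b) (hc : 2 ≤ c) (hN : 2 ≤ N)
    (h : 1 / (b : ℚ) + 1 / (c : ℚ) = 1 / 2 + 2 * (1 / (N : ℚ))) :
    N = 2 * b ∨ N = 2 * c ∨ N = 12 ∨ N = 24 ∨ N = 60 := by
  have key : ∀ b c : ℕ, 2 ≤ b → 2 ≤ c → b ≤ c → 1 / (b : ℚ) + 1 / (c : ℚ) = 1 / 2 + 2 * (1 / (N : ℚ)) →
      N = 2 * c ∨ N = 12 ∨ N = 24 ∨ N = 60 := by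
    intro b c hb hc hbc h
    have hNq : (0 : ℚ) < (N : ℚ) := by exact_mod_cast (by omega : 0 < N)
    have hcq : (0 : ℚ) < (c : ℚ) := by exact_mod_cast (by omega : 0 < c)
    have hx : (0 : ℚ) < 1 / (N : ℚ) := by positivity
    by_cases h4 : 4 ≤ b
    · exfalso
      have h1 := klein_le 4 (by norm_num) h4
      have h2 := klein_le 4 (by norm_num) (h4.trans hbc)
      push_cast at h1 h2
      linarith
    · have h23 : b = 2 ∨ b = 3 := by omega
      rcases h23 with rfl | rfl
      · left
        have h1 : 1 / (c : ℚ) = 2 * (1 / (N : ℚ)) := by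
          push_cast at h
          linarith
        field_simp at h1
        have h2 : (N : ℚ) = 2 * (c : ℚ) := by linarith
        exact_mod_cast h2
      · have h1 : 1 / (c : ℚ) = 1 / 6 + 2 * (1 / (N : ℚ)) := by
          push_cast at h
          linarith
        by_cases h6 : 6 ≤ c
        · exfalso
          have h2 := klein_le 6 (by norm_num) h6
          push_cast at h2
          linarith
        · have h345 : c = 3 ∨ c = 4 ∨ c = 5 := by omega
          right
          rcases h345 with rfl | rfl | rfl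
          · left
            have h2 : 1 / (N : ℚ) = 1 / 12 := by
              push_cast at h1
              linarith
            field_simp at h2
            have h3 : (N : ℚ) = 12 := by linarith
            exact_mod_cast h3
          · right; left
            have h2 : 1 / (N : ℚ) = 1 / 24 := by
              push_cast at h1
              linarith
            field_simp at h2
            have h3 : (N : ℚ) = 24 := by linarith
            exact_mod_cast h3
          · right; right
            have h2 : 1 / (N : ℚ) = 1 / 60 := by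
              push_cast at h1
              linarith
            field_simp at h2
            have h3 : (N : ℚ) = 60 := by linarith
            exact_mod_cast h3
  rcases le_total b c with hbc | hbc
  · rcases key b c hb hc hbc h with h1 | h1 | h1 | h1 <;> omega
  · rcases key c b hc hb hbc (by rw [add_comm]; exact h) with h1 | h1 | h1 | h1 <;> omega

/-- `1/a + 1/b + 1/c = 1 + 2/N` -/
private theorem triple_list (a b c N : ℕ) (ha : 2 ≤ a) (hb : 2 ≤ b) (hc : 2 ≤ c) (hN : 2 ≤ N)
    (h : 1 / (a : ℚ) + 1 / (b : ℚ) + 1 / (c : ℚ) = 1 + 2 * (1 / (N : ℚ))) :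
    N = 2 * a ∨ N = 2 * b ∨ N = 2 * c ∨ N = 12 ∨ N = 24 ∨ N = 60 := by
  have hNq : (0 : ℚ) < (N : ℚ) := by exact_mod_cast (by omega : 0 < N)
  have hx : (0 : ℚ) < 1 / (N : ℚ) := by positivity
  by_cases h2a : a = 2
  · subst h2a
    rcases pair_list b c N hb hc hN (by push_cast at h; linarith) with h1 | h1 | h1 | h1 | h1 <;> omega
  by_cases h2b : b = 2
  · subst h2b
    rcases pair_list a c N ha hc hN (by push_cast at h; linarith) with h1 | h1 | h1 | h1 | h1 <;> omega
  by_cases h2c : c = 2
  · subst h2c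
    rcases pair_list a b N ha hb hN (by push_cast at h; linarith) with h1 | h1 | h1 | h1 | h1 <;> omega
  exfalso
  have h1 := klein_le 3 (by norm_num) (by omega : 3 ≤ a)
  have h2 := klein_le 3 (by norm_num) (by omega : 3 ≤ b)
  have h3 := klein_le 3 (by norm_num) (by omega : 3 ≤ c)
  push_cast at h1 h2 h3
  linarith

/-- Two indices with `w = 1` and `w = 2`. -/
private theorem mixed_list (a b N : ℕ) (ha : 2 ≤ a) (hb : 2 ≤ b) (hN : 2 ≤ N)
    (h : (1 - 1 / (a : ℚ)) + 1 / 2 * (1 - 1 / (b : ℚ)) = 1 - 1 / (N : ℚ)) : N = 2 * b ∨ N = 12 := by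
  have hNq : (0 : ℚ) < (N : ℚ) := by exact_mod_cast (by omega : 0 < N)
  have hbq : (0 : ℚ) < (b : ℚ) := by exact_mod_cast (by omega : 0 < b)
  have hx : (0 : ℚ) < 1 / (N : ℚ) := by positivity
  have h1 := klein_le 2 (by norm_num) hb
  push_cast at h1
  by_cases h4 : 4 ≤ a
  · exfalso
    have h2 := klein_le 4 (by norm_num) h4
    push_cast at h2
    linarith
  · have h23 : a = 2 ∨ a = 3 := by omega
    rcases h23 with rfl | rfl
    · left
      have h2 : 1 / (b : ℚ) = 2 * (1 / (N : ℚ)) := by
        push_cast at h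
        linarith
      field_simp at h2
      have h3 : (N : ℚ) = 2 * (b : ℚ) := by linarith
      exact_mod_cast h3
    · right
      have h5 : 1 / (b : ℚ) = 1 / 3 + 2 * (1 / (N : ℚ)) := by
        push_cast at h
        linarith
      by_cases h3' : 3 ≤ b
      · exfalso
        have h2 := klein_le 3 (by norm_num) h3'
        push_cast at h2
        linarith
      · have hb2 : b = 2 := by omega
        subst hb2
        have h2 : 1 / (N : ℚ) = 1 / 12 := by
          push_cast at h5
          linarith
        field_simp at h2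
        have h3 : (N : ℚ) = 12 := by linarith
        exact_mod_cast h3

theorem klein_list {I : Type} [Fintype I] (n w : I → ℕ) (N : ℕ) (hN : 2 ≤ N) (hn : ∀ i, 2 ≤ n i)
    (hw : ∀ i, w i = 1 ∨ w i = 2) (hdvd : ∀ i, w i * n i ∣ N)
    (hsum : ∑ i, (1 / (w i : ℚ)) * (1 - 1 / (n i : ℚ)) = 1 - 1 / (N : ℚ)) :
    (∃ i, N = n i ∨ N = 2 * n i) ∨ N = 12 ∨ N = 24 ∨ N = 60 := by
  have hNq : (0 : ℚ) < (N : ℚ) := by exact_mod_cast (by omega : 0 < N)
  have hx : (0 : ℚ) < 1 / (N : ℚ) := by positivity
  have hNle : 1 / (N : ℚ) ≤ 1 / 2 := by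
    have := klein_le 2 (by norm_num) hN
    exact_mod_cast this
  have hnpos : ∀ i, (0 : ℚ) < 1 / (n i : ℚ) := fun i => by
    have : (0 : ℚ) < (n i : ℚ) := by
      have := hn i
      exact_mod_cast (by omega : 0 < n i)
    positivity
  have hhalf : ∀ i, 1 / (n i : ℚ) ≤ 1 / 2 := fun i => by
    have h := klein_le 2 (by norm_num) (hn i)
    exact_mod_cast h
  have htwo : ∀ i, w i = 2 → 2 * (1 / (N : ℚ)) ≤ 1 / (n i : ℚ) := by
    intro i hi
    have h1 : 2 * n i ≤ N := by
      have := Nat.le_of_dvd (by omega) (hdvd i)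
      rwa [hi] at this
    have h2 : (2 : ℚ) * (n i : ℚ) ≤ (N : ℚ) := by exact_mod_cast h1
    have h3 : (0 : ℚ) < (n i : ℚ) := by
      have := hn i
      exact_mod_cast (by omega : 0 < n i)
    rw [mul_one_div, div_le_div_iff₀ hNq h3]
    linarith
  have hterm : ∀ i, (1 / 4 : ℚ) ≤ (1 / (w i : ℚ)) * (1 - 1 / (n i : ℚ)) := by
    intro i
    have h := hhalf i
    rcases hw i with h1 | h1
    · rw [h1]
      push_cast
      linarith
    · rw [h1]
      push_cast
      linarith
  have hcard : Fintype.card I ≤ 3 := by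
    have h1 : (Fintype.card I : ℚ) * (1 / 4) ≤ ∑ i, (1 / (w i : ℚ)) * (1 - 1 / (n i : ℚ)) := by
      have h2 := Finset.card_nsmul_le_sum (Finset.univ : Finset I)
        (fun i => (1 / (w i : ℚ)) * (1 - 1 / (n i : ℚ))) (1 / 4) (fun i _ => hterm i)
      rw [nsmul_eq_mul, Finset.card_univ] at h2
      exact h2
    rw [hsum] at h1
    by_contra h3
    push Not at h3
    have h4 : (4 : ℚ) ≤ (Fintype.card I : ℚ) := by exact_mod_cast h3
    linarith
  obtain ⟨k, hk⟩ : ∃ k, Fintype.card I = k := ⟨_, rfl⟩
  have e : I ≃ Fin k := Fintype.equivFinOfCardEq hk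
  have hs : ∑ j : Fin k, (1 / (w (e.symm j) : ℚ)) * (1 - 1 / (n (e.symm j) : ℚ)) = 1 - 1 / (N : ℚ) := by
    rw [← hsum]
    exact Equiv.sum_comp e.symm (fun i => (1 / (w i : ℚ)) * (1 - 1 / (n i : ℚ)))
  have hk3 : k = 0 ∨ k = 1 ∨ k = 2 ∨ k = 3 := by omega
  rcases hk3 with rfl | rfl | rfl | rfl
  · exfalso
    rw [Fin.sum_univ_zero] at hs
    linarith
  · rw [Fin.sum_univ_one] at hs
    have a1 := hnpos (e.symm 0)
    have a2 := hn (e.symm 0)
    rcases hw (e.symm 0) with h0 | h0
    · left
      refine ⟨e.symm 0, Or.inl ?_⟩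
      rw [h0] at hs
      have h1 : 1 / (n (e.symm 0) : ℚ) = 1 / (N : ℚ) := by
        push_cast at hs
        linarith
      have h2 : (n (e.symm 0) : ℚ) ≠ 0 := by
        exact_mod_cast (by omega : n (e.symm 0) ≠ 0)
      field_simp at h1
      exact_mod_cast h1
    · exfalso
      rw [h0] at hs
      push_cast at hs
      linarith
  · rw [Fin.sum_univ_two] at hs
    have a1 := hhalf (e.symm 0)
    have a2 := hhalf (e.symm 1)
    rcases hw (e.symm 0) with h0 | h0
    · rcases hw (e.symm 1) with h1 | h1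
      · exfalso
        rw [h0, h1] at hs
        push_cast at hs
        linarith
      · rw [h0, h1] at hs
        rcases mixed_list (n (e.symm 0)) (n (e.symm 1)) N (hn _) (hn _) hN (by push_cast at hs; linarith) with h2 | h2
        · exact Or.inl ⟨e.symm 1, Or.inr h2⟩
        · exact Or.inr (Or.inl h2)
    · rcases hw (e.symm 1) with h1 | h1
      · rw [h0, h1] at hs
        rcases mixed_list (n (e.symm 1)) (n (e.symm 0)) N (hn _) (hn _) hN (by push_cast at hs; linarith) with h2 | h2
        · exact Or.inl ⟨e.symm 0, Or.inr h2⟩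
        · exact Or.inr (Or.inl h2)
      · exfalso
        have b1 := htwo _ h0
        have b2 := htwo _ h1
        rw [h0, h1] at hs
        push_cast at hs
        linarith
  · rw [Fin.sum_univ_three] at hs
    have t1 := hterm (e.symm 0)
    have t2 := hterm (e.symm 1)
    have t3 := hterm (e.symm 2)
    have a1 := hhalf (e.symm 0)
    have a2 := hhalf (e.symm 1)
    have a3 := hhalf (e.symm 2)
    rcases hw (e.symm 0) with h0 | h0
    · exfalso
      rw [h0] at hs
      push_cast at hs t2 t3
      linarith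
    · rcases hw (e.symm 1) with h1 | h1
      · exfalso
        rw [h1] at hs
        push_cast at hs
        linarith
      · rcases hw (e.symm 2) with h2 | h2
        · exfalso
          rw [h2] at hs
          push_cast at hs
          linarith
        · rw [h0, h1, h2] at hs
          rcases triple_list (n (e.symm 0)) (n (e.symm 1)) (n (e.symm 2)) N (hn _) (hn _) (hn _) hN
            (by push_cast at hs; linarith) with h3 | h3 | h3 | h3 | h3 | h3
          · exact Or.inl ⟨_, Or.inr h3⟩
          · exact Or.inl ⟨_, Or.inr h3⟩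
          · exact Or.inl ⟨_, Or.inr h3⟩
          · exact Or.inr (Or.inl h3)
          · exact Or.inr (Or.inr (Or.inl h3))
          · exact Or.inr (Or.inr (Or.inr h3))

end Pool.Agent.H51.FA
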