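import Pool.Agent.H51.FA.Main

/-!
# FA List: the list of the orders, fixed points, stabilizers
-/

set_option autoImplicit false

namespace Pool.Agent.H51.FA

theorem Core.card_list (M : Core) :
    (∃ h : M.H, Nat.card M.H = orderOf h ∨ Nat.card M.H = 2 * orderOf h) ∨
      Nat.card M.H = 12 ∨ Nat.card M.H = 24 ∨ Nat.card M.H = 60 := by
  by_cases h2 : 2 ≤ Nat.card M.H
  · rcases FA.card_list (ax M) (self_mem_ax M) (fun h g h1 g1 hg => ax_eq M h g h1 g1 hg)
      (fun h s g h1 => mem_ax_conj M h s g h1)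
      (fun h h1 s hs s' hs' hn hn' => norm_step M h h1 s s' hs hs' hn hn') h2 with ⟨h, h1, h3⟩ | h3
    · obtain ⟨g, hg⟩ := card_ax M h h1
      rw [hg] at h3
      exact Or.inl ⟨g, h3⟩
    · exact Or.inr h3
  · left
    refine ⟨1, Or.inl ?_⟩
    have h3 : 0 < Nat.card M.H := Nat.card_pos
    rw [orderOf_one]
    omega

theorem order_ker_le (S : Surface) (h : S.rho.ker) : orderOf h ≤ 25 := by
  have h1 := orderOf_le S (h : S.G) h.2
  rwa [Subgroup.orderOf_coe] at h1

theorem ncard_fixedBy (S : Surface) (h : S.rho.ker) (h1 : h ≠ 1) : (MulAction.fixedBy S.X h).ncard = 4 := by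
  have hne : (h : S.G) ≠ 1 := fun h2 => h1 (Subtype.ext h2)
  have h2 : MulAction.fixedBy S.X h = (S.isoFix (h : S.G) : Set S.X) := by
    ext x
    rw [Finset.mem_coe, mem_isoFix_iff S h hne h.2]
    rfl
  rw [h2, Set.ncard_coe_finset, card_isoFix S h hne h.2]

theorem isCyclic_stabilizer (S : Surface) (x : S.X) : IsCyclic (MulAction.stabilizer S.rho.ker x) :=
  stabilizer_isCyclic (core S) x

theorem card_ker_list (S : Surface) :
    (∃ h : S.rho.ker, Nat.card S.rho.ker = orderOf h ∨ Nat.card S.rho.ker = 2 * orderOf h) ∨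
      Nat.card S.rho.ker = 12 ∨ Nat.card S.rho.ker = 24 ∨ Nat.card S.rho.ker = 60 :=
  Core.card_list (core S)

end Pool.Agent.H51.FA
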