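import Pool.Agent.H51.FA.Defs

/-!
# FA Num: the bound for the order, pure arithmetic

`g ≥ 1`, `g + δ = P` (`P = (r+1)(s+1)`), `2g - 2 = n (2 g₀ - 2) + ∑ (n - k)`, `∑ k (k-1) ≤ 2δ`, `1 ≤ k`, `2k ≤ n`.  With `φ = |Ω|`:
`n (2g₀ - 2 + φ) = 2g - 2 + ∑ k ≤ 2P - 2 + ∑ k (2 - k) ≤ 2P - 2 + φ`.  `g₀ = 0`: `φ ≥ 3` (otherwise the left side is `≤ 0 < ∑ k`, or `φ = 0`, `2g - 2 = -2n < 0`), so
`n (φ - 2) ≤ 2P - 2 + φ`, `n ≤ 2P + 1` (`(2P - 2 + φ)/(φ - 2) ≤ 2P + 1`).  `g₀ = 1`: `φ = 0` excluded by `hΩ`, `n φ ≤ 2P - 2 + φ`, `n ≤ 2P - 1`.  `g₀ ≥ 2`: `n (2 + φ) ≤ 2P - 2 + φ`,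
`n ≤ 2P - 1`.  So `n ≤ 2P + 1` in all cases.
-/

set_option autoImplicit false

namespace Pool.Agent.H51.FA

theorem order_bound {Ω : Type} [Fintype Ω] (k : Ω → ℕ) (n g g₀ δ P : ℕ) (hg : 1 ≤ g) (hP : g + δ = P) (hk : ∀ ω, 1 ≤ k ω ∧ 2 * k ω ≤ n)
    (hRH : 2 * (g : ℤ) - 2 = n * (2 * (g₀ : ℤ) - 2) + ∑ ω, ((n : ℤ) - k ω)) (hδ : ∑ ω, k ω * (k ω - 1) ≤ 2 * δ)
    (hΩ : IsEmpty Ω → g₀ ≠ 1) : n ≤ 2 * P + 1 := by
  classical
  -- the sum of the `k ω`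
  have hK1 : Fintype.card Ω ≤ ∑ ω, k ω := by
    calc Fintype.card Ω = ∑ _ω : Ω, 1 := by simp
      _ ≤ ∑ ω, k ω := Finset.sum_le_sum fun ω _ => (hk ω).1
  have hK2 : ∑ ω, k ω ≤ Fintype.card Ω + 2 * δ := by
    calc ∑ ω, k ω ≤ ∑ ω, (1 + k ω * (k ω - 1)) := by
          refine Finset.sum_le_sum fun ω _ => ?_
          have h1 := (hk ω).1
          obtain ⟨m, hm⟩ : ∃ m, k ω = m + 1 := ⟨k ω - 1, by omega⟩
          rw [hm]
          have : m ≤ (m + 1) * (m + 1 - 1) := by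
            rw [Nat.add_sub_cancel]
            nlinarith
          omega
      _ = Fintype.card Ω + ∑ ω, k ω * (k ω - 1) := by
          rw [Finset.sum_add_distrib]; simp
      _ ≤ Fintype.card Ω + 2 * δ := by omega
  have hsum : ∑ ω, ((n : ℤ) - k ω) = (Fintype.card Ω : ℤ) * n - ((∑ ω, k ω : ℕ) : ℤ) := by
    rw [Finset.sum_sub_distrib]
    push_cast
    simp
  have hcard0 : Fintype.card Ω = 0 → g₀ ≠ 1 := fun h => hΩ (Fintype.card_eq_zero_iff.1 h)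
  rw [hsum] at hRH
  generalize Fintype.card Ω = φ at *
  generalize (∑ ω, k ω) = K at *
  by_contra hn
  push Not at hn
  -- everything in `ℤ`
  have e1 : (φ : ℤ) ≤ K := by exact_mod_cast hK1
  have e2 : (K : ℤ) ≤ φ + 2 * δ := by exact_mod_cast hK2
  have e3 : (2 * P + 2 : ℤ) ≤ n := by exact_mod_cast hn
  have e4 : (1 : ℤ) ≤ g := by exact_mod_cast hg
  have e5 : (g : ℤ) + δ = P := by exact_mod_cast hP
  have eP : (0 : ℤ) ≤ P := by positivity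
  have eδ : (0 : ℤ) ≤ δ := by positivity
  have main : (n : ℤ) * (2 * g₀ - 2 + φ) = 2 * g - 2 + K := by linarith
  rcases Nat.lt_trichotomy g₀ 1 with h | h | h
  · have h0 : g₀ = 0 := by omega
    subst h0
    by_cases h3 : 3 ≤ φ
    · have e6 : (3 : ℤ) ≤ φ := by exact_mod_cast h3
      have : (2 * P + 2 : ℤ) * (φ - 2) ≤ n * (φ - 2) := mul_le_mul_of_nonneg_right e3 (by linarith)
      push_cast at main
      nlinarith
    · push_cast at main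
      have h4 : φ = 0 ∨ φ = 1 ∨ φ = 2 := by omega
      rcases h4 with h4 | h4 | h4 <;> subst h4 <;> push_cast at * <;> nlinarith
  · subst h
    have hφ : 1 ≤ φ := by
      by_contra h5
      exact hcard0 (by omega) rfl
    have e6 : (1 : ℤ) ≤ φ := by exact_mod_cast hφ
    have : (2 * P + 2 : ℤ) * φ ≤ n * φ := mul_le_mul_of_nonneg_right e3 (by linarith)
    push_cast at main
    nlinarith
  · have e6 : (2 : ℤ) ≤ g₀ := by exact_mod_cast h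
    have eφ : (0 : ℤ) ≤ φ := by positivity
    have : (2 * P + 2 : ℤ) * (2 + φ) ≤ n * (2 * g₀ - 2 + φ) :=
      mul_le_mul e3 (by linarith) (by linarith) (by linarith)
    nlinarith

end Pool.Agent.H51.FA
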