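import Pool.Agent.H51.FA.Ram
import Pool.Agent.H51.FA.Num

/-!
# FA Ord: elements trivial on `H²` have order at most 25

`D` from `divisor`, of class `(2, 3)`.  Some `c` has `D c > 0`.  Let `m` be the size of the orbit of `c` under `⟨h⟩` (`m` = least positive with `h^m • c = c`,
`m ∣ orderOf h`); all its elements have the class `(r, s)` of `c` and `D ≥ 1`, all classes are `≥ 0` (`nonneg`), so `m r ≤ 2`, `m s ≤ 3`.  `h' = h^m` fixes `c`,
`n' = orderOf h' = n / m`.  If `h' = 1` then `n = m ≤ 3`.  Otherwise `ram_data` and `order_bound` with `P = (r+1)(s+1)` (`adjunction`), `genus_pos`; if `Ω` is empty and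
`g₀ = 1` then `n' ∣ r`, `n' ∣ s`, so `n' ≤ 3` and `n ≤ 9`.  `m = 1`: `P ≤ 12`, `n ≤ 25`.  `m = 2`: `(r, s) ≤ (1, 1)`, `P ≤ 4`, `n' ≤ 9`, `n ≤ 18`.  `m = 3`: `(r, s) = (0, 1)`, `P = 2`,
`n' ≤ 5`, `n ≤ 15`.  (`m ≤ 3` since `(r, s) ≠ 0`.)
-/

set_option autoImplicit false

namespace Pool.Agent.H51.FA

private lemma cls_pow (S : Surface) (h : S.G) (hr : S.rho h = 1) (c : S.C) (i : ℕ) :
    S.cls (h ^ i • c) = S.cls c := by
  rw [S.cls_smul, map_pow, hr, one_pow]
  rfl

private lemma D_pow (S : Surface) (h : S.G) (D : S.C →₀ ℕ) (hD : ∀ c, D (h • c) = D c) (c : S.C)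
    (i : ℕ) : D (h ^ i • c) = D c := by
  induction i with
  | zero => rw [pow_zero, one_smul]
  | succ i ih => rw [pow_succ', mul_smul, hD, ih]

private lemma inj_pow (S : Surface) (h : S.G) (c : S.C) {i j : ℕ} (hij : i ≤ j)
    (hj : j < MulAction.period h c) (e : h ^ i • c = h ^ j • c) : i = j := by
  have h1 : h ^ (j - i) • c = c := by
    have h2 : h ^ i • (h ^ (j - i) • c) = h ^ i • c := by
      rw [← mul_smul, ← pow_add, show i + (j - i) = j by omega, e]
    exact (MulAction.injective (h ^ i)) h2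
  have h3 : MulAction.period h c ∣ j - i := MulAction.pow_smul_eq_iff_period_dvd.1 h1
  have h4 : j - i = 0 := Nat.eq_zero_of_dvd_of_lt h3 (by omega)
  omega

private lemma sum_bound (S : Surface) (h : S.G) (hr : S.rho h = 1) (D : S.C →₀ ℕ)
    (hD : ∀ c, D (h • c) = D c) (c : S.C) (hc : D c ≠ 0) (φ : Cl →ₗ[ℤ] ℤ)
    (hφ : ∀ c, 0 ≤ φ (S.cls c)) :
    (MulAction.period h c : ℤ) * φ (S.cls c) ≤ φ (D.sum fun c m => m • S.cls c) := by
  classical
  have hinj : Set.InjOn (fun i : ℕ => h ^ i • c) (Finset.range (MulAction.period h c) : Set ℕ) := by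
    intro i hi j hj e
    have hi' : i < MulAction.period h c := by simpa using hi
    have hj' : j < MulAction.period h c := by simpa using hj
    rcases le_total i j with hij | hij
    · exact inj_pow S h c hij hj' e
    · exact (inj_pow S h c hij hi' e.symm).symm
  have hsub : (Finset.range (MulAction.period h c)).image (fun i => h ^ i • c) ⊆ D.support := by
    intro x hx
    obtain ⟨i, -, rfl⟩ := Finset.mem_image.1 hx
    rw [Finsupp.mem_support_iff, D_pow S h D hD]
    exact hc
  have hn : ∀ x, 0 ≤ φ (D x • S.cls x) := by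
    intro x
    rw [map_nsmul, nsmul_eq_mul]
    exact mul_nonneg (Nat.cast_nonneg _) (hφ x)
  unfold Finsupp.sum
  rw [map_sum]
  calc (MulAction.period h c : ℤ) * φ (S.cls c)
      = ∑ i ∈ Finset.range (MulAction.period h c), φ (S.cls c) := by
        rw [Finset.sum_const, Finset.card_range, nsmul_eq_mul]
    _ ≤ ∑ i ∈ Finset.range (MulAction.period h c), φ (D (h ^ i • c) • S.cls (h ^ i • c)) := by
        refine Finset.sum_le_sum fun i _ => ?_
        rw [cls_pow S h hr, D_pow S h D hD, map_nsmul, nsmul_eq_mul]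
        have h1 : (1 : ℤ) ≤ (D c : ℤ) := by exact_mod_cast Nat.one_le_iff_ne_zero.2 hc
        nlinarith [hφ c]
    _ = ∑ x ∈ (Finset.range (MulAction.period h c)).image (fun i => h ^ i • c),
          φ (D x • S.cls x) := by rw [Finset.sum_image hinj]
    _ ≤ _ := Finset.sum_le_sum_of_subset_of_nonneg hsub fun x _ _ => hn x

theorem orderOf_le (S : Surface) (h : S.G) (hr : S.rho h = 1) : orderOf h ≤ 25 := by
  obtain ⟨D, hD, hsum⟩ := S.divisor h hr
  have hne : ∃ c, D c ≠ 0 := by
    by_contra hcon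
    push Not at hcon
    have h0 : D = 0 := Finsupp.ext hcon
    rw [h0, Finsupp.sum_zero_index] at hsum
    have := congrArg Prod.fst hsum
    simp at this
  obtain ⟨c, hc⟩ := hne
  have hmr := sum_bound S h hr D hD c hc (LinearMap.fst ℤ ℤ ℤ) fun c => (nonneg S c).1
  have hms := sum_bound S h hr D hD c hc (LinearMap.snd ℤ ℤ ℤ) fun c => (nonneg S c).2
  rw [hsum] at hmr hms
  simp only [LinearMap.fst_apply, LinearMap.snd_apply] at hmr hms
  have hr0 := (nonneg S c).1
  have hs0 := (nonneg S c).2
  have hrs : 1 ≤ (S.cls c).1 ∨ 1 ≤ (S.cls c).2 := by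
    by_contra hcon
    push Not at hcon
    exact S.cls_ne c (Prod.ext (by simp; omega) (by simp; omega))
  have hadj := S.adjunction c
  simp only [ip, KX] at hadj
  have hpos : 0 < MulAction.period h c :=
    MulAction.period_pos_of_orderOf_pos (orderOf_pos h) c
  have hdvd : MulAction.period h c ∣ orderOf h := MulAction.period_dvd_orderOf h c
  have hfix : h ^ MulAction.period h c • c = c := MulAction.pow_period_smul h c
  have hord : orderOf (h ^ MulAction.period h c) = orderOf h / MulAction.period h c :=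
    orderOf_pow_of_dvd hpos.ne' hdvd
  have hmul : orderOf h = MulAction.period h c * orderOf (h ^ MulAction.period h c) := by
    rw [hord, Nat.mul_div_cancel' hdvd]
  have hpos' : 0 < orderOf (h ^ MulAction.period h c) := orderOf_pos _
  have hr' : S.rho (h ^ MulAction.period h c) = 1 := by rw [map_pow, hr, one_pow]
  by_cases h1 : h ^ MulAction.period h c = 1
  · rw [h1, orderOf_one, mul_one] at hmul
    rw [hmul]
    have hm3 : (MulAction.period h c : ℤ) ≤ 3 := by
      rcases hrs with g | g
      · nlinarith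
      · nlinarith
    omega
  obtain ⟨Ω, hΩ, k, g₀, hk, hRH, hδ, hE⟩ := ram_data S _ h1 hr' c hfix
  generalize hN : orderOf (h ^ MulAction.period h c) = N at *
  generalize MulAction.period h c = m at *
  generalize (S.cls c).1 = r at *
  generalize (S.cls c).2 = s at *
  rw [hmul]
  have hm1 : (1 : ℤ) ≤ m := by exact_mod_cast hpos
  have hN1 : (1 : ℤ) ≤ N := by exact_mod_cast hpos'
  have hm3 : (m : ℤ) ≤ 3 := by
    rcases hrs with g | g
    · nlinarith
    · nlinarith
  have hr2 : r ≤ 2 := by nlinarith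
  have hs3 : s ≤ 3 := by nlinarith
  by_cases hcase : IsEmpty Ω ∧ g₀ = 1
  · obtain ⟨d1, d2⟩ := hE hcase.1
    have hN3 : (N : ℤ) ≤ 3 := by
      rcases hrs with g | g
      · exact (Int.le_of_dvd (by omega) d1).trans (by omega)
      · exact (Int.le_of_dvd (by omega) d2).trans hs3
    have hN3' : N ≤ 3 := by exact_mod_cast hN3
    have hm3' : m ≤ 3 := by exact_mod_cast hm3
    calc m * N ≤ 3 * 3 := Nat.mul_le_mul hm3' hN3'
      _ ≤ 25 := by norm_num
  · have hb := order_bound k N (S.genus c) g₀ (S.delta c) (S.genus c + S.delta c) (genus_pos S c) rfl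
      hk hRH hδ fun he hg => hcase ⟨he, hg⟩
    have hP : ((S.genus c + S.delta c : ℕ) : ℤ) = (r + 1) * (s + 1) := by
      push_cast
      linarith
    have hb' : (N : ℤ) ≤ 2 * ((r + 1) * (s + 1)) + 1 := by
      rw [← hP]
      exact_mod_cast hb
    have hm' : m = 1 ∨ m = 2 ∨ m = 3 := by omega
    have hfin : (m : ℤ) * N ≤ 25 := by
      rcases hm' with rfl | rfl | rfl
      · push_cast at *
        nlinarith
      · push_cast at *
        have hr1 : r ≤ 1 := by omega
        have hs1 : s ≤ 1 := by omega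
        nlinarith
      · push_cast at *
        have hr1 : r ≤ 0 := by omega
        have hs1 : s ≤ 1 := by omega
        nlinarith
    exact_mod_cast hfin

end Pool.Agent.H51.FA
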