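import Pool.Agent.H51.FA.Grp
import Pool.Agent.H51.FA.Iso
import Pool.Agent.H51.FA.Ord

/-!
# FA Main: at most 120 automorphisms
-/

set_option autoImplicit false

namespace Pool.Agent.H51.FA

theorem card_ker_le (S : Surface) : Nat.card S.rho.ker ≤ 60 := by
  obtain ⟨M, e, -⟩ := exists_core S
  have h := M.card_le (fun h => by
    have h1 := orderOf_le S (e h : S.G) (e h).2
    have h2 : orderOf h = orderOf (e h : S.G) := by
      rw [← MulEquiv.orderOf_eq e h, Subgroup.orderOf_coe]
    omega)
  rwa [Nat.card_congr e.toEquiv] at h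

theorem card_aut_le (S : Surface) : Nat.card S.G ≤ 120 := by
  have h1 := card_le_two_mul S
  have h2 := card_ker_le S
  omega

end Pool.Agent.H51.FA
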