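import Pool.Agent.H51.FA.Pair

/-!
# FA Norm: an axis has index at most 2 in its normalizer

`S = ax h`, cyclic, `N` its normalizer.  `N / S` acts freely on the four points `fx h` (a stabilizer of a point is `S`, `stabilizer_eq`), so every
`s ∈ N` with one fixed point in `fx h` is in `S`.
(a) An odd prime `p` divides `|S|`: `c ∈ S` of order `p`, `ax c = S`, `fx c = fx h`; `s ∈ N` normalises `⟨c⟩` (the unique subgroup of order `p` of the
cyclic group `S`).  For `s, s' ∈ N \ S`: `s c s⁻¹ = c⁻¹ = s' c s'⁻¹` (`fix_or_inv`), so `s s'` and `s⁻¹ s'` commute with `c`, so (`fix_of_comm`)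
`s⁻¹ s' ∈ S`.
(b) `|S| = 2^a ≥ 4`: `g ∈ S` of order 4, `⟨g⟩` normalised by `N`; `s g s⁻¹ ∈ {g, g⁻¹}`.  If `s g s⁻¹ = g` then `s ∈ S`: `z = g²` has order 2,
`fx z = fx g = fx h`; `s² ` is trivial on `fx z` (`smul_smul_fx`), so `om L (s²) g = 1` (`om_eq_one`), `om L s g ^ 2 = 1`, `om L s z = om L s g ^ 2 = 1`
for `L = E, F`: `s ∈ ax z = S` (`mem_ax_of_om`).  For `s, s' ∈ N \ S`: `s⁻¹ s'` commutes with `g`, so it is in `S`.
(c) `|S| = 2`, `S = {1, z}`: see V8: there are no `s, s'` commuting with `z` such that `s, s', s s'` are all outside `S`.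
-/

set_option autoImplicit false

namespace Pool.Agent.H51.FA

/-- conjugation by an element of the normalizer of a cyclic subgroup is a power map -/
private theorem conj_zpow {H : Type} [Group H] (S : Subgroup H) (hS : IsCyclic S) (s : H)
    (hs : s ∈ Subgroup.normalizer (S : Set H)) : ∃ m : ℤ, ∀ g ∈ S, s * g * s⁻¹ = g ^ m := by
  have key : ∀ g ∈ S, s * g * s⁻¹ ∈ S := fun g hg => (Subgroup.mem_normalizer_iff.1 hs g).1 hg
  let σ : S →* S :=
    { toFun := fun g => ⟨s * g * s⁻¹, key g g.2⟩
      map_one' := by ext; simp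
      map_mul' := by
        intro a b
        ext
        simp only [Subgroup.coe_mul]
        group }
  obtain ⟨m, hm⟩ := MonoidHom.map_cyclic σ
  refine ⟨m, fun g hg => ?_⟩
  have h2 := congrArg Subtype.val (hm ⟨g, hg⟩)
  simpa [σ] using h2

private theorem orderOf_conj' {H : Type} [Group H] (s g : H) : orderOf (s * g * s⁻¹) = orderOf g := by
  have := orderOf_injective (MulAut.conj s).toMonoidHom (MulAut.conj s).injective g
  simpa [MulAut.conj_apply] using this

/-- commuting with an element of order 4 of an axis -/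
private theorem mem_of_comm_four (M : Core) (h g : M.H) (h1 : h ≠ 1) (hg : g ∈ ax M h) (ho : orderOf g = 4) (t : M.H)
    (ht : t * g = g * t) : t ∈ ax M h := by
  have g1 : g ≠ 1 := by
    rintro rfl
    simp at ho
  have hz : orderOf (g * g) = 2 := by
    have := orderOf_pow_of_dvd (x := g) (n := 2) (by norm_num) (by rw [ho]; norm_num)
    rw [ho, pow_two] at this
    simpa using this
  have hzS : g * g ∈ ax M h := mul_mem hg hg
  have z1 : g * g ≠ 1 := by
    intro hh
    rw [hh] at hz
    simp at hz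
  have hfz : M.fx (g * g) = M.fx h := fx_eq M h (g * g) h1 z1 hzS
  have haz : ax M (g * g) = ax M h := ax_eq M h (g * g) h1 z1 hzS
  have htz : t * (g * g) = (g * g) * t := by
    rw [← mul_assoc, ht, mul_assoc, ht, mul_assoc]
  obtain ⟨x, hx⟩ : (M.fx h).Nonempty := by
    rw [← Finset.card_pos, M.card_fx h h1]
    norm_num
  have : Nonempty M.X := ⟨x⟩
  have hpz : (orderOf (g * g)).Prime := by rw [hz]; exact Nat.prime_two
  have hsq : t • t • x = x := by
    refine smul_smul_fx M (g * g) t hpz ?_ x (by rw [hfz]; exact hx)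
    rw [htz, mul_inv_cancel_right]
    exact Subgroup.mem_zpowers _
  have hgx : g • x = x := hg x hx
  have htt : (t * t) * g = g * (t * t) := by
    rw [mul_assoc, ht, ← mul_assoc, ht, mul_assoc]
  have hx2 : (t * t) • x = x := by rw [mul_smul]; exact hsq
  have hom : ∀ L : LiftGroup M.H M.X, om L t (g * g) = 1 := by
    intro L
    have e1 := om_eq_one L (t * t) g htt x hgx hx2
    rw [om_mul_left L t t g ht ht] at e1
    rw [om_mul_right L t g g ht ht, e1]
  rw [← haz]
  exact mem_ax_of_om M (g * g) t hpz htz (hom _) (hom _)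

/-- (a) and (b) -/
theorem index_big (M : Core) (h : M.H) (h1 : h ≠ 1) (h2 : 2 < Nat.card (ax M h)) (s s' : M.H) (hs : s ∈ Subgroup.normalizer (ax M h : Set M.H))
    (hs' : s' ∈ Subgroup.normalizer (ax M h : Set M.H)) (hn : s ∉ ax M h) (hn' : s' ∉ ax M h) : s⁻¹ * s' ∈ ax M h := by
  have hcyc := ax_isCyclic M h h1
  obtain ⟨m, hm⟩ := conj_zpow (ax M h) hcyc s hs
  obtain ⟨m', hm'⟩ := conj_zpow (ax M h) hcyc s' hs'
  have comm_of_inv : ∀ c : M.H, s * c * s⁻¹ = c⁻¹ → s' * c * s'⁻¹ = c⁻¹ → (s⁻¹ * s') * c * (s⁻¹ * s')⁻¹ = c := by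
    intro c e1 e2
    have e3 : s⁻¹ * c⁻¹ * s = c := by
      rw [← e1]
      group
    calc (s⁻¹ * s') * c * (s⁻¹ * s')⁻¹ = s⁻¹ * (s' * c * s'⁻¹) * s := by group
      _ = c := by rw [e2, e3]
  rcases Nat.eq_two_pow_or_exists_odd_prime_and_dvd (Nat.card (ax M h)) with ⟨k, hk⟩ | ⟨p, hp, hpd, hpo⟩
  · -- order a power of two
    have hk2 : 2 ≤ k := by
      by_contra hlt
      have : k = 0 ∨ k = 1 := by omega
      rcases this with rfl | rfl
      · rw [pow_zero] at hk; omega
      · rw [pow_one] at hk; omega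
    have h4 : 4 ∣ Nat.card (ax M h) := by
      rw [hk]
      exact ⟨2 ^ (k - 2), by
        rw [show (4 : ℕ) = 2 ^ 2 by norm_num, ← pow_add]
        congr 1
        omega⟩
    obtain ⟨γ, hγ⟩ := IsCyclic.exists_ofOrder_eq_natCard (α := ax M h)
    have hpos : 0 < Nat.card (ax M h) := Nat.card_pos
    have hord4 : orderOf (γ ^ (Nat.card (ax M h) / 4)) = 4 := by
      have h4' : Nat.card (ax M h) / 4 ≠ 0 := by
        have := Nat.le_of_dvd hpos h4
        omega
      rw [orderOf_pow_of_dvd h4' (by rw [hγ]; exact Nat.div_dvd_of_dvd h4), hγ]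
      exact Nat.div_div_self h4 hpos.ne'
    set gS := γ ^ (Nat.card (ax M h) / 4) with hgS
    have hg : (gS : M.H) ∈ ax M h := gS.2
    have ho : orderOf (gS : M.H) = 4 := by rw [Subgroup.orderOf_coe]; exact hord4
    generalize (gS : M.H) = g at hg ho
    -- the action on an element of order four
    have alt : ∀ (t : M.H) (n : ℤ), t * g * t⁻¹ = g ^ n → t * g * t⁻¹ = g ∨ t * g * t⁻¹ = g⁻¹ := by
      intro t n htn
      have ho' : orderOf (t * g * t⁻¹) = 4 := by rw [orderOf_conj', ho]
      have hmod : g ^ n = g ^ (n % 4) := by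
        have := zpow_mod_orderOf g n
        rw [ho] at this
        exact_mod_cast this.symm
      have hr : n % 4 = 0 ∨ n % 4 = 1 ∨ n % 4 = 2 ∨ n % 4 = 3 := by omega
      rcases hr with hr | hr | hr | hr
      · exfalso
        rw [htn, hmod, hr, zpow_zero, orderOf_one] at ho'
        omega
      · left
        rw [htn, hmod, hr, zpow_one]
      · exfalso
        have h2' : (t * g * t⁻¹) ^ 2 = 1 := by
          rw [htn, hmod, hr]
          have : g ^ 4 = 1 := by rw [← ho]; exact pow_orderOf_eq_one g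
          calc (g ^ (2 : ℤ)) ^ 2 = g ^ 4 := by
                rw [← zpow_natCast, ← zpow_mul, ← zpow_natCast]
                norm_num
            _ = 1 := this
        have := orderOf_dvd_of_pow_eq_one h2'
        rw [ho'] at this
        omega
      · right
        rw [htn, hmod, hr]
        have : g ^ 4 = 1 := by rw [← ho]; exact pow_orderOf_eq_one g
        rw [eq_inv_iff_mul_eq_one]
        calc g ^ (3 : ℤ) * g = g ^ 4 := by
              rw [← zpow_add_one, ← zpow_natCast]
              norm_num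
          _ = 1 := this
    have inv_of : ∀ (t : M.H) (n : ℤ), t * g * t⁻¹ = g ^ n → t ∉ ax M h → t * g * t⁻¹ = g⁻¹ := by
      intro t n htn hnt
      rcases alt t n htn with e | e
      · exact absurd (mem_of_comm_four M h g h1 hg ho t (by rw [← mul_inv_eq_iff_eq_mul]; exact e)) hnt
      · exact e
    have e1 := inv_of s m (hm g hg) hn
    have e2 := inv_of s' m' (hm' g hg) hn'
    have e3 := comm_of_inv g e1 e2
    exact mem_of_comm_four M h g h1 hg ho _ (by rw [← mul_inv_eq_iff_eq_mul]; exact e3)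
  · -- an odd prime divides the order
    have : Fact p.Prime := ⟨hp⟩
    obtain ⟨cS, hcS⟩ := exists_prime_orderOf_dvd_card' p hpd
    have hc : (cS : M.H) ∈ ax M h := cS.2
    have ho : orderOf (cS : M.H) = p := by rw [Subgroup.orderOf_coe]; exact hcS
    generalize (cS : M.H) = c at hc ho
    have c1 : c ≠ 1 := by
      rintro rfl
      rw [orderOf_one] at ho
      exact hp.one_lt.ne ho
    have hfc : M.fx c = M.fx h := fx_eq M h c h1 c1 hc
    have hac : ax M c = ax M h := ax_eq M h c h1 c1 hc
    have hpc : (orderOf c).Prime := by rw [ho]; exact hp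
    have hc2 : orderOf c ≠ 2 := by
      rw [ho]
      rintro rfl
      exact absurd hpo (by decide)
    have inv_of : ∀ (t : M.H) (n : ℤ), t * c * t⁻¹ = c ^ n → t ∉ ax M h → t * c * t⁻¹ = c⁻¹ := by
      intro t n htn hnt
      rcases fix_or_inv M c t hpc hc2 (by rw [htn]; exact Subgroup.zpow_mem_zpowers c n) with e | e
      · exact absurd (hac ▸ e : t ∈ ax M h) hnt
      · exact e
    have e3 := comm_of_inv c (inv_of s m (hm c hc) hn) (inv_of s' m' (hm' c hc) hn')
    rw [← hac]
    exact fix_of_comm M c (s⁻¹ * s') hpc hc2 e3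

end Pool.Agent.H51.FA
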