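import Pool.Agent.H51.FA.Axis

/-!
# FA Pair: the commutator pairings

For commuting `s, h` the lifts `t, u` to `E` satisfy `t u t⁻¹ = sc z * u`; `z = om L s h` does not depend on the lifts.  Definition through
`Classical.choose`; all properties are formal: `om (s s') h = om s h * om s' h`, `om s (h h') = om s h * om s h'` (for commuting elements),
`om h h = 1`, `om h s = (om s h)⁻¹`, and for `x ∈ fx h`: `wt u x = om s h * wt u (s • x)` (`wt_conj`: `wt u x = wt (t u t⁻¹) (s • x)`).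
`om_ne`: `c` of prime order, `s` commutes with `c` and `om = 1` for both `E` and `F`: then the weights of `c` at `x` and `s • x` are equal, so
`s • x = x` for all `x ∈ fx c` (`exists_ne_wt`), i.e. `s ∈ ax c`.
-/

set_option autoImplicit false

namespace Pool.Agent.H51.FA

open Classical in
/-- the commutator of lifts of `s` and `h` -/
noncomputable def om {H X : Type} [Group H] [MulAction H X] (L : LiftGroup H X) (s h : H) : ℂˣ :=
  if hc : ∃ (t u : L.T) (z : ℂˣ), L.pr t = s ∧ L.pr u = h ∧ t * u * t⁻¹ = L.sc z * u then hc.choose_spec.choose_spec.choose else 1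

private theorem sc_inj {H X : Type} [Group H] [MulAction H X] [Nonempty X] (L : LiftGroup H X) {z w : ℂˣ} (h : L.sc z = L.sc w) :
    z = w := by
  obtain ⟨x⟩ := ‹Nonempty X›
  rw [← L.wt_sc z x, ← L.wt_sc w x, h]

private theorem exists_lift {H X : Type} [Group H] [MulAction H X] (L : LiftGroup H X) (t t' : L.T) (h : L.pr t = L.pr t') :
    ∃ a, t = L.sc a * t' := by
  obtain ⟨a, ha⟩ := L.ker_sc (t * t'⁻¹) (by rw [map_mul, map_inv, h, mul_inv_cancel])
  exact ⟨a, by rw [← ha, inv_mul_cancel_right]⟩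

private theorem om_spec' {H X : Type} [Group H] [MulAction H X] (L : LiftGroup H X) (s h : H) (hc : s * h = h * s) (t u : L.T)
    (ht : L.pr t = s) (hu : L.pr u = h) : t * u * t⁻¹ = L.sc (om L s h) * u := by
  have hex : ∃ (t u : L.T) (z : ℂˣ), L.pr t = s ∧ L.pr u = h ∧ t * u * t⁻¹ = L.sc z * u := by
    obtain ⟨z, hz⟩ := exists_lift L (t * u * t⁻¹) u (by
      rw [map_mul, map_mul, map_inv, ht, hu, hc, mul_inv_cancel_right])
    exact ⟨t, u, z, ht, hu, hz⟩
  have hom : om L s h = hex.choose_spec.choose_spec.choose := by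
    unfold om
    rw [dif_pos hex]
  have hspec : ∃ t' u' : L.T, L.pr t' = s ∧ L.pr u' = h ∧ t' * u' * t'⁻¹ = L.sc (om L s h) * u' :=
    ⟨hex.choose, hex.choose_spec.choose, by
      rw [hom]
      exact hex.choose_spec.choose_spec.choose_spec⟩
  obtain ⟨t', u', h1, h2, h3⟩ := hspec
  obtain ⟨a, rfl⟩ := exists_lift L t t' (by rw [ht, h1])
  obtain ⟨b, rfl⟩ := exists_lift L u u' (by rw [hu, h2])
  have e1 : L.sc a * t' * (L.sc b * u') * (L.sc a * t')⁻¹ = L.sc b * (t' * u' * t'⁻¹) := by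
    rw [mul_inv_rev, L.sc_comm a t']
    have e2 : t' * L.sc a * (L.sc b * u') * (t'⁻¹ * (L.sc a)⁻¹) = t' * L.sc a * (L.sc b * (u' * (t'⁻¹ * (L.sc a)⁻¹))) := by
      group
    have e3 : u' * (t'⁻¹ * (L.sc a)⁻¹) = (L.sc a)⁻¹ * (u' * t'⁻¹) := by
      rw [← map_inv, ← mul_assoc u', ← L.sc_comm]
    rw [e2, e3, ← L.sc_comm a t', ← mul_assoc (L.sc b), L.sc_comm b]
    have e4 : L.sc a * t' * ((L.sc a)⁻¹ * L.sc b * (u' * t'⁻¹)) = L.sc a * (t' * (L.sc a)⁻¹) * (L.sc b * (u' * t'⁻¹)) := by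
      group
    rw [e4, ← map_inv, ← L.sc_comm a⁻¹ t', map_inv, mul_inv_cancel_left, ← mul_assoc t', ← L.sc_comm b t']
    group
  rw [e1, h3, ← mul_assoc, L.sc_comm b, mul_assoc]

theorem om_spec {H X : Type} [Group H] [MulAction H X] [Nonempty X] (L : LiftGroup H X) (s h : H) (hc : s * h = h * s) (t u : L.T)
    (ht : L.pr t = s) (hu : L.pr u = h) : t * u * t⁻¹ = L.sc (om L s h) * u :=
  om_spec' L s h hc t u ht hu

theorem om_mul_left {H X : Type} [Group H] [MulAction H X] [Nonempty X] (L : LiftGroup H X) (s s' h : H) (hc : s * h = h * s)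
    (hc' : s' * h = h * s') : om L (s * s') h = om L s h * om L s' h := by
  obtain ⟨t, ht⟩ := L.pr_surj s
  obtain ⟨t', ht'⟩ := L.pr_surj s'
  obtain ⟨u, hu⟩ := L.pr_surj h
  have h1 := om_spec' L s h hc t u ht hu
  have h2 := om_spec' L s' h hc' t' u ht' hu
  have h3 := om_spec' L (s * s') h (by rw [mul_assoc, hc', ← mul_assoc, hc, mul_assoc]) (t * t') u (by rw [map_mul, ht, ht']) hu
  have h4 : t * t' * u * (t * t')⁻¹ = t * (t' * u * t'⁻¹) * t⁻¹ := by group
  have h5 : t * (L.sc (om L s' h) * u) * t⁻¹ = L.sc (om L s' h) * (t * u * t⁻¹) := by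
    rw [← mul_assoc t, ← L.sc_comm, mul_assoc, mul_assoc, ← mul_assoc t]
  rw [h4, h2, h5, h1, ← mul_assoc, ← map_mul] at h3
  have h6 := sc_inj L (mul_right_cancel h3)
  rw [← h6, mul_comm]

theorem om_mul_right {H X : Type} [Group H] [MulAction H X] [Nonempty X] (L : LiftGroup H X) (s h h' : H) (hc : s * h = h * s)
    (hc' : s * h' = h' * s) : om L s (h * h') = om L s h * om L s h' := by
  obtain ⟨t, ht⟩ := L.pr_surj s
  obtain ⟨u, hu⟩ := L.pr_surj h
  obtain ⟨u', hu'⟩ := L.pr_surj h'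
  have h1 := om_spec' L s h hc t u ht hu
  have h2 := om_spec' L s h' hc' t u' ht hu'
  have h3 := om_spec' L s (h * h') (by rw [← mul_assoc, hc, mul_assoc, hc', mul_assoc]) t (u * u') ht (by rw [map_mul, hu, hu'])
  have h4 : t * (u * u') * t⁻¹ = (t * u * t⁻¹) * (t * u' * t⁻¹) := by group
  have h5 : L.sc (om L s h) * u * (L.sc (om L s h') * u') = L.sc (om L s h) * L.sc (om L s h') * (u * u') := by
    rw [mul_assoc (L.sc (om L s h)) u, ← mul_assoc u, ← L.sc_comm (om L s h') u, mul_assoc (L.sc (om L s h')) u u', ← mul_assoc]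
  rw [h4, h1, h2, h5, ← map_mul] at h3
  exact (sc_inj L (mul_right_cancel h3)).symm

theorem om_self {H X : Type} [Group H] [MulAction H X] [Nonempty X] (L : LiftGroup H X) (h : H) : om L h h = 1 := by
  obtain ⟨u, hu⟩ := L.pr_surj h
  have h1 := om_spec' L h h rfl u u hu hu
  rw [mul_inv_cancel_right] at h1
  have h2 : L.sc (om L h h) = L.sc 1 := by
    rw [map_one]
    exact mul_eq_right.mp h1.symm
  exact sc_inj L h2

theorem om_swap {H X : Type} [Group H] [MulAction H X] [Nonempty X] (L : LiftGroup H X) (s h : H) (hc : s * h = h * s) :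
    om L h s = (om L s h)⁻¹ := by
  obtain ⟨t, ht⟩ := L.pr_surj s
  obtain ⟨u, hu⟩ := L.pr_surj h
  have h1 := om_spec' L s h hc t u ht hu
  have h2 := om_spec' L h s hc.symm u t hu ht
  have h3 : t * u = L.sc (om L s h) * (u * t) := by
    rw [← mul_assoc, ← h1, inv_mul_cancel_right]
  have h4 : u * t = L.sc (om L h s) * (t * u) := by
    rw [← mul_assoc, ← h2, inv_mul_cancel_right]
  rw [h3, ← mul_assoc, ← map_mul] at h4
  have h5 : L.sc (om L h s * om L s h) = L.sc 1 := by
    rw [map_one]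
    exact mul_eq_right.mp h4.symm
  exact eq_inv_of_mul_eq_one_left (sc_inj L h5)

/-- if `s` fixes a fixed point of `h` then the pairing is trivial -/
theorem om_eq_one {H X : Type} [Group H] [MulAction H X] (L : LiftGroup H X) (s h : H) (hc : s * h = h * s) (x : X)
    (hx : h • x = x) (hs : s • x = x) : om L s h = 1 := by
  obtain ⟨t, ht⟩ := L.pr_surj s
  obtain ⟨u, hu⟩ := L.pr_surj h
  have h1 := om_spec' L s h hc t u ht hu
  have h2 := L.wt_conj t u x (by rw [hu, hx])
  rw [ht, hs, h1, L.wt_mul _ _ _ (by rw [L.pr_sc, one_smul]) (by rw [hu, hx]), L.wt_sc] at h2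
  exact mul_eq_right.mp h2

private theorem wt_eq {H X : Type} [Group H] [MulAction H X] (L : LiftGroup H X) (s h : H) (hc : s * h = h * s) (h1 : om L s h = 1)
    (x : X) (hx : h • x = x) (u : L.T) (hu : L.pr u = h) : L.wt u x = L.wt u (s • x) := by
  obtain ⟨t, ht⟩ := L.pr_surj s
  have h2 := om_spec' L s h hc t u ht hu
  rw [h1, map_one, one_mul] at h2
  have h3 := L.wt_conj t u x (by rw [hu, hx])
  rw [h2, ht] at h3
  exact h3.symm

/-- trivial pairings: `s` acts trivially on the fixed points of `c` -/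
theorem mem_ax_of_om (M : Core) (c s : M.H) (hp : (orderOf c).Prime) (hc : s * c = c * s) (hE : om M.LE s c = 1)
    (hF : om M.LF s c = 1) : s ∈ ax M c := by
  haveI : Fact (orderOf c).Prime := ⟨hp⟩
  have hc1 : c ≠ 1 := by
    rintro rfl
    rw [orderOf_one] at hp
    exact Nat.not_prime_one hp
  obtain ⟨q, e, f, hS, hE', hF', -⟩ := affine M c hp
  show ∀ x ∈ M.fx c, s • x = x
  intro x hx
  have hsx : s • x ∈ M.fx c := smul_mem_fx M c s hc1 (by
    rw [hc, mul_inv_cancel_right]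
    exact Subgroup.mem_zpowers c) x hx
  have hcx : c • x = x := (M.mem_fx c hc1 x).mp hx
  obtain ⟨u, hu⟩ := M.LE.pr_surj c
  obtain ⟨v, hv⟩ := M.LF.pr_surj c
  have h1 : e x = e (s • x) := (hE' x hx (s • x) hsx u hu).mp (wt_eq M.LE s c hc hE x hcx u hu)
  have h2 : f x = f (s • x) := (hF' x hx (s • x) hsx v hv).mp (wt_eq M.LF s c hc hF x hcx v hv)
  exact (hS.inj x hx (s • x) hsx h1 h2).symm

end Pool.Agent.H51.FA
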