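import Pool.Agent.H51.FA.Alg

/-!
# FA Perm: a permutation of the four points which is affine in the weights (proofs in the docstring of Alg)
-/

set_option autoImplicit false

open Finset

namespace Pool.Agent.H51.FA

/-- The sums do not change if constants are added to the weights. -/
private theorem Sums.shift {X K : Type} [Field K] {A : Finset X} {q e f : X → K} (S : Sums A q e f) (a b : K) :
    Sums A q (fun x => e x - a) (fun x => f x - b) := by
  have h0 := S.s0
  have h1 := S.se
  have h2 := S.sf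
  have h3 := S.see
  have h4 := S.sff
  have h5 := S.sef
  refine ⟨S.card, S.ne, S.s0, ?_, ?_, ?_, ?_, ?_⟩
  · have h : ∑ x ∈ A, (e x - a) * q x = ∑ x ∈ A, e x * q x - a * ∑ x ∈ A, q x := by
      rw [mul_sum, ← sum_sub_distrib]
      exact sum_congr rfl fun x _ => by ring
    rw [h, h0, h1]
    ring
  · have h : ∑ x ∈ A, (f x - b) * q x = ∑ x ∈ A, f x * q x - b * ∑ x ∈ A, q x := by
      rw [mul_sum, ← sum_sub_distrib]
      exact sum_congr rfl fun x _ => by ring
    rw [h, h0, h2]
    ring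
  · have h : ∑ x ∈ A, (e x - a) ^ 2 * q x =
        ∑ x ∈ A, e x ^ 2 * q x - 2 * a * ∑ x ∈ A, e x * q x + a ^ 2 * ∑ x ∈ A, q x := by
      rw [mul_sum, mul_sum, ← sum_sub_distrib, ← sum_add_distrib]
      exact sum_congr rfl fun x _ => by ring
    rw [h, h0, h1, h3]
    ring
  · have h : ∑ x ∈ A, (f x - b) ^ 2 * q x =
        ∑ x ∈ A, f x ^ 2 * q x - 2 * b * ∑ x ∈ A, f x * q x + b ^ 2 * ∑ x ∈ A, q x := by
      rw [mul_sum, mul_sum, ← sum_sub_distrib, ← sum_add_distrib]
      exact sum_congr rfl fun x _ => by ring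
    rw [h, h0, h2, h4]
    ring
  · have h : ∑ x ∈ A, (e x - a) * (f x - b) * q x =
        ∑ x ∈ A, e x * f x * q x - b * ∑ x ∈ A, e x * q x - a * ∑ x ∈ A, f x * q x +
          a * b * ∑ x ∈ A, q x := by
      rw [mul_sum, mul_sum, mul_sum, ← sum_sub_distrib, ← sum_sub_distrib, ← sum_add_distrib]
      exact sum_congr rfl fun x _ => by ring
    rw [h, h0, h1, h2, h5]
    ring

/-- The four points do not lie on a line through the origin. -/
private theorem Sums.indep {X K : Type} [Field K] {A : Finset X} {q e f : X → K} (S : Sums A q e f)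
    (u v : K) (h : ∀ y ∈ A, u * f y = v * e y) : u = 0 ∧ v = 0 := by
  constructor
  · have h1 : u * ∑ x ∈ A, e x * f x * q x = v * ∑ x ∈ A, e x ^ 2 * q x := by
      rw [mul_sum, mul_sum]
      refine sum_congr rfl fun x hx => ?_
      have := h x hx
      linear_combination e x * q x * this
    rw [S.sef, S.see, mul_one, mul_zero] at h1
    exact h1
  · have h1 : v * ∑ x ∈ A, e x * f x * q x = u * ∑ x ∈ A, f x ^ 2 * q x := by
      rw [mul_sum, mul_sum]
      refine sum_congr rfl fun x hx => ?_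
      have := h x hx
      linear_combination -(f x * q x) * this
    rw [S.sef, S.sff, mul_one, mul_zero] at h1
    exact h1

/-- The case of a linear map. -/
private theorem Sums.two_cycles_lin {X K : Type} [Field K] {A : Finset X} {q e f : X → K} (S : Sums A q e f)
    (σ : X → X) (hσ : ∀ x ∈ A, σ x ∈ A) (hinj : ∀ x ∈ A, ∀ y ∈ A, σ x = σ y → x = y) (μ : K) (hμ : μ ≠ 1)
    (hμ0 : μ ≠ 0) (he : ∀ x ∈ A, e (σ x) = μ * e x) (hf : ∀ x ∈ A, f (σ x) = μ * f x) :
    μ = -1 ∧ ∀ x ∈ A, σ x ≠ x ∧ σ (σ x) = x := by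
  classical
  -- a fixed point is at the origin
  have hfix : ∀ x ∈ A, σ x = x → e x = 0 ∧ f x = 0 := by
    intro x hx h
    have h1 := he x hx
    have h2 := hf x hx
    rw [h] at h1 h2
    have h3 : (μ - 1) * e x = 0 := by linear_combination -h1
    have h4 : (μ - 1) * f x = 0 := by linear_combination -h2
    have h5 : μ - 1 ≠ 0 := sub_ne_zero.2 hμ
    exact ⟨(mul_eq_zero.1 h3).resolve_left h5, (mul_eq_zero.1 h4).resolve_left h5⟩
  -- a point off the origin
  obtain ⟨x, hx, hx0⟩ : ∃ x ∈ A, ¬ (e x = 0 ∧ f x = 0) := by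
    by_contra hcon
    push Not at hcon
    have h1 := S.sef
    rw [sum_eq_zero fun y hy => ?_] at h1
    · exact zero_ne_one h1
    · rw [(hcon y hy).1, zero_mul, zero_mul]
  -- a point which is not on the same line
  obtain ⟨y, hy, hxy⟩ : ∃ y ∈ A, e x * f y ≠ f x * e y := by
    by_contra hcon
    push Not at hcon
    exact hx0 (S.indep (e x) (f x) hcon)
  have hsx : σ x ≠ x := fun h => hx0 (hfix x hx h)
  have hsy : σ y ≠ y := fun h => by
    obtain ⟨h1, h2⟩ := hfix y hy h
    exact hxy (by rw [h1, h2, mul_zero, mul_zero])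
  have ha := he x hx
  have hb := hf x hx
  have ha' := he y hy
  have hb' := hf y hy
  have hdet : e x * f y - f x * e y ≠ 0 := sub_ne_zero.2 hxy
  have n1 : x ≠ y := by
    intro h
    apply hxy
    rw [h]
    ring
  have n2 : x ≠ σ y := by
    intro h
    have h1 : e x = μ * e y := by rw [← ha', ← h]
    have h2 : f x = μ * f y := by rw [← hb', ← h]
    apply hxy
    rw [h1, h2]
    ring
  have n3 : σ x ≠ y := by
    intro h
    have h1 : e y = μ * e x := by rw [← ha, ← h]
    have h2 : f y = μ * f x := by rw [← hb, ← h]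
    apply hxy
    rw [h1, h2]
    ring
  have n4 : σ x ≠ σ y := fun h => n1 (hinj x hx y hy h)
  have hcard : ({x, σ x, y, σ y} : Finset X).card = 4 := by
    rw [card_insert_of_notMem, card_insert_of_notMem, card_insert_of_notMem, card_singleton]
    · simpa using hsy.symm
    · simp [n3, n4]
    · simp [n1, n2, hsx.symm]
  have hA : ({x, σ x, y, σ y} : Finset X) = A := by
    refine eq_of_subset_of_card_le ?_ (by rw [hcard, S.card])
    intro z hz
    simp only [mem_insert, mem_singleton] at hz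
    rcases hz with rfl | rfl | rfl | rfl
    · exact hx
    · exact hσ _ hx
    · exact hy
    · exact hσ _ hy
  have hmem : ∀ z ∈ A, z = x ∨ z = σ x ∨ z = y ∨ z = σ y := by
    intro z hz
    rw [← hA] at hz
    simpa only [mem_insert, mem_singleton] using hz
  have hxx : σ (σ x) = x := by
    rcases hmem _ (hσ _ (hσ x hx)) with h | h | h | h
    · exact h
    · exact absurd (hinj _ (hσ x hx) _ hx h) hsx
    · exfalso
      have h1 := he _ (hσ x hx)
      have h2 := hf _ (hσ x hx)
      rw [h, ha] at h1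
      rw [h, hb] at h2
      apply hxy
      rw [h1, h2]
      ring
    · exact absurd (hinj _ (hσ x hx) _ hy h) n3
  have hyy : σ (σ y) = y := by
    rcases hmem _ (hσ _ (hσ y hy)) with h | h | h | h
    · exfalso
      have h1 := he _ (hσ y hy)
      have h2 := hf _ (hσ y hy)
      rw [h, ha'] at h1
      rw [h, hb'] at h2
      apply hxy
      rw [h1, h2]
      ring
    · exact absurd (hinj _ (hσ y hy) _ hx h) n2.symm
    · exact h
    · exact absurd (hinj _ (hσ y hy) _ hy h) hsy
  constructor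
  · have h1 := he _ (hσ x hx)
    have h2 := hf _ (hσ x hx)
    rw [hxx, ha] at h1
    rw [hxx, hb] at h2
    have h3 : (μ - 1) * ((μ + 1) * e x) = 0 := by linear_combination -h1
    have h4 : (μ - 1) * ((μ + 1) * f x) = 0 := by linear_combination -h2
    have h5 : μ - 1 ≠ 0 := sub_ne_zero.2 hμ
    have h6 := (mul_eq_zero.1 h3).resolve_left h5
    have h7 := (mul_eq_zero.1 h4).resolve_left h5
    by_contra h8
    have h9 : μ + 1 ≠ 0 := fun h => h8 (eq_neg_of_add_eq_zero_left h)
    exact hx0 ⟨(mul_eq_zero.1 h6).resolve_left h9, (mul_eq_zero.1 h7).resolve_left h9⟩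
  · intro z hz
    rcases hmem z hz with rfl | rfl | rfl | rfl
    · exact ⟨hsx, hxx⟩
    · rw [hxx]
      exact ⟨hsx.symm, rfl⟩
    · exact ⟨hsy, hyy⟩
    · rw [hyy]
      exact ⟨hsy.symm, rfl⟩

theorem Sums.two_cycles {X K : Type} [Field K] {A : Finset X} {q e f : X → K} (S : Sums A q e f) (σ : X → X)
    (hσ : ∀ x ∈ A, σ x ∈ A) (hinj : ∀ x ∈ A, ∀ y ∈ A, σ x = σ y → x = y) (μ c d : K) (hμ : μ ≠ 1) (hμ0 : μ ≠ 0)
    (he : ∀ x ∈ A, e (σ x) = μ * e x + c) (hf : ∀ x ∈ A, f (σ x) = μ * f x + d) :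
    μ = -1 ∧ ∀ x ∈ A, σ x ≠ x ∧ σ (σ x) = x := by
  have h1 : 1 - μ ≠ 0 := sub_ne_zero.2 hμ.symm
  refine (S.shift (c / (1 - μ)) (d / (1 - μ))).two_cycles_lin σ hσ hinj μ hμ hμ0 (fun x hx => ?_) fun x hx => ?_
  · rw [he x hx]
    field_simp
    ring
  · rw [hf x hx]
    field_simp
    ring

theorem Sums.translation {X : Type} {p : ℕ} [Fact p.Prime] {A : Finset X} {q e f : X → ZMod p} (S : Sums A q e f) (σ : X → X)
    (hσ : ∀ x ∈ A, σ x ∈ A) (c d : ZMod p)
    (he : ∀ x ∈ A, e (σ x) = e x + c) (hf : ∀ x ∈ A, f (σ x) = f x + d) :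
    (∀ x ∈ A, σ (σ x) = x) ∧ ((∃ x ∈ A, σ x = x) → ∀ x ∈ A, σ x = x) ∧ (p ≠ 2 → ∀ x ∈ A, σ x = x) := by
  classical
  have hid : c = 0 → d = 0 → ∀ x ∈ A, σ x = x := by
    intro hc hd x hx
    refine S.inj _ (hσ x hx) _ hx ?_ ?_
    · rw [he x hx, hc, add_zero]
    · rw [hf x hx, hd, add_zero]
  have h2 : (∃ x ∈ A, σ x = x) → ∀ x ∈ A, σ x = x := by
    rintro ⟨x, hx, h⟩
    have h1 := he x hx
    have h2 := hf x hx
    rw [h] at h1 h2
    exact hid (by linear_combination -h1) (by linear_combination -h2)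
  have h3 : p ≠ 2 → ∀ x ∈ A, σ x = x := by
    intro hp
    have hinj : Set.InjOn σ A := by
      intro x hx y hy h
      refine S.inj x hx y hy ?_ ?_
      · have h1 := he x hx
        rw [h, he y hy] at h1
        exact (add_right_cancel h1).symm
      · have h1 := hf x hx
        rw [h, hf y hy] at h1
        exact (add_right_cancel h1).symm
    have himg : A.image σ = A := by
      refine eq_of_subset_of_card_le (image_subset_iff.2 hσ) ?_
      rw [card_image_of_injOn hinj]
    have hsum : ∀ g : X → ZMod p, ∑ x ∈ A, g (σ x) = ∑ x ∈ A, g x := by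
      intro g
      conv_rhs => rw [← himg]
      rw [sum_image hinj]
    have h4 : (4 : ZMod p) ≠ 0 := by
      intro h
      have h5 : p ∣ 4 := by
        rw [← ZMod.natCast_eq_zero_iff]
        exact_mod_cast h
      have h6 : p ∣ 2 ^ 2 := h5
      have h7 := (Nat.prime_dvd_prime_iff_eq (Fact.out : p.Prime) Nat.prime_two).1
        ((Fact.out : p.Prime).dvd_of_dvd_pow h6)
      exact hp h7
    have hcc : ∀ (g : X → ZMod p) (t : ZMod p), (∀ x ∈ A, g (σ x) = g x + t) → t = 0 := by
      intro g t hg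
      have h5 := hsum g
      rw [sum_congr rfl hg, sum_add_distrib, sum_const, S.card] at h5
      have h6 : (4 : ZMod p) * t = 0 := by
        have h7 : ∑ x ∈ A, g x + 4 • t = ∑ x ∈ A, g x + 0 := by rw [h5, add_zero]
        have h8 := add_left_cancel h7
        rw [nsmul_eq_mul] at h8
        exact_mod_cast h8
      exact (mul_eq_zero.1 h6).resolve_left h4
    exact hid (hcc e c he) (hcc f d hf)
  refine ⟨?_, h2, h3⟩
  by_cases hp : p = 2
  · intro x hx
    subst hp
    have h4 : ∀ t : ZMod 2, t + t = 0 := fun t => CharTwo.add_self_eq_zero t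
    refine S.inj _ (hσ _ (hσ x hx)) _ hx ?_ ?_
    · rw [he _ (hσ x hx), he x hx, add_assoc, h4, add_zero]
    · rw [hf _ (hσ x hx), hf x hx, add_assoc, h4, add_zero]
  · intro x hx
    rw [h3 hp x hx, h3 hp x hx]

end Pool.Agent.H51.FA
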