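import Pool.Agent.H51.FA.Fix

/-!
# FA Ram: the numerical data of an invariant curve

`h ≠ 1` trivial on `H²`, `h • c = c`, `n` its order.  From `ram` (`fixCurve = ∅` by `fixCurve_eq`): let `Ω` be the set of orbits of `⟨h⟩` on `B`, `k ω` the number of elements of the
orbit `ω`, `φ = |Ω|`.  For `b ∈ ω`: `k |stab b| = n`, `|stab b| ≥ 2`.  `∑_b (|stab b| - 1) = ∑_ω (n - k ω)`.  A non-trivial element `h^i` of `stab b` fixes `π b`, so
`π b ∈ isoFix (h^i) = isoFix h` (`isoFix_pow`), `h • π b = π b`: all points of the orbit have the same image, and the number of pairs `b ≠ b'` with `π b = π b'`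
is at least `∑ k (k - 1)`.
-/

set_option autoImplicit false

namespace Pool.Agent.H51.FA

open Classical in
/-- the number of points in the orbit, as the fibre of the quotient map -/
noncomputable def orbFib {Γ B : Type} [Group Γ] [MulAction Γ B] [Fintype B] (ω : MulAction.orbitRel.Quotient Γ B) : Finset B :=
  Finset.univ.filter (fun b => (Quotient.mk'' b : MulAction.orbitRel.Quotient Γ B) = ω)

theorem orbFib_stab {Γ B : Type} [Group Γ] [Finite Γ] [MulAction Γ B] [Fintype B] (ω : MulAction.orbitRel.Quotient Γ B)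
    (b : B) (hb : b ∈ orbFib ω) :
    (orbFib ω).card * Nat.card (MulAction.stabilizer Γ b) = Nat.card Γ := by
  classical
  have h1 : Nat.card (MulAction.orbit Γ b) * Nat.card (MulAction.stabilizer Γ b) = Nat.card Γ := by
    rw [← Subgroup.card_mul_index (MulAction.stabilizer Γ b), MulAction.index_stabilizer, ← Nat.card_coe_set_eq, mul_comm]
  have h2 : (orbFib ω).card = Nat.card (MulAction.orbit Γ b) := by
    rw [← Set.ncard_coe_finset, ← Nat.card_coe_set_eq]
    congr 2
    ext b'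
    have hb' : (Quotient.mk'' b : MulAction.orbitRel.Quotient Γ B) = ω := by
      simpa [orbFib] using hb
    simp only [orbFib, Finset.coe_filter, Finset.mem_univ, true_and, Set.mem_ofPred_eq]
    rw [← hb', Quotient.eq'']
    rfl
  rw [h2, h1]

theorem orbFib_nonempty {Γ B : Type} [Group Γ] [MulAction Γ B] [Fintype B] (ω : MulAction.orbitRel.Quotient Γ B) :
    (orbFib ω).Nonempty := by
  classical
  induction ω using Quotient.inductionOn'
  rename_i b
  exact ⟨b, by simp [orbFib]⟩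

theorem orbFib_sum {Γ B : Type} [Group Γ] [Finite Γ] [MulAction Γ B] [Fintype B] (ω : MulAction.orbitRel.Quotient Γ B) :
    ∑ b ∈ orbFib ω, ((Nat.card (MulAction.stabilizer Γ b) : ℤ) - 1) = (Nat.card Γ : ℤ) - (orbFib ω).card := by
  classical
  obtain ⟨b0, hb0⟩ := orbFib_nonempty ω
  have hpos : 0 < (orbFib ω).card := Finset.card_pos.mpr ⟨b0, hb0⟩
  have hs0 := orbFib_stab ω b0 hb0
  have hs : ∀ b ∈ orbFib ω, ((Nat.card (MulAction.stabilizer Γ b) : ℤ) - 1) = ((Nat.card (MulAction.stabilizer Γ b0) : ℤ) - 1) := by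
    intro b hb
    have := orbFib_stab ω b hb
    have h3 : Nat.card (MulAction.stabilizer Γ b) = Nat.card (MulAction.stabilizer Γ b0) :=
      Nat.eq_of_mul_eq_mul_left hpos (this.trans hs0.symm)
    rw [h3]
  rw [Finset.sum_congr rfl hs, Finset.sum_const, nsmul_eq_mul, ← hs0]
  push_cast
  ring

theorem orbFib_total {Γ B : Type} [Group Γ] [Finite Γ] [MulAction Γ B] [Fintype B]
    [Fintype (MulAction.orbitRel.Quotient Γ B)] :
    ∑ b : B, ((Nat.card (MulAction.stabilizer Γ b) : ℤ) - 1) =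
      ∑ ω : MulAction.orbitRel.Quotient Γ B, ((Nat.card Γ : ℤ) - (orbFib ω).card) := by
  classical
  rw [← Finset.sum_fiberwise (s := (Finset.univ : Finset B))
    (g := fun b => (Quotient.mk'' b : MulAction.orbitRel.Quotient Γ B))]
  refine Finset.sum_congr rfl fun ω _ => ?_
  rw [← orbFib_sum ω]
  refine Finset.sum_congr ?_ fun _ _ => rfl
  ext b
  simp [orbFib]

theorem orbFib_pairs {Γ B X : Type} [Group Γ] [MulAction Γ B] [Fintype B]
    [Fintype (MulAction.orbitRel.Quotient Γ B)] (π : B → X) (hπ : ∀ (g : Γ) b, π (g • b) = π b) :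
    ∑ ω : MulAction.orbitRel.Quotient Γ B, (orbFib ω).card * ((orbFib ω).card - 1) ≤
      Nat.card {b : B × B // b.1 ≠ b.2 ∧ π b.1 = π b.2} := by
  classical
  set q : B → MulAction.orbitRel.Quotient Γ B := fun b => Quotient.mk'' b with hq
  have h1 : Nat.card {b : B × B // b.1 ≠ b.2 ∧ π b.1 = π b.2} =
      (Finset.univ.filter (fun b : B × B => b.1 ≠ b.2 ∧ π b.1 = π b.2)).card := by
    rw [Nat.card_eq_fintype_card, Fintype.card_subtype]
  rw [h1]
  have h2 : (Finset.univ.filter (fun b : B × B => b.1 ≠ b.2 ∧ q b.1 = q b.2)).card =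
      ∑ ω : MulAction.orbitRel.Quotient Γ B, (orbFib ω).card * ((orbFib ω).card - 1) := by
    rw [Finset.card_eq_sum_card_fiberwise (f := fun b : B × B => q b.1) (t := Finset.univ) (by intro x _; simp)]
    refine Finset.sum_congr rfl fun ω _ => ?_
    have h3 : (Finset.univ.filter (fun b : B × B => b.1 ≠ b.2 ∧ q b.1 = q b.2)).filter (fun b => q b.1 = ω) =
        (orbFib ω).offDiag := by
      ext b
      simp only [Finset.mem_filter, Finset.mem_univ, true_and, Finset.mem_offDiag, orbFib]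
      constructor
      · rintro ⟨⟨h4, h5⟩, h6⟩
        exact ⟨h6, h5.symm.trans h6, h4⟩
      · rintro ⟨h4, h5, h6⟩
        exact ⟨⟨h6, h4.trans h5.symm⟩, h4⟩
    rw [h3, Finset.offDiag_card, Nat.mul_sub, mul_one]
  rw [← h2]
  refine Finset.card_le_card ?_
  intro b hb
  simp only [Finset.mem_filter, Finset.mem_univ, true_and] at hb ⊢
  refine ⟨hb.1, ?_⟩
  have h4 : b.1 ∈ MulAction.orbit Γ b.2 := by
    have := hb.2
    rw [hq] at this
    exact Quotient.eq''.mp this
  obtain ⟨g, hg⟩ := h4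
  rw [← hg]
  exact hπ g b.2

theorem ram_data (S : Surface) (h : S.G) (h1 : h ≠ 1) (hr : S.rho h = 1) (c : S.C) (hc : h • c = c) :
    ∃ (Ω : Type) (_ : Fintype Ω) (k : Ω → ℕ) (g₀ : ℕ), (∀ ω, 1 ≤ k ω ∧ 2 * k ω ≤ orderOf h) ∧
      2 * (S.genus c : ℤ) - 2 = orderOf h * (2 * (g₀ : ℤ) - 2) + ∑ ω, ((orderOf h : ℤ) - k ω) ∧
      ∑ ω, k ω * (k ω - 1) ≤ 2 * S.delta c ∧
      (IsEmpty Ω → (orderOf h : ℤ) ∣ (S.cls c).1 ∧ (orderOf h : ℤ) ∣ (S.cls c).2) := by
  classical
  have hne : ∀ k : ℕ, h ^ k ≠ 1 → c ∉ S.fixCurve (h ^ k) := by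
    intro k hk
    rw [fixCurve_eq S (h ^ k) hk (by rw [map_pow, hr, one_pow])]
    simp
  obtain ⟨B, fB, aB, π, g₀, heq, hst, hRH, hpairs, hemp⟩ := S.ram h c hr hc hne
  have hcard : Nat.card (Subgroup.zpowers h) = orderOf h := Nat.card_zpowers h
  have fix1 : ∀ b, h • π b = π b := by
    intro b
    obtain ⟨g, hg, hg1⟩ := (Subgroup.ne_bot_iff_exists_ne_one (H := MulAction.stabilizer (Subgroup.zpowers h) b)).mp (hst b) |>.imp
      (fun g hg => And.intro (MulAction.mem_stabilizer_iff.mp g.2) hg)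
    obtain ⟨k, hk⟩ : ∃ k : ℕ, h ^ k = ((g : Subgroup.zpowers h) : S.G) :=
      (Submonoid.mem_powers_iff _ _).mp (mem_powers_iff_mem_zpowers.mpr (g : Subgroup.zpowers h).2)
    have hk1 : h ^ k ≠ 1 := by
      rw [hk]
      intro h0
      apply hg1
      ext
      exact h0
    have h2 : h ^ k • π b = π b := by
      rw [hk, ← heq, hg]
    have h3 : π b ∈ S.isoFix (h ^ k) :=
      (mem_isoFix_iff S (h ^ k) hk1 (by rw [map_pow, hr, one_pow]) (π b)).mpr h2
    rw [isoFix_pow S h hr k hk1] at h3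
    exact (mem_isoFix_iff S h h1 hr (π b)).mp h3
  have hπ : ∀ (g : Subgroup.zpowers h) b, π (g • b) = π b := by
    intro g b
    rw [heq]
    have h2 : h ∈ MulAction.stabilizer S.G (π b) := MulAction.mem_stabilizer_iff.mpr (fix1 b)
    have h3 : Subgroup.zpowers h ≤ MulAction.stabilizer S.G (π b) := by
      rw [Subgroup.zpowers_le]
      exact h2
    exact MulAction.mem_stabilizer_iff.mp (h3 g.2)
  let _ : Fintype (MulAction.orbitRel.Quotient (Subgroup.zpowers h) B) := Fintype.ofFinite _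
  refine ⟨MulAction.orbitRel.Quotient (Subgroup.zpowers h) B, inferInstance, fun ω => (orbFib ω).card, g₀, ?_, ?_, ?_, ?_⟩
  · intro ω
    obtain ⟨b, hb⟩ := orbFib_nonempty ω
    refine ⟨Finset.card_pos.mpr ⟨b, hb⟩, ?_⟩
    have h2 := orbFib_stab ω b hb
    rw [hcard] at h2
    have h3 : 1 < Nat.card (MulAction.stabilizer (Subgroup.zpowers h) b) := by
      rw [Subgroup.one_lt_card_iff_ne_bot]
      exact hst b
    show 2 * (orbFib ω).card ≤ orderOf h
    nlinarith
  · show _ = _ + ∑ ω, ((orderOf h : ℤ) - (orbFib ω).card)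
    rw [hRH, ← hcard, ← orbFib_total, hcard]
  · exact (orbFib_pairs π hπ).trans hpairs
  · intro he
    apply hemp
    exact ⟨fun b => he.false (Quotient.mk'' b)⟩

end Pool.Agent.H51.FA
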