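import Pool.Agent.H51.FA.Chr
import Pool.Agent.H51.FA.Diag

/-!
# FA Stab: stabilizers are cyclic

`S = stabilizer x`.  (a) A `p`-subgroup `P ≤ S` is commutative: otherwise `⁅P, P⁆` is a non-trivial normal subgroup of the `p`-group `P` and meets
the centre of `P` in an element `c` of order `p` (Mathlib: `IsPGroup.bot_lt_center`, the normal subgroup version is
`Subgroup.Normal...`/count fixed points of the conjugation action on `⁅P, P⁆`: `IsPGroup.card_modEq_card_fixedPoints`).  `P` commutes with `c` and
fixes `x ∈ fx c`, so it fixes `fx c` pointwise (`fix_all`), contradiction to `notMem_commutator`.  So `P` is cyclic (`isCyclic_of_comm` with the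
representation `tan x`).  (b) So `S` is a Z-group (`IsZGroup`, all Sylow subgroups cyclic) and `⁅S, S⁆` is cyclic (`IsZGroup.isCyclic_commutator`).
If it is not trivial, it contains `c` of prime order `p`; `⟨c⟩` is the only subgroup of order `p` of a cyclic normal subgroup, so it is normal in
`S`; `S` fixes `x ∈ fx c`, so (`fix_all`) it fixes `fx c` pointwise, contradiction to `notMem_commutator`.  So `S` is commutative and, by
`isCyclic_of_comm`, cyclic.  (helper67's `/team-store/h67_sq.tgz`, Groups.lean, has the Z-group route.)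
-/

set_option autoImplicit false

namespace Pool.Agent.H51.FA

open scoped commutatorElement

/-- an element of prime order in the commutator subgroup of a group fixing `x` does not generate a normal subgroup -/
private theorem stab_core (M : Core) (x : M.X) (P : Subgroup M.H) (hP : P ≤ MulAction.stabilizer M.H x) (c : M.H)
    (hc : c ∈ ⁅P, P⁆) (hp : (orderOf c).Prime) (hn : ∀ s ∈ P, s * c * s⁻¹ ∈ Subgroup.zpowers c) : False := by
  have hc1 : c ≠ 1 := by
    rintro rfl
    rw [orderOf_one] at hp
    exact Nat.not_prime_one hp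
  have hcP : c ∈ P := Subgroup.commutator_le_self P hc
  have hx : x ∈ M.fx c := (M.mem_fx c hc1 x).2 (hP hcP)
  refine notMem_commutator M c hp P (fun s hs => ?_) hc
  exact (fix_all M c s hp (hn s hs) ⟨x, hx, hP hs⟩).1

/-- a power of prime order -/
private theorem stab_pow {S : Type} [Group S] [Finite S] (a : S) (ha : a ≠ 1) : ∃ m : ℕ, (orderOf (a ^ m)).Prime := by
  have h1 : orderOf a ≠ 1 := fun h => ha (orderOf_eq_one_iff.mp h)
  obtain ⟨p, hp, k, hk⟩ := Nat.exists_prime_and_dvd h1
  have hpos : 0 < orderOf a := orderOf_pos a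
  have hk0 : k ≠ 0 := by
    rintro rfl
    omega
  refine ⟨k, ?_⟩
  rw [orderOf_pow_of_dvd hk0 (Dvd.intro_left p hk.symm), hk, Nat.mul_div_cancel _ (Nat.pos_of_ne_zero hk0)]
  exact hp

private theorem stab_mem (M : Core) (P : Subgroup M.H) (c : P) (hc : c ∈ commutator P) : (c : M.H) ∈ ⁅P, P⁆ := by
  rw [← Subgroup.map_subtype_commutator]
  exact Subgroup.mem_map_of_mem _ hc

private theorem stab_comm {S : Type} [Group S] (h : commutator S = ⊥) (a b : S) : a * b = b * a := by
  have h1 : ⁅a, b⁆ ∈ commutator S :=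
    Subgroup.commutator_mem_commutator (Subgroup.mem_top a) (Subgroup.mem_top b)
  rw [h, Subgroup.mem_bot] at h1
  exact commutatorElement_eq_one_iff_mul_comm.mp h1

/-- `p`-groups fixing `x` are commutative -/
private theorem stab_pgroup (M : Core) (x : M.X) (P : Subgroup M.H) (hP : P ≤ MulAction.stabilizer M.H x) {p : ℕ}
    [Fact p.Prime] (hpP : IsPGroup p P) : commutator P = ⊥ := by
  by_contra hne
  have hnt : Nontrivial (commutator P) := (Subgroup.nontrivial_iff_ne_bot _).mpr hne
  have hd : p ∣ Nat.card (commutator P) := by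
    obtain ⟨n, hn, hn'⟩ := (hpP.to_subgroup (commutator P)).nontrivial_iff_card.mp hnt
    rw [hn']
    exact dvd_pow_self p hn.ne'
  have hcp : IsPGroup p (ConjAct P) := hpP.of_equiv ConjAct.toConjAct
  obtain ⟨b, hb, hb1⟩ := hcp.exists_fixed_point_of_prime_dvd_card_of_fixed_point (commutator P) hd
    (a := (1 : commutator P)) (fun y => by rw [smul_one])
  have hb' : ∀ y : P, y * (b : P) * y⁻¹ = b := by
    intro y
    have h1 := hb (ConjAct.toConjAct y)
    have h2 := congrArg Subtype.val h1
    rw [ConjAct.Subgroup.val_conj_smul, ConjAct.toConjAct_smul] at h2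
    exact h2
  obtain ⟨m, hm⟩ := stab_pow (b : P) (fun h => hb1 (Subtype.ext h.symm))
  refine stab_core M x P hP (((b : P) ^ m : P) : M.H) (stab_mem M P _ (Subgroup.pow_mem _ b.2 m)) ?_ ?_
  · rw [Subgroup.orderOf_coe]
    exact hm
  · intro s hs
    have h1 := congrArg Subtype.val (congrArg (fun z => z ^ m) (hb' ⟨s, hs⟩))
    simp only [conj_pow] at h1
    have h2 : s * (((b : P) ^ m : P) : M.H) * s⁻¹ = (((b : P) ^ m : P) : M.H) := h1
    rw [h2]
    exact Subgroup.mem_zpowers _

theorem stabilizer_isCyclic (M : Core) (x : M.X) : IsCyclic (MulAction.stabilizer M.H x) := by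
  have hZ : IsZGroup (MulAction.stabilizer M.H x) := by
    refine ⟨fun p hp Q => ?_⟩
    have : Fact p.Prime := ⟨hp⟩
    have hQ : commutator Q = ⊥ := by
      have h1 : IsPGroup p (Q.toSubgroup.map (MulAction.stabilizer M.H x).subtype) := Q.isPGroup'.map _
      have h2 := stab_pgroup M x (Q.toSubgroup.map (MulAction.stabilizer M.H x).subtype) (by
        rintro _ ⟨y, -, rfl⟩
        exact y.2) h1
      rw [eq_bot_iff, commutator_def, Subgroup.commutator_le]
      intro a _ b _
      rw [Subgroup.mem_bot, commutatorElement_eq_one_iff_mul_comm]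
      have h3 := stab_comm h2 ⟨((a : MulAction.stabilizer M.H x) : M.H), ⟨a, a.2, rfl⟩⟩
        ⟨((b : MulAction.stabilizer M.H x) : M.H), ⟨b, b.2, rfl⟩⟩
      have h4 := congrArg Subtype.val h3
      exact Subtype.ext (Subtype.ext h4)
    refine isCyclic_of_comm (stab_comm hQ) ((M.tan x).comp Q.toSubgroup.subtype) ?_
    intro g hg v hv
    exact M.tan_one x g (fun h => hg (Subtype.ext h)) v hv
  refine isCyclic_of_comm (stab_comm ?_) (M.tan x) (M.tan_one x)
  by_contra hab
  have := IsZGroup.isCyclic_commutator (MulAction.stabilizer M.H x)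
  obtain ⟨a, ha⟩ := IsCyclic.exists_generator (α := commutator (MulAction.stabilizer M.H x))
  have ha1 : (a : MulAction.stabilizer M.H x) ≠ 1 := by
    intro h
    apply hab
    rw [eq_bot_iff]
    intro y hy
    obtain ⟨k, hk⟩ := Subgroup.mem_zpowers_iff.mp (ha ⟨y, hy⟩)
    have hk' := congrArg Subtype.val hk
    rw [Subgroup.coe_zpow, h, one_zpow] at hk'
    rw [Subgroup.mem_bot]
    exact hk'.symm
  obtain ⟨m, hm⟩ := stab_pow (a : MulAction.stabilizer M.H x) ha1
  refine stab_core M x (MulAction.stabilizer M.H x) le_rfl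
    (((a : MulAction.stabilizer M.H x) ^ m : MulAction.stabilizer M.H x) : M.H)
    (stab_mem M _ _ (Subgroup.pow_mem _ a.2 m)) ?_ ?_
  · rw [Subgroup.orderOf_coe]
    exact hm
  · intro s hs
    have hy : (⟨s, hs⟩ : MulAction.stabilizer M.H x) * (a : MulAction.stabilizer M.H x) *
        (⟨s, hs⟩ : MulAction.stabilizer M.H x)⁻¹ ∈ commutator (MulAction.stabilizer M.H x) :=
      (inferInstance : (commutator (MulAction.stabilizer M.H x)).Normal).conj_mem a a.2 _
    obtain ⟨k, hk⟩ := Subgroup.mem_zpowers_iff.mp (ha ⟨_, hy⟩)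
    have hk' := congrArg Subtype.val hk
    rw [Subgroup.coe_zpow] at hk'
    have h1 := congrArg Subtype.val (congrArg (fun z => z ^ m) hk')
    simp only [conj_pow] at h1
    refine Subgroup.mem_zpowers_iff.mpr ⟨k, ?_⟩
    have e : ((a : MulAction.stabilizer M.H x) ^ m) ^ k = ((a : MulAction.stabilizer M.H x) ^ k) ^ m := by
      rw [← zpow_natCast, ← zpow_natCast, ← zpow_mul, ← zpow_mul, mul_comm]
    rw [← Subgroup.coe_zpow, e]
    exact h1

end Pool.Agent.H51.FA
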