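import Pool.Agent.H51.FA.Perm
import Pool.Agent.H51.FA.Aff

/-!
# FA Tor (Lemma T): elements normalising a subgroup of prime order

From `affine`, `Sums.two_cycles` (multiplier `j⁻¹ ≠ 1`) and `Sums.translation` (`j⁻¹ = 1`, i.e. `c ^ j = c`), applied to `σ x = s • x` on
`A = fx c`.  For `p = 2`: `s c s⁻¹ = c` (the only element `≠ 1` of `zpowers c`).
`exists_ne_wt`: if `x ≠ y` are in `fx c` then the weights of some lift (to `E` or to `F`) are different at `x` and `y` (`Sums.inj`).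
-/

set_option autoImplicit false

open Finset

namespace Pool.Agent.H51.FA

private theorem tor_exists_pow (M : Core) (c s : M.H) (hs : s * c * s⁻¹ ∈ Subgroup.zpowers c) :
    ∃ j : ℕ, s * c * s⁻¹ = c ^ j := by
  have h := (mem_powers_iff_mem_zpowers (x := c) (y := s * c * s⁻¹)).2 hs
  obtain ⟨j, hj⟩ := h
  exact ⟨j, hj.symm⟩

private theorem tor_ne_one (M : Core) (c : M.H) (hp : (orderOf c).Prime) : c ≠ 1 := by
  rintro rfl
  rw [orderOf_one] at hp
  exact Nat.not_prime_one hp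

private theorem tor_core (M : Core) (c s : M.H) (hp : (orderOf c).Prime) (j : ℕ) (hj : s * c * s⁻¹ = c ^ j) :
    (s * c * s⁻¹ = c ∧ (∀ x ∈ M.fx c, s • s • x = x) ∧ ((∃ x ∈ M.fx c, s • x = x) → ∀ x ∈ M.fx c, s • x = x) ∧
      (orderOf c ≠ 2 → ∀ x ∈ M.fx c, s • x = x)) ∨
    (s * c * s⁻¹ = c⁻¹ ∧ ∀ x ∈ M.fx c, s • x ≠ x ∧ s • s • x = x) := by
  haveI hF : Fact (orderOf c).Prime := ⟨hp⟩
  have hc1 : c ≠ 1 := tor_ne_one M c hp
  have hmem : s * c * s⁻¹ ∈ Subgroup.zpowers c := by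
    rw [hj]; exact Subgroup.npow_mem_zpowers c j
  obtain ⟨q, e, f, S, -, -, haff⟩ := affine M c hp
  obtain ⟨c₁, d₁, h⟩ := haff s j hj
  have hσ : ∀ x ∈ M.fx c, s • x ∈ M.fx c := fun x hx => smul_mem_fx M c s hc1 hmem x hx
  have hj0 : (j : ZMod (orderOf c)) ≠ 0 := by
    intro h0
    rw [ZMod.natCast_eq_zero_iff] at h0
    have h1 : c ^ j = 1 := orderOf_dvd_iff_pow_eq_one.1 h0
    rw [h1] at hj
    apply hc1
    have h2 : s * c = s := by
      have := mul_inv_eq_one.1 hj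
      exact this
    exact mul_eq_left.1 h2
  by_cases hμ : (j : ZMod (orderOf c))⁻¹ = 1
  · left
    have hj1 : (j : ZMod (orderOf c)) = ((1 : ℕ) : ZMod (orderOf c)) := by
      rw [Nat.cast_one]
      exact inv_eq_one.1 hμ
    rw [ZMod.natCast_eq_natCast_iff] at hj1
    have hcj : c ^ j = c := by
      have := (pow_eq_pow_iff_modEq (x := c)).2 hj1
      rwa [pow_one] at this
    obtain ⟨h1, h2, h3⟩ := S.translation (fun x => s • x) hσ c₁ d₁
      (fun x hx => by rw [(h x hx).1, hμ, one_mul]) (fun x hx => by rw [(h x hx).2, hμ, one_mul])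
    exact ⟨hj.trans hcj, h1, h2, h3⟩
  · right
    obtain ⟨h1, h2⟩ := S.two_cycles (fun x => s • x) hσ (fun x _ y _ hxy => MulAction.injective s hxy)
      ((j : ZMod (orderOf c))⁻¹) c₁ d₁ hμ (inv_ne_zero hj0) (fun x hx => (h x hx).1) (fun x hx => (h x hx).2)
    refine ⟨?_, h2⟩
    have hj1 : (j : ZMod (orderOf c)) = -1 := by
      rw [← inv_inv (j : ZMod (orderOf c)), h1, inv_neg, inv_one]
    have h3 : ((j + 1 : ℕ) : ZMod (orderOf c)) = 0 := by
      rw [Nat.cast_add, Nat.cast_one, hj1, neg_add_cancel]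
    rw [ZMod.natCast_eq_zero_iff] at h3
    have h4 : c ^ (j + 1) = 1 := orderOf_dvd_iff_pow_eq_one.1 h3
    rw [hj]
    rw [pow_succ] at h4
    exact eq_inv_of_mul_eq_one_left h4

/-- two applications of `s` are trivial on the fixed points of `c` -/
theorem smul_smul_fx (M : Core) (c s : M.H) (hp : (orderOf c).Prime) (hs : s * c * s⁻¹ ∈ Subgroup.zpowers c) (x : M.X)
    (hx : x ∈ M.fx c) : s • s • x = x := by
  obtain ⟨j, hj⟩ := tor_exists_pow M c s hs
  rcases tor_core M c s hp j hj with ⟨-, h, -, -⟩ | ⟨-, h⟩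
  · exact h x hx
  · exact (h x hx).2

/-- if `s` fixes one of the fixed points of `c` then it fixes all of them and commutes with `c` -/
theorem fix_all (M : Core) (c s : M.H) (hp : (orderOf c).Prime) (hs : s * c * s⁻¹ ∈ Subgroup.zpowers c)
    (hx : ∃ x ∈ M.fx c, s • x = x) : (∀ x ∈ M.fx c, s • x = x) ∧ s * c * s⁻¹ = c := by
  obtain ⟨j, hj⟩ := tor_exists_pow M c s hs
  rcases tor_core M c s hp j hj with ⟨h0, -, h, -⟩ | ⟨-, h⟩
  · exact ⟨h hx, h0⟩
  · obtain ⟨x, hx, hfix⟩ := hx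
    exact absurd hfix (h x hx).1

/-- for odd `p`, `s` commuting with `c` fixes the fixed points of `c` -/
theorem fix_of_comm (M : Core) (c s : M.H) (hp : (orderOf c).Prime) (h2 : orderOf c ≠ 2) (hs : s * c * s⁻¹ = c) :
    ∀ x ∈ M.fx c, s • x = x := by
  rcases tor_core M c s hp 1 (by rw [hs, pow_one]) with ⟨-, -, -, h⟩ | ⟨h, -⟩
  · exact h h2
  · exfalso
    rw [hs] at h
    have h3 : c ^ 2 = 1 := by
      rw [pow_two]
      nth_rewrite 2 [h]
      exact mul_inv_cancel c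
    have h4 : orderOf c ∣ 2 := orderOf_dvd_of_pow_eq_one h3
    rcases (Nat.dvd_prime Nat.prime_two).1 h4 with h5 | h5
    · exact hp.one_lt.ne' h5
    · exact h2 h5

/-- for odd `p`, `s` normalising `⟨c⟩` fixes the fixed points of `c` or inverts `c` -/
theorem fix_or_inv (M : Core) (c s : M.H) (hp : (orderOf c).Prime) (h2 : orderOf c ≠ 2) (hs : s * c * s⁻¹ ∈ Subgroup.zpowers c) :
    (∀ x ∈ M.fx c, s • x = x) ∨ s * c * s⁻¹ = c⁻¹ := by
  obtain ⟨j, hj⟩ := tor_exists_pow M c s hs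
  rcases tor_core M c s hp j hj with ⟨-, -, -, h⟩ | ⟨h, -⟩
  · exact Or.inl (h h2)
  · exact Or.inr h

theorem exists_ne_wt (M : Core) (c : M.H) (hp : (orderOf c).Prime) (x y : M.X) (hx : x ∈ M.fx c) (hy : y ∈ M.fx c) (hxy : x ≠ y) :
    (∀ u : M.LE.T, M.LE.pr u = c → M.LE.wt u x ≠ M.LE.wt u y) ∨ (∀ v : M.LF.T, M.LF.pr v = c → M.LF.wt v x ≠ M.LF.wt v y) := by
  haveI hF : Fact (orderOf c).Prime := ⟨hp⟩
  obtain ⟨q, e, f, S, hE, hG, -⟩ := affine M c hp
  by_cases he : e x = e y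
  · right
    intro v hv hw
    exact hxy (S.inj x hx y hy he ((hG x hx y hy v hv).1 hw))
  · left
    intro u hu hw
    exact he ((hE x hx y hy u hu).1 hw)

end Pool.Agent.H51.FA
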